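import Pool.Agent.HG13.Defs

set_option linter.all false

namespace Pool.Agent.QR80

open Pool.Agent.HG13

variable {g n : ℕ}

/-- The exponent sums of the letters `x_i, y_i` (`i < g`). -/
noncomputable def ex (w : Fr g n) : Fin (2 * g) → ℂ :=
  Multiplicative.toAdd (FreeGroup.lift (fun c : Fin (2 * g + n) =>
    Multiplicative.ofAdd (fun d : Fin (2 * g) => if (d : ℕ) = (c : ℕ) then (1 : ℂ) else 0)) w)

end Pool.Agent.QR80
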