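import Pool.Agent.HG13.Rep

set_option linter.all false

namespace Pool.Agent.QR80

open Pool.Agent.HG13

universe u

variable {g n : ℕ} {G : Type*} [Group G] {V : Type u} [AddCommGroup V] [Module ℂ V]

/-- The intervals of feet of the planar Lickorish curves `a_i`, `e_i`, `f_k`. -/
def Lk (g n s t : ℕ) : Prop :=
  (∃ i, i < g ∧ s = 2 * i ∧ t = 2 * i + 1) ∨ (∃ i, i + 1 < g ∧ s = 2 * i + 1 ∧ t = 2 * i + 3) ∨
    ∃ k, k ≤ n ∧ s = 2 * g - 1 ∧ t = 2 * g + k

/-- The interval `[s,t)` contains exactly one foot of the handle `i` (for Lickorish intervals, or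
more generally intervals which start at an odd foot or contain just one foot). -/
def Cr (s t i : ℕ) : Prop := s = 2 * i + 1 ∨ t = 2 * i + 1

theorem Lk.lt {s t : ℕ} (hg : 0 < g) (h : Lk g n s t) : s < t ∧ t ≤ 2 * g + n := by
  rcases h with ⟨i, h1, h2, h3⟩ | ⟨i, h1, h2, h3⟩ | ⟨k, h1, h2, h3⟩ <;> omega

theorem not_Cr {s t i : ℕ} (hst : s < t) (h : ¬ Cr s t i) :
    2 * i + 2 ≤ s ∨ t ≤ 2 * i ∨ (s ≤ 2 * i ∧ 2 * i + 2 ≤ t) := by
  unfold Cr at h; omega

/-- For a crossing there is a braid relation. -/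
theorem Cr.brd (S : Tw g n G) (hS : Rels S) {s t i : ℕ} (hst : s < t) (ht : t ≤ 2 * g + n)
    (hi : i < g) (h : Cr s t i) : Brd (S.T s t) (S.B i) := by
  rcases h with h | h
  · subst h; exact hS.TBs i t hi hst ht
  · subst h; exact hS.TBe i s hi hst

/-- A twist around one foot commutes with all planar twists. -/
theorem a_comm (S : Tw g n G) (hS : Rels S) {j s t : ℕ} (hj : j < g) (hst : s < t)
    (ht : t ≤ 2 * g + n) : Commute (S.T s t) (S.T (2 * j) (2 * j + 1)) := by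
  by_cases h : 2 * j + 1 ≤ s
  · exact (hS.TT _ _ _ _ (by omega) (by omega) hst ht (Or.inl h)).symm
  · by_cases h' : t ≤ 2 * j
    · exact hS.TT _ _ _ _ hst ht (by omega) (by omega) (Or.inl h')
    · exact hS.TT _ _ _ _ hst ht (by omega) (by omega) (Or.inr ⟨by omega, by omega⟩)

-- MODULE LV1
private theorem LV1_uw (S : Tw g n G) (s t u w : ℕ) (M : Subgroup G) (h1 : S.T s w ∈ M)
    (h2 : S.T s t ∈ M) (h3 : S.T t u ∈ M) (h4 : S.T s u ∈ M) (h5 : S.T t w ∈ M)
    (h6 : S.L s t u w ∈ M) : S.T u w ∈ M := by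
  have h := S.lantern s t u w
  have h' : S.T u w = (S.T s w * S.T s t * S.T t u)⁻¹ * (S.T s u * S.T t w * S.L s t u w) := by
    rw [← h]; group
  rw [h']
  exact M.mul_mem (M.inv_mem (M.mul_mem (M.mul_mem h1 h2) h3)) (M.mul_mem (M.mul_mem h4 h5) h6)

private theorem LV1_st (S : Tw g n G) (s t u w : ℕ) (M : Subgroup G) (h1 : S.T s w ∈ M)
    (h2 : S.T u w ∈ M) (h3 : S.T t u ∈ M) (h4 : S.T s u ∈ M) (h5 : S.T t w ∈ M)
    (h6 : S.L s t u w ∈ M) : S.T s t ∈ M := by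
  have h := S.lantern s t u w
  have h' : S.T s t = (S.T s w)⁻¹ * (S.T s u * S.T t w * S.L s t u w) * (S.T u w)⁻¹ * (S.T t u)⁻¹ := by
    rw [← h]; group
  rw [h']
  exact M.mul_mem (M.mul_mem (M.mul_mem (M.inv_mem h1) (M.mul_mem (M.mul_mem h4 h5) h6))
    (M.inv_mem h2)) (M.inv_mem h3)

/-- LEMMA L1. `C` normalises `M`, contains all `T s t` and the `B i`, `i ≠ j`; `T_(a_k) ∈ M`, `k ≠ j`. Then `M` contains the `B i`, `i ≠ j`, and all planar Lickorish twists.
PROOF (Brd.mem each time). B k: braids with T (2k) (2k+1) (TBe). i ≠ j, k < i: T (2k+1) (2i+1) braids with B k (TBs), so it is in M, and with B i (TBe), so B i ∈ M. i < k: T (2i+1) (2k+1) braids with B k (TBe) and B i (TBs). So (*): every T s t with s = 2i+1 or t = 2i+1, i ≠ j, i < g, s < t ≤ 2g+n, is in M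
(braids with B i: Cr.brd). a_i, i ≠ j: (*). e_i = T (2i+1) (2i+3): i ≠ j or i + 1 ≠ j: (*). f_k, j ≠ g-1: (*) (starts at 2(g-1)+1). f_k, j = g-1: lantern with 1, 3, 2g-1, 2g+k: T 1 (2g+k), T 1 3, T 1 (2g-1) start at the foot 1 of the handle 0, T 3 (2g-1), T 3 (2g+k) start at the foot 3 of the handle 1: all in M by (*);
L 1 3 (2g-1) (2g+k) ∈ C (L_mem) braids with B 0 ∈ M (LB3, i = 0), so it is in M; Tw.lantern: T (2g-1) (2g+k) ∈ M. a_j: if 2 ≤ j: lantern 1, 3, 2j+1, 2j+2 (T 1 (2j+2), T 1 3, T 3 (2j+1), T 1 (2j+1), T 3 (2j+2) ∈ M by (*), L by LB3 with i = 0): T (2j+1) (2j+2) ∈ M, which is T (2j) (2j+1) (aa).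
If j ≤ 1: lantern 2j, 2j+1, 2j+3, 2j+5 (j + 2 < g): T (2j) (2j+5), T (2j+3) (2j+5), T (2j+1) (2j+5) end at the foot 2(j+2)+1, T (2j+1) (2j+3), T (2j) (2j+3) end at the foot 2(j+1)+1: in M by (*); L (2j) (2j+1) (2j+3) (2(j+2)+1) braids with B (j+2) (LB); so T (2j) (2j+1) ∈ M. -/
theorem lem_L1 (S : Tw g n G) (hS : Rels S) (hg : 4 ≤ g) (j k : ℕ) (hj : j < g) (hk : k < g)
    (hjk : k ≠ j) (C M : Subgroup G) (hn : ∀ c ∈ C, ∀ z ∈ M, c * z * c⁻¹ ∈ M)
    (hT : ∀ s t, s < t → t ≤ 2 * g + n → S.T s t ∈ C) (hB : ∀ i, i < g → i ≠ j → S.B i ∈ C)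
    (h0 : S.T (2 * k) (2 * k + 1) ∈ M) :
    (∀ i, i < g → i ≠ j → S.B i ∈ M) ∧ ∀ s t, Lk g n s t → S.T s t ∈ M := by
  have hBk : S.B k ∈ M := (hS.TBe k (2 * k) hk (by omega)).mem hn (hT _ _ (by omega) (by omega))
    (hB k hk hjk) h0
  have hBi : ∀ i, i < g → i ≠ j → S.B i ∈ M := by
    intro i hi hij
    rcases lt_trichotomy k i with h | h | h
    · have h1 : S.T (2 * k + 1) (2 * i + 1) ∈ M :=
        (hS.TBs k (2 * i + 1) hk (by omega) (by omega)).mem' hn (hT _ _ (by omega) (by omega))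
          (hB k hk hjk) hBk
      exact (hS.TBe i (2 * k + 1) hi (by omega)).mem hn (hT _ _ (by omega) (by omega)) (hB i hi hij) h1
    · rw [← h]; exact hBk
    · have h1 : S.T (2 * i + 1) (2 * k + 1) ∈ M :=
        (hS.TBe k (2 * i + 1) hk (by omega)).mem' hn (hT _ _ (by omega) (by omega)) (hB k hk hjk) hBk
      exact (hS.TBs i (2 * k + 1) hi (by omega) (by omega)).mem hn (hT _ _ (by omega) (by omega))
        (hB i hi hij) h1
  have star : ∀ s t i, i < g → i ≠ j → s < t → t ≤ 2 * g + n → Cr s t i → S.T s t ∈ M := by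
    intro s t i hi hij hst ht hc
    exact (Cr.brd S hS hst ht hi hc).mem' hn (hT _ _ hst ht) (hB i hi hij) (hBi i hi hij)
  have hL : ∀ s t u w, s < t → t < u → u < w → w ≤ 2 * g + n → S.L s t u w ∈ C := by
    intro s t u w h1 h2 h3 h4
    exact S.L_mem s t u w C (hT _ _ (by omega) (by omega)) (hT _ _ (by omega) (by omega))
      (hT _ _ (by omega) (by omega)) (hT _ _ (by omega) (by omega)) (hT _ _ (by omega) (by omega))
      (hT _ _ (by omega) (by omega))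
  refine ⟨hBi, ?_⟩
  rintro s t (⟨i, hi, rfl, rfl⟩ | ⟨i, hi, rfl, rfl⟩ | ⟨k', hk', rfl, rfl⟩)
  · by_cases hij : i = j
    · subst hij
      by_cases h2 : 2 ≤ i
      · have h3 : S.T (2 * i + 1) (2 * i + 2) ∈ M := by
          refine LV1_uw S 1 3 (2 * i + 1) (2 * i + 2) M
            (star _ _ 0 (by omega) (by omega) (by omega) (by omega) (Or.inl rfl))
            (star _ _ 0 (by omega) (by omega) (by omega) (by omega) (Or.inl rfl))
            (star _ _ 1 (by omega) (by omega) (by omega) (by omega) (Or.inl rfl))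
            (star _ _ 0 (by omega) (by omega) (by omega) (by omega) (Or.inl rfl))
            (star _ _ 1 (by omega) (by omega) (by omega) (by omega) (Or.inl rfl)) ?_
          exact (hS.LB3 0 3 (2 * i + 1) (2 * i + 2) (by omega) (by omega) (by omega) (by omega)
            (by omega)).mem' hn (hL _ _ _ _ (by omega) (by omega) (by omega) (by omega))
            (hB 0 (by omega) (by omega)) (hBi 0 (by omega) (by omega))
        rw [hS.aa i hi]
        exact h3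
      · refine LV1_st S (2 * i) (2 * i + 1) (2 * i + 3) (2 * i + 5) M
          (star _ _ (i + 2) (by omega) (by omega) (by omega) (by omega) (Or.inr (by omega)))
          (star _ _ (i + 2) (by omega) (by omega) (by omega) (by omega) (Or.inr (by omega)))
          (star _ _ (i + 1) (by omega) (by omega) (by omega) (by omega) (Or.inr (by omega)))
          (star _ _ (i + 1) (by omega) (by omega) (by omega) (by omega) (Or.inr (by omega)))
          (star _ _ (i + 2) (by omega) (by omega) (by omega) (by omega) (Or.inr (by omega))) ?_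
        have h3 := hS.LB (2 * i) (2 * i + 1) (2 * i + 3) (i + 2) (by omega) (by omega) (by omega)
          (by omega)
        have h4 : 2 * (i + 2) + 1 = 2 * i + 5 := by omega
        rw [h4] at h3
        exact h3.mem' hn (hL _ _ _ _ (by omega) (by omega) (by omega) (by omega))
          (hB (i + 2) (by omega) (by omega)) (hBi (i + 2) (by omega) (by omega))
    · exact star _ _ i hi hij (by omega) (by omega) (Or.inr rfl)
  · by_cases hij : i = j
    · exact star _ _ (i + 1) (by omega) (by omega) (by omega) (by omega) (Or.inr (by omega))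
    · exact star _ _ i (by omega) hij (by omega) (by omega) (Or.inl rfl)
  · by_cases hgj : g - 1 = j
    · refine LV1_uw S 1 3 (2 * g - 1) (2 * g + k') M
        (star _ _ 0 (by omega) (by omega) (by omega) (by omega) (Or.inl rfl))
        (star _ _ 0 (by omega) (by omega) (by omega) (by omega) (Or.inl rfl))
        (star _ _ 1 (by omega) (by omega) (by omega) (by omega) (Or.inl rfl))
        (star _ _ 0 (by omega) (by omega) (by omega) (by omega) (Or.inl rfl))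
        (star _ _ 1 (by omega) (by omega) (by omega) (by omega) (Or.inl rfl)) ?_
      exact (hS.LB3 0 3 (2 * g - 1) (2 * g + k') (by omega) (by omega) (by omega) (by omega)
        (by omega)).mem' hn (hL _ _ _ _ (by omega) (by omega) (by omega) (by omega))
        (hB 0 (by omega) (by omega)) (hBi 0 (by omega) (by omega))
    · exact star _ _ (g - 1) (by omega) hgj (by omega) (by omega) (Or.inl (by omega))
-- END LV1

-- MODULE LV2
private theorem LV2_fix (ρ : G →* Module.End ℂ V) (x y : G) :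
    x ∈ Fix ρ {ρ y - 1} ↔ (ρ x - 1) * (ρ y - 1) = 0 := by
  constructor
  · intro h
    rw [sub_mul, one_mul, h _ rfl, sub_self]
  · intro h φ hφ
    rw [Set.mem_singleton_iff.1 hφ]
    rw [sub_mul, one_mul, sub_eq_zero] at h
    exact h

private theorem LV2_com (ρ : G →* Module.End ℂ V) {x y : G} (h : Commute x y) :
    Commute (ρ x - 1) (ρ y - 1) :=
  ((h.map ρ).sub_right (Commute.one_right _)).sub_left (Commute.one_left _)

private theorem LV2_cen (ρ : G →* Module.End ℂ V) {x y : G} (h : Commute x y) :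
    x ∈ Cen ρ {ρ y - 1} := by
  intro φ hφ
  rw [Set.mem_singleton_iff.1 hφ]
  exact (h.map ρ).sub_right (Commute.one_right _)

private theorem LV2_swap (ρ : G →* Module.End ℂ V) {x y : G} (h : Commute x y)
    (h0 : (ρ x - 1) * (ρ y - 1) = 0) : (ρ y - 1) * (ρ x - 1) = 0 := by
  rw [← (LV2_com ρ h).eq]
  exact h0

private theorem LV2_aB (S : Tw g n G) (hS : Rels S) {i j : ℕ} (hi : i < g) (hj : j < g) (h : i ≠ j) :
    Commute (S.T (2 * j) (2 * j + 1)) (S.B i) :=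
  hS.TB _ _ _ (by omega) (by omega) hi (by omega)

private theorem LV2_step (S : Tw g n G) (hS : Rels S) (hg : 4 ≤ g) (ρ : G →* Module.End ℂ V)
    (j k : ℕ) (hj : j < g) (hk : k < g) (hjk : k ≠ j)
    (h : (ρ (S.T (2 * k) (2 * k + 1)) - 1) * (ρ (S.T (2 * j) (2 * j + 1)) - 1) = 0) :
    (∀ i, i < g → i ≠ j → S.B i ∈ Fix ρ {ρ (S.T (2 * j) (2 * j + 1)) - 1}) ∧
      ∀ s t, Lk g n s t → S.T s t ∈ Fix ρ {ρ (S.T (2 * j) (2 * j + 1)) - 1} :=
  lem_L1 S hS hg j k hj hk hjk (Cen ρ {ρ (S.T (2 * j) (2 * j + 1)) - 1}) _ (conj_fix ρ _)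
    (fun s t hst ht => LV2_cen ρ (a_comm S hS hj hst ht))
    (fun i hi hij => LV2_cen ρ (LV2_aB S hS hi hj hij).symm) ((LV2_fix ρ _ _).2 h)

/-- LEMMA K1. PROOF. For φ = ρ (T_(a_j)) - 1 the subgroup C = Cen ρ {φ} contains all T s t (a_comm) and the B i, i ≠ j (TB); conj_fix. j = 0: N_(a_0) N_(a_2) = 0 and they commute, so N_(a_2) N_(a_0) = 0, that is T 4 5 ∈ Fix ρ {N_(a_0)}: lem_L1 with j = 0, k = 2. j ≠ 0: the case 0 gives T_(a_j) ∈ Fix ρ {N_(a_0)}
(a_j is an Lk interval), N_(a_j) N_(a_0) = 0, they commute, so T_(a_0) ∈ Fix ρ {N_(a_j)}: lem_L1 with k = 0. (x ∈ Fix ρ {φ} iff (ρ x - 1) * φ = 0.) -/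
theorem lem_K1 (S : Tw g n G) (hS : Rels S) (hg : 4 ≤ g) (ρ : G →* Module.End ℂ V)
    (h02 : (ρ (S.T 0 1) - 1) * (ρ (S.T 4 5) - 1) = 0) (j : ℕ) (hj : j < g) :
    (∀ i, i < g → i ≠ j → S.B i ∈ Fix ρ {ρ (S.T (2 * j) (2 * j + 1)) - 1}) ∧
      ∀ s t, Lk g n s t → S.T s t ∈ Fix ρ {ρ (S.T (2 * j) (2 * j + 1)) - 1} := by
  have c0 := LV2_step S hS hg ρ 0 2 (by omega) (by omega) (by omega)
    (LV2_swap ρ (hS.TT 0 1 4 5 (by omega) (by omega) (by omega) (by omega) (Or.inl (by omega))) h02)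
  by_cases h0 : j = 0
  · subst h0
    exact c0
  · have h1 := (LV2_fix ρ _ _).1 (c0.2 (2 * j) (2 * j + 1) (Or.inl ⟨j, hj, rfl, rfl⟩))
    exact LV2_step S hS hg ρ j 0 hj (by omega) (Ne.symm h0)
      (LV2_swap ρ (a_comm S hS (j := 0) (by omega) (by omega) (by omega)) h1)
-- END LV2

-- MODULE LV3
/-- Squares. PROOF. Brd.conj: y = w x w⁻¹ with w = x y, so ρ y - 1 = ρ w * (ρ x - 1) * ρ w⁻¹ and its square is ρ w * (ρ x - 1)^2 * ρ w⁻¹ = 0. -/
theorem sq_of_brd (ρ : G →* Module.End ℂ V) (x y : G) (h : Brd x y)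
    (hx : (ρ x - 1) * (ρ x - 1) = 0) : (ρ y - 1) * (ρ y - 1) = 0 := by
  have h1 : ρ (x * y) * ρ (x * y)⁻¹ = 1 := by rw [← map_mul]; simp
  have h1' : ρ (x * y)⁻¹ * ρ (x * y) = 1 := by rw [← map_mul]; simp
  have h2 : ρ y - 1 = ρ (x * y) * (ρ x - 1) * ρ (x * y)⁻¹ := by
    conv_lhs => rw [h.conj, map_mul, map_mul ρ (x * y) x]
    rw [mul_sub, sub_mul, mul_one, h1]
  rw [h2]
  calc ρ (x * y) * (ρ x - 1) * ρ (x * y)⁻¹ * (ρ (x * y) * (ρ x - 1) * ρ (x * y)⁻¹)
      = ρ (x * y) * (ρ x - 1) * (ρ (x * y)⁻¹ * ρ (x * y)) * (ρ x - 1) * ρ (x * y)⁻¹ := by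
        simp only [mul_assoc]
    _ = ρ (x * y) * ((ρ x - 1) * (ρ x - 1)) * ρ (x * y)⁻¹ := by
        rw [h1', mul_one]; simp only [mul_assoc]
    _ = 0 := by rw [hx, mul_zero, zero_mul]
-- END LV3

-- MODULE LV4
/-- Products with N_(e_i) on the right. PROOF. φ = ρ (T (2i+1) (2i+3)) - 1, M = Fix ρ {φ}, C = Cen ρ {φ}, conj_fix. All T_(a_j) ∈ M: lem_K1 for j: (ρ (e_i) - 1) * N_(a_j) = 0 and they commute (a_comm). T_(a_j) ∈ C. For j ≠ i, i+1: B j ∈ C (TB), braids with T_(a_j) (TBe): B j ∈ M. e_l, l + 1 < g, l ≠ i: commutes with e_i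
(TT, disjoint): in C. If l ≠ i + 1 then B l ∈ M (l ≠ i) and e_l braids with B l: e_l ∈ M. If l = i + 1: B (l+1) ∈ M (l + 1 = i + 2 < g), braids with e_l (TBe): e_l ∈ M. l = i: the square: a_i has square zero (lem_K1), sq_of_brd twice (a_i, B i, e_i). The membership means (ρ x - 1) * φ = 0. -/
theorem lem_Oe (S : Tw g n G) (hS : Rels S) (hg : 4 ≤ g) (ρ : G →* Module.End ℂ V)
    (h02 : (ρ (S.T 0 1) - 1) * (ρ (S.T 4 5) - 1) = 0) (i : ℕ) (hi : i + 1 < g) :
    (∀ j, j < g → (ρ (S.T (2 * j) (2 * j + 1)) - 1) * (ρ (S.T (2 * i + 1) (2 * i + 3)) - 1) = 0) ∧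
    ∀ l, l + 1 < g →
      (ρ (S.T (2 * l + 1) (2 * l + 3)) - 1) * (ρ (S.T (2 * i + 1) (2 * i + 3)) - 1) = 0 := by
  have hlt : 2 * i + 1 < 2 * i + 3 := by omega
  have hle : 2 * i + 3 ≤ 2 * g + n := by omega
  have hn := conj_fix ρ {ρ (S.T (2 * i + 1) (2 * i + 3)) - 1}
  have haM : ∀ j, j < g → S.T (2 * j) (2 * j + 1) ∈ Fix ρ {ρ (S.T (2 * i + 1) (2 * i + 3)) - 1} := by
    intro j hj
    have h1 := (LV2_fix ρ _ _).1 ((lem_K1 S hS hg ρ h02 j hj).2 (2 * i + 1) (2 * i + 3)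
      (Or.inr (Or.inl ⟨i, hi, rfl, rfl⟩)))
    exact (LV2_fix ρ _ _).2 (LV2_swap ρ (a_comm S hS hj hlt hle) h1)
  have haC : ∀ j, j < g → S.T (2 * j) (2 * j + 1) ∈ Cen ρ {ρ (S.T (2 * i + 1) (2 * i + 3)) - 1} :=
    fun j hj => LV2_cen ρ (a_comm S hS hj hlt hle).symm
  have hBC : ∀ j, j < g → j ≠ i → j ≠ i + 1 →
      S.B j ∈ Cen ρ {ρ (S.T (2 * i + 1) (2 * i + 3)) - 1} := fun j hj h1 h2 =>
    LV2_cen ρ (hS.TB _ _ _ hlt hle hj (by omega)).symm
  have hBM : ∀ j, j < g → j ≠ i → j ≠ i + 1 →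
      S.B j ∈ Fix ρ {ρ (S.T (2 * i + 1) (2 * i + 3)) - 1} := fun j hj h1 h2 =>
    (hS.TBe j (2 * j) hj (by omega)).mem hn (haC j hj) (hBC j hj h1 h2) (haM j hj)
  refine ⟨fun j hj => (LV2_fix ρ _ _).1 (haM j hj), fun l hl => ?_⟩
  by_cases h1 : l = i
  · subst h1
    have e1 := (LV2_fix ρ _ _).1 ((lem_K1 S hS hg ρ h02 l (by omega)).2 (2 * l) (2 * l + 1)
      (Or.inl ⟨l, by omega, rfl, rfl⟩))
    have e2 := sq_of_brd ρ _ _ (hS.TBe l (2 * l) (by omega) (by omega)) e1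
    exact sq_of_brd ρ _ _ (hS.TBs l (2 * l + 3) (by omega) (by omega) (by omega)).symm e2
  · have hC : S.T (2 * l + 1) (2 * l + 3) ∈ Cen ρ {ρ (S.T (2 * i + 1) (2 * i + 3)) - 1} := by
      apply LV2_cen
      rcases lt_or_gt_of_ne h1 with h | h
      · exact hS.TT _ _ _ _ (by omega) (by omega) hlt hle (Or.inl (by omega))
      · exact (hS.TT _ _ _ _ hlt hle (by omega) (by omega) (Or.inl (by omega))).symm
    rw [← LV2_fix]
    by_cases h2 : l = i + 1
    · have e1 := hS.TBe (l + 1) (2 * l + 1) hl (by omega)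
      have e2 : 2 * (l + 1) + 1 = 2 * l + 3 := by omega
      rw [e2] at e1
      exact e1.mem' hn hC (hBC _ hl (by omega) (by omega)) (hBM _ hl (by omega) (by omega))
    · exact (hS.TBs l (2 * l + 3) (by omega) (by omega) (by omega)).mem' hn hC
        (hBC _ (by omega) h1 h2) (hBM _ (by omega) h1 h2)
-- END LV4

-- MODULE LV5
/-- Products with N_(f_k) on the right. PROOF. φ = ρ (T (2g-1) (2g+k)) - 1, M = Fix ρ {φ}, C = Cen ρ {φ}. T_(a_j) ∈ M, C for all j (lem_K1, a_comm). B j ∈ M for j + 1 < g (TB: 2g-1 ≥ 2j+2; braids with T_(a_j)). e_l: l + 1 < g: disjoint from [2g-1,2g+k), in C (TT), braids with B l ∈ M: in M. f_l, k ≤ l: lantern 1, 3, 2g-1, 2g+l: T 1 (2g+l),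
T 3 (2g+l), T (2g-1) (2g+l) contain [2g-1,2g+k), T 1 3, T 3 (2g-1), T 1 (2g-1) are disjoint from it: all in C (TT), also L 1 3 (2g-1) (2g+l) (L_mem). T 1 (2g+l), T 1 3, T 1 (2g-1) braid with B 0 ∈ M (TBs), T 3 (2g-1), T 3 (2g+l) with B 1 ∈ M, L with B 0 (LB3): all in M, so T (2g-1) (2g+l) ∈ M
(Tw.lantern). -/
theorem lem_Of (S : Tw g n G) (hS : Rels S) (hg : 4 ≤ g) (ρ : G →* Module.End ℂ V)
    (h02 : (ρ (S.T 0 1) - 1) * (ρ (S.T 4 5) - 1) = 0) (k : ℕ) (hk : k ≤ n) :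
    (∀ j, j < g → (ρ (S.T (2 * j) (2 * j + 1)) - 1) * (ρ (S.T (2 * g - 1) (2 * g + k)) - 1) = 0) ∧
    (∀ l, l + 1 < g →
      (ρ (S.T (2 * l + 1) (2 * l + 3)) - 1) * (ρ (S.T (2 * g - 1) (2 * g + k)) - 1) = 0) ∧
    ∀ l, k ≤ l → l ≤ n →
      (ρ (S.T (2 * g - 1) (2 * g + l)) - 1) * (ρ (S.T (2 * g - 1) (2 * g + k)) - 1) = 0 := by
  have hlt : 2 * g - 1 < 2 * g + k := by omega
  have hle : 2 * g + k ≤ 2 * g + n := by omega
  have hn := conj_fix ρ {ρ (S.T (2 * g - 1) (2 * g + k)) - 1}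
  have haM : ∀ j, j < g → S.T (2 * j) (2 * j + 1) ∈ Fix ρ {ρ (S.T (2 * g - 1) (2 * g + k)) - 1} := by
    intro j hj
    have h1 := (LV2_fix ρ _ _).1 ((lem_K1 S hS hg ρ h02 j hj).2 (2 * g - 1) (2 * g + k)
      (Or.inr (Or.inr ⟨k, hk, rfl, rfl⟩)))
    exact (LV2_fix ρ _ _).2 (LV2_swap ρ (a_comm S hS hj hlt hle) h1)
  have haC : ∀ j, j < g → S.T (2 * j) (2 * j + 1) ∈ Cen ρ {ρ (S.T (2 * g - 1) (2 * g + k)) - 1} :=
    fun j hj => LV2_cen ρ (a_comm S hS hj hlt hle).symm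
  have hBC : ∀ j, j + 1 < g → S.B j ∈ Cen ρ {ρ (S.T (2 * g - 1) (2 * g + k)) - 1} := fun j hj =>
    LV2_cen ρ (hS.TB _ _ _ hlt hle (by omega) (by omega)).symm
  have hBM : ∀ j, j + 1 < g → S.B j ∈ Fix ρ {ρ (S.T (2 * g - 1) (2 * g + k)) - 1} := fun j hj =>
    (hS.TBe j (2 * j) (by omega) (by omega)).mem hn (haC j (by omega)) (hBC j hj) (haM j (by omega))
  have hdis : ∀ s t, s < t → t ≤ 2 * g - 1 →
      S.T s t ∈ Cen ρ {ρ (S.T (2 * g - 1) (2 * g + k)) - 1} := fun s t h1 h2 =>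
    LV2_cen ρ (hS.TT _ _ _ _ h1 (by omega) hlt hle (Or.inl h2))
  refine ⟨fun j hj => (LV2_fix ρ _ _).1 (haM j hj), fun l hl => ?_, fun l hkl hl => ?_⟩
  · rw [← LV2_fix]
    exact (hS.TBs l (2 * l + 3) (by omega) (by omega) (by omega)).mem' hn
      (hdis _ _ (by omega) (by omega)) (hBC _ hl) (hBM _ hl)
  · rw [← LV2_fix]
    have hcon : ∀ s, s ≤ 2 * g - 1 → S.T s (2 * g + l) ∈ Cen ρ {ρ (S.T (2 * g - 1) (2 * g + k)) - 1} :=
      fun s h1 => LV2_cen ρ (hS.TT _ _ _ _ (by omega) (by omega) hlt hle (Or.inr ⟨h1, by omega⟩))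
    have hLC : S.L 1 3 (2 * g - 1) (2 * g + l) ∈ Cen ρ {ρ (S.T (2 * g - 1) (2 * g + k)) - 1} :=
      S.L_mem _ _ _ _ _ (hcon _ (by omega)) (hdis _ _ (by omega) (by omega)) (hcon _ (by omega))
        (hdis _ _ (by omega) (by omega)) (hdis _ _ (by omega) (by omega)) (hcon _ (by omega))
    refine LV1_uw S 1 3 (2 * g - 1) (2 * g + l) _ ?_ ?_ ?_ ?_ ?_ ?_
    · exact (hS.TBs 0 (2 * g + l) (by omega) (by omega) (by omega)).mem' hn (hcon _ (by omega))
        (hBC 0 (by omega)) (hBM 0 (by omega))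
    · exact (hS.TBs 0 3 (by omega) (by omega) (by omega)).mem' hn (hdis _ _ (by omega) (by omega))
        (hBC 0 (by omega)) (hBM 0 (by omega))
    · exact (hS.TBs 1 (2 * g - 1) (by omega) (by omega) (by omega)).mem' hn
        (hdis _ _ (by omega) (by omega)) (hBC 1 (by omega)) (hBM 1 (by omega))
    · exact (hS.TBs 0 (2 * g - 1) (by omega) (by omega) (by omega)).mem' hn
        (hdis _ _ (by omega) (by omega)) (hBC 0 (by omega)) (hBM 0 (by omega))
    · exact (hS.TBs 1 (2 * g + l) (by omega) (by omega) (by omega)).mem' hn (hcon _ (by omega))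
        (hBC 1 (by omega)) (hBM 1 (by omega))
    · exact (hS.LB3 0 3 (2 * g - 1) (2 * g + l) (by omega) (by omega) (by omega) (by omega)
        (by omega)).mem' hn hLC (hBC 0 (by omega)) (hBM 0 (by omega))
-- END LV5

-- MODULE LV6
/-- (O1) All products of two planar Lickorish N's vanish. PROOF. The second interval is a_j: lem_K1. e_i: the first is a_j or e_l: lem_Oe; the first is f_k: they commute (TT, disjoint), lem_Of. f_k: the first is a_j or e_l: lem_Of; f_l with k ≤ l: lem_Of; l < k: they commute (nested), lem_Of with the roles interchanged. -/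
theorem lem_O1 (S : Tw g n G) (hS : Rels S) (hg : 4 ≤ g) (ρ : G →* Module.End ℂ V)
    (h02 : (ρ (S.T 0 1) - 1) * (ρ (S.T 4 5) - 1) = 0) (s t s' t' : ℕ) (h : Lk g n s t)
    (h' : Lk g n s' t') : (ρ (S.T s t) - 1) * (ρ (S.T s' t') - 1) = 0 := by
  rcases h' with ⟨j, hj, rfl, rfl⟩ | ⟨i, hi, rfl, rfl⟩ | ⟨k, hk, rfl, rfl⟩
  · exact (LV2_fix ρ _ _).1 ((lem_K1 S hS hg ρ h02 j hj).2 s t h)
  · rcases h with ⟨j, hj, rfl, rfl⟩ | ⟨l, hl, rfl, rfl⟩ | ⟨k, hk, rfl, rfl⟩
    · exact (lem_Oe S hS hg ρ h02 i hi).1 j hj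
    · exact (lem_Oe S hS hg ρ h02 i hi).2 l hl
    · exact LV2_swap ρ (hS.TT _ _ _ _ (by omega) (by omega) (by omega) (by omega)
        (Or.inl (by omega))) ((lem_Of S hS hg ρ h02 k hk).2.1 i hi)
  · rcases h with ⟨j, hj, rfl, rfl⟩ | ⟨l, hl, rfl, rfl⟩ | ⟨l, hl, rfl, rfl⟩
    · exact (lem_Of S hS hg ρ h02 k hk).1 j hj
    · exact (lem_Of S hS hg ρ h02 k hk).2.1 l hl
    · by_cases hkl : k ≤ l
      · exact (lem_Of S hS hg ρ h02 k hk).2.2 l hkl hl
      · exact LV2_swap ρ (hS.TT _ _ _ _ (by omega) (by omega) (by omega) (by omega)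
          (Or.inr ⟨le_refl _, by omega⟩)) ((lem_Of S hS hg ρ h02 l hl).2.2 k (by omega) hk)
-- END LV6

-- MODULE LV7
/-- (O2). PROOF. First part, i ≠ j: φ = ρ (B j) - 1: T_(a_i) ∈ Fix ρ {φ} by lem_K1 for i (B j ∈ Fix ρ {N_(a_i)}, N_(B j) N_(a_i) = 0) and commutation (TB); T_(a_i), B i ∈ Cen ρ {φ} (TB, BB); they braid: B i ∈ Fix ρ {φ}. i = j: sq_of_brd from a_i (lem_O1 with a_i twice). Second part: φ = ρ (T s t) - 1: T_(a_i) ∈ Fix ρ {φ}
(lem_O1), T_(a_i), B i ∈ Cen ρ {φ} (a_comm, TB with not_Cr), they braid: B i ∈ Fix ρ {φ}; the other order by commutation. -/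
theorem lem_O2 (S : Tw g n G) (hS : Rels S) (hg : 4 ≤ g) (ρ : G →* Module.End ℂ V)
    (h02 : (ρ (S.T 0 1) - 1) * (ρ (S.T 4 5) - 1) = 0) :
    (∀ i j, i < g → j < g → (ρ (S.B i) - 1) * (ρ (S.B j) - 1) = 0) ∧
    ∀ s t i, Lk g n s t → i < g → ¬ Cr s t i →
      (ρ (S.B i) - 1) * (ρ (S.T s t) - 1) = 0 ∧ (ρ (S.T s t) - 1) * (ρ (S.B i) - 1) = 0 := by
  constructor
  · intro i j hi hj
    by_cases hij : i = j
    · subst hij
      have e1 := lem_O1 S hS hg ρ h02 (2 * i) (2 * i + 1) (2 * i) (2 * i + 1)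
        (Or.inl ⟨i, hi, rfl, rfl⟩) (Or.inl ⟨i, hi, rfl, rfl⟩)
      exact sq_of_brd ρ _ _ (hS.TBe i (2 * i) hi (by omega)) e1
    · have e1 := (LV2_fix ρ _ _).1 ((lem_K1 S hS hg ρ h02 i hi).1 j hj (Ne.symm hij))
      have e2 := LV2_aB S hS hj hi (Ne.symm hij)
      rw [← LV2_fix]
      exact (hS.TBe i (2 * i) hi (by omega)).mem (conj_fix ρ _) (LV2_cen ρ e2)
        (LV2_cen ρ (hS.BB i j hi hj)) ((LV2_fix ρ _ _).2 (LV2_swap ρ e2.symm e1))
  · intro s t i h hi hc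
    obtain ⟨hst, ht⟩ := h.lt (by omega)
    have e1 := lem_O1 S hS hg ρ h02 (2 * i) (2 * i + 1) s t (Or.inl ⟨i, hi, rfl, rfl⟩) h
    have e2 := hS.TB s t i hst ht hi (not_Cr hst hc)
    have e3 : S.B i ∈ Fix ρ {ρ (S.T s t) - 1} :=
      (hS.TBe i (2 * i) hi (by omega)).mem (conj_fix ρ _) (LV2_cen ρ (a_comm S hS hi hst ht).symm)
        (LV2_cen ρ e2.symm) ((LV2_fix ρ _ _).2 e1)
    have e4 := (LV2_fix ρ _ _).1 e3
    exact ⟨e4, LV2_swap ρ e2.symm e4⟩
-- END LV7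

-- MODULE LV8
/-- (O3). PROOF. N = ρ (T s t) - 1, b = ρ (B i) - 1; N N = 0 (lem_O1), b b = 0 (lem_O2). The braid relation (Cr.brd, mapped by ρ) expanded: N + N N + N b N = b + b b + b N b, so τ := N + N b N = b + b N b. For v : V put w = τ v: every planar Lickorish N' kills w (w = N (v + b N v), lem_O1); b_j, j ≠ i, kills
w = b (v + N b v) (lem_O2), and b w = b b (...) = 0. So w is fixed by all B j and all T s' t', Lk: w = 0 by hfix. So τ = 0: N b N = -N and b N b = -b. -/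
theorem lem_O3 (S : Tw g n G) (hS : Rels S) (hg : 4 ≤ g) (ρ : G →* Module.End ℂ V)
    (h02 : (ρ (S.T 0 1) - 1) * (ρ (S.T 4 5) - 1) = 0)
    (hfix : ∀ v : V, (∀ i, i < g → ρ (S.B i) v = v) →
      (∀ s t, Lk g n s t → ρ (S.T s t) v = v) → v = 0)
    (s t i : ℕ) (h : Lk g n s t) (hi : i < g) (hc : Cr s t i) :
    (ρ (S.T s t) - 1) * (ρ (S.B i) - 1) * (ρ (S.T s t) - 1) = -(ρ (S.T s t) - 1) ∧
    (ρ (S.B i) - 1) * (ρ (S.T s t) - 1) * (ρ (S.B i) - 1) = -(ρ (S.B i) - 1) := by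
  obtain ⟨hst, ht⟩ := h.lt (by omega)
  obtain ⟨N, hN⟩ : ∃ N, N = ρ (S.T s t) - 1 := ⟨_, rfl⟩
  obtain ⟨b, hb⟩ : ∃ b, b = ρ (S.B i) - 1 := ⟨_, rfl⟩
  have hO2 := lem_O2 S hS hg ρ h02
  have hNN : N * N = 0 := by rw [hN]; exact lem_O1 S hS hg ρ h02 s t s t h h
  have hbb : b * b = 0 := by rw [hb]; exact hO2.1 i i hi hi
  have hbr : Brd (ρ (S.T s t)) (ρ (S.B i)) := by
    have h1 := Cr.brd S hS hst ht hi hc
    unfold Brd at h1 ⊢
    rw [← map_mul, ← map_mul, ← map_mul, ← map_mul, h1]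
  have hT : ρ (S.T s t) = 1 + N := by rw [hN]; abel
  have hB : ρ (S.B i) = 1 + b := by rw [hb]; abel
  have hexp : N + N * b * N = b + b * N * b := by
    unfold Brd at hbr
    rw [hT, hB] at hbr
    have e1 : (1 + N) * (1 + b) * (1 + N) = (N + N * b * N) + (1 + N + b + N * b + b * N + N * N) := by
      noncomm_ring
    have e2 : (1 + b) * (1 + N) * (1 + b) = (b + b * N * b) + (1 + N + b + N * b + b * N + b * b) := by
      noncomm_ring
    rw [e1, e2, hNN, hbb] at hbr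
    exact add_right_cancel hbr
  have hτ : N + N * b * N = 0 := by
    apply LinearMap.ext
    intro v
    have hw1 : (N + N * b * N) v = N (v + b (N v)) := by
      rw [map_add]
      rfl
    have hw2 : (N + N * b * N) v = b (v + N (b v)) := by
      rw [hexp, map_add]
      rfl
    rw [LinearMap.zero_apply]
    apply hfix
    · intro j hj
      have e1 := LinearMap.congr_fun (hO2.1 j i hj hi) (v + N (b v))
      rw [← hb, Module.End.mul_apply, ← hw2, LinearMap.sub_apply, Module.End.one_apply,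
        LinearMap.zero_apply, sub_eq_zero] at e1
      exact e1
    · intro s' t' h'
      have e1 := LinearMap.congr_fun (lem_O1 S hS hg ρ h02 s' t' s t h' h) (v + b (N v))
      rw [← hN, Module.End.mul_apply, ← hw1, LinearMap.sub_apply, Module.End.one_apply,
        LinearMap.zero_apply, sub_eq_zero] at e1
      exact e1
  rw [← hN, ← hb]
  constructor
  · rw [eq_neg_iff_add_eq_zero, add_comm]
    exact hτ
  · rw [eq_neg_iff_add_eq_zero, add_comm, ← hexp]
    exact hτ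
-- END LV8

/-- The action of the Lickorish generators on `H_1`: `X i`, `Y i` are the classes of `x_i`, `y_i`. -/
structure XY (S : Tw g n G) (ρ : G →* Module.End ℂ V) (X Y : ℕ → V) : Prop where
  bX : ∀ i, i < g → ρ (S.B i) (X i) = X i - Y i
  bX' : ∀ i j, i < g → j < g → i ≠ j → ρ (S.B i) (X j) = X j
  bY : ∀ i j, i < g → j < g → ρ (S.B i) (Y j) = Y j
  tX : ∀ s t j, Lk g n s t → j < g → ρ (S.T s t) (X j) = X j
  tY : ∀ s t j, Lk g n s t → j < g → ¬ Cr s t j → ρ (S.T s t) (Y j) = Y j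
  aY : ∀ i, i < g → ρ (S.T (2 * i) (2 * i + 1)) (Y i) = Y i + X i
  eY : ∀ i, i + 1 < g → ρ (S.T (2 * i + 1) (2 * i + 3)) (Y i) = Y i + X i - X (i + 1)
  eY' : ∀ i, i + 1 < g → ρ (S.T (2 * i + 1) (2 * i + 3)) (Y (i + 1)) = Y (i + 1) + X (i + 1) - X i
  fY : ∀ k, k ≤ n → ρ (S.T (2 * g - 1) (2 * g + k)) (Y (g - 1)) = Y (g - 1) + X (g - 1)

/-- `Y_0 = N_(B_0) v`, `Y_(i+1) = N_(B_(i+1)) N_(e_i) Y_i`. -/
def Yv (S : Tw g n G) (ρ : G →* Module.End ℂ V) (v : V) : ℕ → V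
  | 0 => (ρ (S.B 0) - 1) v
  | i + 1 => (ρ (S.B (i + 1)) - 1) ((ρ (S.T (2 * i + 1) (2 * i + 3)) - 1) (Yv S ρ v i))

/-- `X_i = N_(a_i) Y_i`. -/
def Xv (S : Tw g n G) (ρ : G →* Module.End ℂ V) (v : V) (i : ℕ) : V :=
  (ρ (S.T (2 * i) (2 * i + 1)) - 1) (Yv S ρ v i)

-- MODULE LV9
/-- The relations. PROOF. Write N_c, b_i. Every Y_i is in the range of b_i (i < g), every X_i in the range of N_(a_i). bY: b_i b_j = 0 (lem_O2). tX: N_c N_(a_j) = 0 (lem_O1). bX': b_i N_(a_j) = 0, i ≠ j (lem_O2; a_j crosses only j). tY: N_c b_j = 0 (lem_O2). aY: definition. bX: b_i X_i = b_i N_(a_i) b_i (..) = - b_i (..) = -Y_i (lem_O3).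
eY: u = N_(e_i) Y_i - X_i + X_(i+1) is fixed by everything: planar N kill all three terms (lem_O1); b_j, j ≠ i, i+1: e_i, a_i, a_(i+1) do not cross j (lem_O2); b_i: b_i N_(e_i) Y_i = -Y_i (lem_O3, Y_i in the range of b_i), b_i X_i = -Y_i, b_i X_(i+1) = 0: -Y_i + Y_i = 0; b_(i+1): b_(i+1) N_(e_i) Y_i = Y_(i+1), b_(i+1) X_i = 0,
b_(i+1) X_(i+1) = -Y_(i+1): sum 0. hfix: u = 0. eY': N_(e_i) Y_(i+1) = N_(e_i) b_(i+1) N_(e_i) Y_i = -N_(e_i) Y_i (lem_O3) = X_(i+1) - X_i. fY: u = N_(f_k) Y_(g-1) - X_(g-1): planar N kill it; b_j, j < g-1, kill it; b_(g-1): -Y_(g-1) + Y_(g-1) = 0; hfix. -/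
theorem xy_rel (S : Tw g n G) (hS : Rels S) (hg : 4 ≤ g) (ρ : G →* Module.End ℂ V)
    (h02 : (ρ (S.T 0 1) - 1) * (ρ (S.T 4 5) - 1) = 0)
    (hfix : ∀ v : V, (∀ i, i < g → ρ (S.B i) v = v) →
      (∀ s t, Lk g n s t → ρ (S.T s t) v = v) → v = 0) (v : V) :
    XY S ρ (Xv S ρ v) (Yv S ρ v) := by
  have hO1 := lem_O1 S hS hg ρ h02
  have hO2 := lem_O2 S hS hg ρ h02
  have hO3 := lem_O3 S hS hg ρ h02 hfix
  have kill : ∀ {a b : Module.End ℂ V}, a * b = 0 → ∀ x, a (b x) = 0 := fun h x =>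
    LinearMap.congr_fun h x
  have fixd : ∀ {a : Module.End ℂ V} {x : V}, (a - 1) x = 0 → a x = x := fun h => by
    rw [LinearMap.sub_apply, Module.End.one_apply, sub_eq_zero] at h
    exact h
  have hLa : ∀ i, i < g → Lk g n (2 * i) (2 * i + 1) := fun i hi => Or.inl ⟨i, hi, rfl, rfl⟩
  have hLe : ∀ i, i + 1 < g → Lk g n (2 * i + 1) (2 * i + 3) := fun i hi =>
    Or.inr (Or.inl ⟨i, hi, rfl, rfl⟩)
  have hLf : ∀ k, k ≤ n → Lk g n (2 * g - 1) (2 * g + k) := fun k hk =>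
    Or.inr (Or.inr ⟨k, hk, rfl, rfl⟩)
  have hY : ∀ i, ∃ z, Yv S ρ v i = (ρ (S.B i) - 1) z := by
    intro i
    cases i with
    | zero => exact ⟨v, rfl⟩
    | succ i => exact ⟨_, rfl⟩
  -- `b N b z = - b z`
  have hbNY : ∀ s t i, Lk g n s t → i < g → Cr s t i →
      (ρ (S.B i) - 1) ((ρ (S.T s t) - 1) (Yv S ρ v i)) = -Yv S ρ v i := by
    intro s t i h hi hc
    obtain ⟨z, hz⟩ := hY i
    rw [hz]
    have e1 := LinearMap.congr_fun (hO3 s t i h hi hc).2 z
    rw [LinearMap.neg_apply] at e1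
    exact e1
  have bX : ∀ i, i < g → (ρ (S.B i) - 1) (Xv S ρ v i) = -Yv S ρ v i := fun i hi =>
    hbNY _ _ i (hLa i hi) hi (Or.inr rfl)
  have bX0 : ∀ i j, i < g → j < g → i ≠ j → (ρ (S.B i) - 1) (Xv S ρ v j) = 0 := by
    intro i j hi hj hij
    refine kill (hO2.2 _ _ i (hLa j hj) hi ?_).1 _
    unfold Cr
    omega
  have bY : ∀ i j, i < g → j < g → (ρ (S.B i) - 1) (Yv S ρ v j) = 0 := by
    intro i j hi hj
    obtain ⟨z, hz⟩ := hY j
    rw [hz]
    exact kill (hO2.1 i j hi hj) z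
  have tX : ∀ s t j, Lk g n s t → j < g → (ρ (S.T s t) - 1) (Xv S ρ v j) = 0 :=
    fun s t j h hj => kill (hO1 s t _ _ h (hLa j hj)) _
  have tt : ∀ s t s' t', Lk g n s t → Lk g n s' t' → ∀ x,
      (ρ (S.T s t) - 1) ((ρ (S.T s' t') - 1) x) = 0 := fun s t s' t' h h' x =>
    kill (hO1 s t s' t' h h') x
  have tY : ∀ s t j, Lk g n s t → j < g → ¬ Cr s t j → (ρ (S.T s t) - 1) (Yv S ρ v j) = 0 := by
    intro s t j h hj hc
    obtain ⟨z, hz⟩ := hY j
    rw [hz]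
    exact kill (hO2.2 s t j h hj hc).2 z
  have hfix0 : ∀ u : V, (∀ i, i < g → (ρ (S.B i) - 1) u = 0) →
      (∀ s t, Lk g n s t → (ρ (S.T s t) - 1) u = 0) → u = 0 := fun u h1 h2 =>
    hfix u (fun i hi => fixd (h1 i hi)) (fun s t h => fixd (h2 s t h))
  have eY : ∀ i, i + 1 < g →
      (ρ (S.T (2 * i + 1) (2 * i + 3)) - 1) (Yv S ρ v i) - Xv S ρ v i + Xv S ρ v (i + 1) = 0 := by
    intro i hi
    apply hfix0
    · intro j hj
      rw [map_add, map_sub]
      by_cases h1 : j = i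
      · subst h1
        rw [hbNY _ _ j (hLe j hi) hj (Or.inl rfl), bX j hj, bX0 j (j + 1) hj hi (by omega)]
        abel
      · by_cases h2 : j = i + 1
        · subst h2
          rw [bX0 (i + 1) i hj (by omega) (by omega), bX (i + 1) hj]
          have h3 : (ρ (S.B (i + 1)) - 1) ((ρ (S.T (2 * i + 1) (2 * i + 3)) - 1) (Yv S ρ v i)) =
              Yv S ρ v (i + 1) := rfl
          rw [h3]
          abel
        · rw [bX0 j i hj (by omega) h1, bX0 j (i + 1) hj hi h2]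
          have h3 := kill (hO2.2 _ _ j (hLe i hi) hj (by unfold Cr; omega)).1 (Yv S ρ v i)
          rw [h3]
          abel
    · intro s t h
      rw [map_add, map_sub, tt _ _ _ _ h (hLe i hi), tX s t i h (by omega), tX s t (i + 1) h hi]
      abel
  refine ⟨?_, ?_, ?_, ?_, ?_, ?_, ?_, ?_, ?_⟩
  · intro i hi
    have h1 := bX i hi
    rw [LinearMap.sub_apply, Module.End.one_apply, sub_eq_iff_eq_add] at h1
    rw [h1]
    abel
  · exact fun i j hi hj hij => fixd (bX0 i j hi hj hij)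
  · exact fun i j hi hj => fixd (bY i j hi hj)
  · exact fun s t j h hj => fixd (tX s t j h hj)
  · exact fun s t j h hj hc => fixd (tY s t j h hj hc)
  · intro i hi
    have h1 : (ρ (S.T (2 * i) (2 * i + 1)) - 1) (Yv S ρ v i) = Xv S ρ v i := rfl
    rw [LinearMap.sub_apply, Module.End.one_apply, sub_eq_iff_eq_add] at h1
    rw [h1]
    abel
  · intro i hi
    have h1 := eY i hi
    rw [LinearMap.sub_apply, Module.End.one_apply] at h1
    have h2 : ρ (S.T (2 * i + 1) (2 * i + 3)) (Yv S ρ v i) =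
        (ρ (S.T (2 * i + 1) (2 * i + 3)) (Yv S ρ v i) - Yv S ρ v i - Xv S ρ v i + Xv S ρ v (i + 1)) +
          (Yv S ρ v i + Xv S ρ v i - Xv S ρ v (i + 1)) := by abel
    rw [h2, h1, zero_add]
  · intro i hi
    have h1 := eY i hi
    have h3 := LinearMap.congr_fun (hO3 (2 * i + 1) (2 * i + 3) (i + 1) (hLe i hi) hi
      (Or.inr (by omega))).1 (Yv S ρ v i)
    rw [LinearMap.neg_apply] at h3
    have h4 : (ρ (S.T (2 * i + 1) (2 * i + 3)) - 1) (Yv S ρ v (i + 1)) =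
        -((ρ (S.T (2 * i + 1) (2 * i + 3)) - 1) (Yv S ρ v i)) := h3
    have h5 : (ρ (S.T (2 * i + 1) (2 * i + 3)) - 1) (Yv S ρ v i) = Xv S ρ v i - Xv S ρ v (i + 1) := by
      have h6 : (ρ (S.T (2 * i + 1) (2 * i + 3)) - 1) (Yv S ρ v i) =
          ((ρ (S.T (2 * i + 1) (2 * i + 3)) - 1) (Yv S ρ v i) - Xv S ρ v i + Xv S ρ v (i + 1)) +
            (Xv S ρ v i - Xv S ρ v (i + 1)) := by abel
      rw [h6, h1, zero_add]
    rw [h5, LinearMap.sub_apply, Module.End.one_apply, sub_eq_iff_eq_add] at h4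
    rw [h4]
    abel
  · intro k hk
    have hg1 : g - 1 < g := by omega
    have h1 : (ρ (S.T (2 * g - 1) (2 * g + k)) - 1) (Yv S ρ v (g - 1)) - Xv S ρ v (g - 1) = 0 := by
      apply hfix0
      · intro j hj
        rw [map_sub]
        by_cases h1 : j = g - 1
        · subst h1
          rw [hbNY _ _ (g - 1) (hLf k hk) hj (Or.inl (by omega)), bX _ hj]
          abel
        · rw [bX0 j _ hj hg1 h1]
          have h3 := kill (hO2.2 _ _ j (hLf k hk) hj (by unfold Cr; omega)).1 (Yv S ρ v (g - 1))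
          rw [h3]
          abel
      · intro s t h
        rw [map_sub, tt _ _ _ _ h (hLf k hk), tX s t _ h hg1]
        abel
    rw [LinearMap.sub_apply, Module.End.one_apply] at h1
    have h2 : ρ (S.T (2 * g - 1) (2 * g + k)) (Yv S ρ v (g - 1)) =
        (ρ (S.T (2 * g - 1) (2 * g + k)) (Yv S ρ v (g - 1)) - Yv S ρ v (g - 1) - Xv S ρ v (g - 1)) +
          (Yv S ρ v (g - 1) + Xv S ρ v (g - 1)) := by abel
    rw [h2, h1, zero_add]
-- END LV9

/-- `x_0, y_0, x_1, y_1, ...` -/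
def zz (X Y : ℕ → V) (c : ℕ) : V := if c % 2 = 0 then X (c / 2) else Y (c / 2)

-- MODULE LV10
/-- Independence. PROOF. All Y_i ≠ 0 (i < g): induction: if Y_(i+1) = 0 then aY: X_(i+1) = 0 (ρ (..) 0 = 0), eY': 0 = 0 + 0 - X_i, so X_i = 0 and by bX Y_i = 0. So X_i ≠ 0 (bX). Suppose Σ_c λ_c zz c = 0. Apply ρ (B i) - 1: only c = 2i contributes (bX, bX', bY): -λ_(2i) Y_i = 0, λ_(2i) = 0. Apply
ρ (T_(a_i)) - 1: only c = 2i+1 contributes (tX, tY: a_i crosses only i, aY): λ_(2i+1) X_i = 0. (linearIndependent_iff' or Fintype.linearIndependent_iff.) -/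
theorem xy_ind (S : Tw g n G) (ρ : G →* Module.End ℂ V) (X Y : ℕ → V) (h : XY S ρ X Y)
    (h0 : Y 0 ≠ 0) : LinearIndependent ℂ (fun c : Fin (2 * g) => zz X Y (c : ℕ)) := by
  have hY : ∀ i, i < g → Y i ≠ 0 := by
    intro i
    induction i with
    | zero => exact fun _ => h0
    | succ i ih =>
      intro hi h1
      apply ih (by omega)
      have e1 := h.aY (i + 1) hi
      rw [h1, map_zero, zero_add] at e1
      have e2 := h.eY' i hi
      rw [h1, map_zero, zero_add, ← e1, zero_sub] at e2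
      have e3 : X i = 0 := neg_eq_zero.1 e2.symm
      have e4 := h.bX i (by omega)
      rw [e3, map_zero, zero_sub] at e4
      exact neg_eq_zero.1 e4.symm
  have hX : ∀ i, i < g → X i ≠ 0 := by
    intro i hi h1
    apply hY i hi
    have e4 := h.bX i hi
    rw [h1, map_zero, zero_sub] at e4
    exact neg_eq_zero.1 e4.symm
  have zev : ∀ j, zz X Y (2 * j) = X j := fun j => by
    unfold zz
    rw [if_pos (by omega)]
    congr 1
    omega
  have zod : ∀ j, zz X Y (2 * j + 1) = Y j := fun j => by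
    unfold zz
    rw [if_neg (by omega)]
    congr 1
    omega
  rw [Fintype.linearIndependent_iff]
  intro l hl c
  obtain ⟨i, hi | hi⟩ : ∃ i, (c : ℕ) = 2 * i ∨ (c : ℕ) = 2 * i + 1 := ⟨(c : ℕ) / 2, by omega⟩
  · have hig : i < g := by have := c.2; omega
    have h1 : (ρ (S.B i) - 1) (∑ c : Fin (2 * g), l c • zz X Y (c : ℕ)) = (ρ (S.B i) - 1) 0 := by
      rw [hl]
    rw [map_sum, map_zero, Finset.sum_eq_single c] at h1
    · rw [map_smul] at h1
      rcases smul_eq_zero.1 h1 with h2 | h2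
      · exact h2
      · exfalso
        rw [hi, zev, LinearMap.sub_apply, Module.End.one_apply, h.bX i hig] at h2
        apply hY i hig
        have h3 : Y i = -(X i - Y i - X i) := by abel
        rw [h3, h2, neg_zero]
    · intro d _ hd
      rw [map_smul]
      obtain ⟨j, hj | hj⟩ : ∃ j, (d : ℕ) = 2 * j ∨ (d : ℕ) = 2 * j + 1 := ⟨(d : ℕ) / 2, by omega⟩
      · have hjg : j < g := by have := d.2; omega
        have hij : i ≠ j := by
          intro e
          apply hd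
          apply Fin.ext
          rw [hi, hj, e]
        rw [hj, zev, LinearMap.sub_apply, Module.End.one_apply, h.bX' i j hig hjg hij, sub_self,
          smul_zero]
      · have hjg : j < g := by have := d.2; omega
        rw [hj, zod, LinearMap.sub_apply, Module.End.one_apply, h.bY i j hig hjg, sub_self,
          smul_zero]
    · intro hc
      exact absurd (Finset.mem_univ c) hc
  · have hig : i < g := by have := c.2; omega
    have h1 : (ρ (S.T (2 * i) (2 * i + 1)) - 1) (∑ c : Fin (2 * g), l c • zz X Y (c : ℕ)) =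
        (ρ (S.T (2 * i) (2 * i + 1)) - 1) 0 := by
      rw [hl]
    have hLk : Lk g n (2 * i) (2 * i + 1) := Or.inl ⟨i, hig, rfl, rfl⟩
    rw [map_sum, map_zero, Finset.sum_eq_single c] at h1
    · rw [map_smul] at h1
      rcases smul_eq_zero.1 h1 with h2 | h2
      · exact h2
      · exfalso
        rw [hi, zod, LinearMap.sub_apply, Module.End.one_apply, h.aY i hig] at h2
        apply hX i hig
        have h3 : X i = Y i + X i - Y i := by abel
        rw [h3, h2]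
    · intro d _ hd
      rw [map_smul]
      obtain ⟨j, hj | hj⟩ : ∃ j, (d : ℕ) = 2 * j ∨ (d : ℕ) = 2 * j + 1 := ⟨(d : ℕ) / 2, by omega⟩
      · have hjg : j < g := by have := d.2; omega
        rw [hj, zev, LinearMap.sub_apply, Module.End.one_apply, h.tX _ _ j hLk hjg, sub_self,
          smul_zero]
      · have hjg : j < g := by have := d.2; omega
        have hij : i ≠ j := by
          intro e
          apply hd
          apply Fin.ext
          rw [hi, hj, e]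
        rw [hj, zod, LinearMap.sub_apply, Module.End.one_apply,
          h.tY _ _ j hLk hjg (by unfold Cr; omega), sub_self, smul_zero]
    · intro hc
      exact absurd (Finset.mem_univ c) hc
-- END LV10

-- MODULE LV11
/-- The span. PROOF. W = span of all zz X Y c, c < 2g, is stable under the ρ (B i) and the ρ (T s t), Lk (Submodule.span_induction / map_le; on the generators by XY; for T s t and Y j with Cr s t j: Lk s t and Cr s t j mean a_j, or e_j, or e_(j-1), or f_k with j = g-1: aY, eY, eY', fY). W ≠ ⊥ since Y_0 ≠ 0. -/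
theorem xy_span (S : Tw g n G) (hg : 0 < g) (ρ : G →* Module.End ℂ V) (X Y : ℕ → V)
    (h : XY S ρ X Y) (h0 : Y 0 ≠ 0)
    (hirr : ∀ W : Submodule ℂ V, (∀ i, i < g → ∀ w ∈ W, ρ (S.B i) w ∈ W) →
      (∀ s t, Lk g n s t → ∀ w ∈ W, ρ (S.T s t) w ∈ W) → W = ⊥ ∨ W = ⊤) :
    Submodule.span ℂ (Set.range fun c : Fin (2 * g) => zz X Y (c : ℕ)) = ⊤ := by
  obtain ⟨W, hW⟩ : ∃ W, W = Submodule.span ℂ (Set.range fun c : Fin (2 * g) => zz X Y (c : ℕ)) := ⟨_, rfl⟩
  rw [← hW]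
  have zev : ∀ j, zz X Y (2 * j) = X j := fun j => by
    unfold zz
    rw [if_pos (by omega)]
    congr 1
    omega
  have zod : ∀ j, zz X Y (2 * j + 1) = Y j := fun j => by
    unfold zz
    rw [if_neg (by omega)]
    congr 1
    omega
  have hXW : ∀ j, j < g → X j ∈ W := by
    intro j hj
    rw [hW, ← zev]
    exact Submodule.subset_span ⟨⟨2 * j, by omega⟩, rfl⟩
  have hYW : ∀ j, j < g → Y j ∈ W := by
    intro j hj
    rw [hW, ← zod]
    exact Submodule.subset_span ⟨⟨2 * j + 1, by omega⟩, rfl⟩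
  have hst : ∀ φ : Module.End ℂ V, (∀ j, j < g → φ (X j) ∈ W) → (∀ j, j < g → φ (Y j) ∈ W) →
      ∀ w ∈ W, φ w ∈ W := by
    intro φ h1 h2
    have h3 : W ≤ W.comap φ := by
      conv_lhs => rw [hW]
      rw [Submodule.span_le]
      rintro _ ⟨d, rfl⟩
      obtain ⟨j, hj | hj⟩ : ∃ j, (d : ℕ) = 2 * j ∨ (d : ℕ) = 2 * j + 1 := ⟨(d : ℕ) / 2, by omega⟩
      · have hjg : j < g := by have := d.2; omega
        show φ (zz X Y (d : ℕ)) ∈ W
        rw [hj, zev]
        exact h1 j hjg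
      · have hjg : j < g := by have := d.2; omega
        show φ (zz X Y (d : ℕ)) ∈ W
        rw [hj, zod]
        exact h2 j hjg
    exact h3
  have hWW : W = ⊥ ∨ W = ⊤ := by
    refine hirr W ?_ ?_
    · intro i hi
      refine hst _ (fun j hj => ?_) (fun j hj => ?_)
      · by_cases hij : i = j
        · subst hij
          rw [h.bX i hi]
          exact W.sub_mem (hXW i hi) (hYW i hi)
        · rw [h.bX' i j hi hj hij]
          exact hXW j hj
      · rw [h.bY i j hi hj]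
        exact hYW j hj
    · intro s t hL
      refine hst _ (fun j hj => ?_) (fun j hj => ?_)
      · rw [h.tX s t j hL hj]
        exact hXW j hj
      · by_cases hc : Cr s t j
        · unfold Cr at hc
          rcases hL with ⟨i, hi, rfl, rfl⟩ | ⟨i, hi, rfl, rfl⟩ | ⟨k, hk, rfl, rfl⟩
          · have hij : i = j := by omega
            subst hij
            rw [h.aY i hi]
            exact W.add_mem (hYW i hi) (hXW i hi)
          · by_cases hij : i = j
            · subst hij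
              rw [h.eY i hi]
              exact W.sub_mem (W.add_mem (hYW i hj) (hXW i hj)) (hXW _ hi)
            · have hij' : j = i + 1 := by omega
              subst hij'
              rw [h.eY' i hi]
              exact W.sub_mem (W.add_mem (hYW _ hj) (hXW _ hj)) (hXW i (by omega))
          · have hij : j = g - 1 := by omega
            subst hij
            rw [h.fY k hk]
            exact W.add_mem (hYW _ hj) (hXW _ hj)
        · rw [h.tY s t j hL hj hc]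
          exact hYW j hj
  rcases hWW with h1 | h1
  · exfalso
    apply h0
    have h2 := hYW 0 hg
    rw [h1, Submodule.mem_bot] at h2
    exact h2
  · exact h1
-- END LV11

-- MODULE LV12
/-- LEVEL ONE REPRESENTATIONS. PROOF. hfix: if v is fixed by all B i and T s t (Lk) then span {v} is stable, so it is ⊥ (v = 0) or ⊤ (then ρ (T 0 1) = 1, Lk 0 1, contradiction). ρ (B 0) ≠ 1: otherwise the braid relation (TBe, i = 0, s = 0) gives a a = a, a = ρ (T 0 1) invertible, a = 1. Take v with (ρ (B 0) - 1) v ≠ 0 (LinearMap.ext): Y_0 ≠ 0.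
xy_rel, xy_ind, xy_span. -/
theorem level_one_rep (S : Tw g n G) (hS : Rels S) (hg : 4 ≤ g) (ρ : G →* Module.End ℂ V)
    (h02 : (ρ (S.T 0 1) - 1) * (ρ (S.T 4 5) - 1) = 0)
    (hirr : ∀ W : Submodule ℂ V, (∀ i, i < g → ∀ w ∈ W, ρ (S.B i) w ∈ W) →
      (∀ s t, Lk g n s t → ∀ w ∈ W, ρ (S.T s t) w ∈ W) → W = ⊥ ∨ W = ⊤)
    (hne : ρ (S.T 0 1) ≠ 1) :
    ∃ X Y : ℕ → V, XY S ρ X Y ∧
      LinearIndependent ℂ (fun c : Fin (2 * g) => zz X Y (c : ℕ)) ∧
      Submodule.span ℂ (Set.range fun c : Fin (2 * g) => zz X Y (c : ℕ)) = ⊤ := by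
  have hL0 : Lk g n 0 1 := Or.inl ⟨0, by omega, rfl, rfl⟩
  have hfix : ∀ v : V, (∀ i, i < g → ρ (S.B i) v = v) →
      (∀ s t, Lk g n s t → ρ (S.T s t) v = v) → v = 0 := by
    intro v hB hT
    have hW : ∀ φ : Module.End ℂ V, φ v = v → ∀ w ∈ Submodule.span ℂ {v}, φ w ∈ Submodule.span ℂ {v} := by
      intro φ hφ w hw
      obtain ⟨c, rfl⟩ := Submodule.mem_span_singleton.1 hw
      rw [map_smul, hφ]
      exact hw
    rcases hirr (Submodule.span ℂ {v}) (fun i hi => hW _ (hB i hi)) (fun s t h => hW _ (hT s t h))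
      with h1 | h1
    · exact Submodule.span_singleton_eq_bot.1 h1
    · exfalso
      apply hne
      apply LinearMap.ext
      intro w
      have h2 : w ∈ Submodule.span ℂ {v} := by rw [h1]; trivial
      obtain ⟨c, rfl⟩ := Submodule.mem_span_singleton.1 h2
      rw [map_smul, hT 0 1 hL0]
      rfl
  have hB : ρ (S.B 0) - 1 ≠ 0 := by
    intro h1
    apply hne
    have h2 := hS.TBe 0 0 (by omega) (by omega)
    have h3 : ρ (S.T 0 1) * ρ (S.B 0) * ρ (S.T 0 1) = ρ (S.B 0) * ρ (S.T 0 1) * ρ (S.B 0) := by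
      rw [← map_mul, ← map_mul, ← map_mul, ← map_mul]
      exact congrArg ρ h2
    rw [sub_eq_zero.1 h1, mul_one, one_mul, mul_one] at h3
    have h4 : ρ (S.T 0 1)⁻¹ * ρ (S.T 0 1) = 1 := by rw [← map_mul]; simp
    calc ρ (S.T 0 1) = ρ (S.T 0 1)⁻¹ * ρ (S.T 0 1) * ρ (S.T 0 1) := by rw [h4, one_mul]
      _ = ρ (S.T 0 1)⁻¹ * (ρ (S.T 0 1) * ρ (S.T 0 1)) := by rw [mul_assoc]
      _ = ρ (S.T 0 1)⁻¹ * ρ (S.T 0 1) := by rw [h3]
      _ = 1 := h4
  obtain ⟨v, hv⟩ : ∃ v, (ρ (S.B 0) - 1) v ≠ 0 := by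
    by_contra hc
    push Not at hc
    exact hB (LinearMap.ext hc)
  have hXY := xy_rel S hS hg ρ h02 hfix v
  exact ⟨Xv S ρ v, Yv S ρ v, hXY, xy_ind S ρ _ _ hXY hv, xy_span S (by omega) ρ _ _ hXY hv hirr⟩
-- END LV12

end Pool.Agent.QR80
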