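import Pool.Agent.HG13.Conc
import Pool.Agent.QR80.Lvl

set_option linter.all false

namespace Pool.Agent.QR80

open Pool.Agent.HG13

variable {g n : ℕ}

/-- `φ` conjugates the feet other than `2k`, `2k+1` by the words `U c`. -/
def Out (k : ℕ) (φ : MulAut (Fr g n)) (U : ℕ → Fr g n) : Prop :=
  ∀ c, c < 2 * g + n → c ≠ 2 * k → c ≠ 2 * k + 1 → φ (gen c) =
    if c < 2 * g ∧ c % 2 = 1 then U (c - 1) * gen c * (U c)⁻¹ else U c * gen c * (U c)⁻¹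

theorem Out.mul {k : ℕ} {φ ψ : MulAut (Fr g n)} {U U' : ℕ → Fr g n} (h : Out k φ U)
    (h' : Out k ψ U') : Out k (φ * ψ) (fun c => φ (U' c) * U c) := by
  intro c hc h1 h2
  rw [MulAut.mul_apply, h' c hc h1 h2]
  by_cases ho : c < 2 * g ∧ c % 2 = 1
  · have := h c hc h1 h2
    rw [if_pos ho] at this ⊢
    rw [if_pos ho, map_mul, map_mul, map_inv, this]
    group
  · have := h c hc h1 h2
    rw [if_neg ho] at this ⊢
    rw [if_neg ho, map_mul, map_mul, map_inv, this]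
    group

theorem Out_TP (k s t : ℕ) : Out k (TP s t : MulAut (Fr g n)) (ind s t (Alp s t)) := by
  intro c hc h1 h2
  rw [TP_apply]
  by_cases ho : c < 2 * g ∧ c % 2 = 1
  · rw [if_pos ho, cj_gen_odd _ ho.1 ho.2]
  · rw [if_neg ho, cj_gen _ ho]

theorem Out_Bt (k : ℕ) : Out k (Bt k : MulAut (Fr g n)) (fun _ => 1) := by
  intro c hc h1 h2
  rw [Bt_ne _ _ h1]; simp

theorem Out.ext {k : ℕ} {φ ψ : MulAut (Fr g n)} {U U' : ℕ → Fr g n} (h : Out k φ U)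
    (h' : Out k ψ U') (hU : ∀ c, c < 2 * g + n → c ≠ 2 * k → c ≠ 2 * k + 1 → U c = U' c)
    (hx : φ (gen (2 * k)) = ψ (gen (2 * k))) (hy : φ (gen (2 * k + 1)) = ψ (gen (2 * k + 1))) :
    φ = ψ := by
  apply aut_ext
  intro c hc
  by_cases h1 : c = 2 * k
  · rw [h1, hx]
  by_cases h2 : c = 2 * k + 1
  · rw [h2, hy]
  rw [h c hc h1 h2, h' c hc h1 h2, hU c hc h1 h2]
  by_cases ho : c < 2 * g ∧ c % 2 = 1
  · rw [if_pos ho, if_pos ho, hU (c - 1) (by omega) (by omega) (by omega)]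
  · rw [if_neg ho, if_neg ho]

theorem TP_self (s : ℕ) : (TP s s : MulAut (Fr g n)) = 1 := by
  apply aut_ext
  intro c hc
  rw [TP_apply, cj_congr _ (fun _ => 1), cj_one]
  · rfl
  · intro c' _
    simp only [ind]
    rw [if_neg (by omega)]

-- MODULE ST1
/-- The twist around one puncture is trivial. PROOF. aut_ext; TP_apply, cj_gen, cj_gen_odd: u = 1 except at the foot 2g+k, where z ↦ z z z⁻¹ = z (Alp_one, alp_even). -/
theorem TP_punct (k : ℕ) (hk : k < n) :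
    (TP (2 * g + k) (2 * g + k + 1) : MulAut (Fr g n)) = 1 := by
  apply aut_ext
  intro c hc
  rw [TP_apply, Alp_one, alp_even _ (by omega)]
  by_cases ho : c < 2 * g ∧ c % 2 = 1
  · rw [cj_gen_odd _ ho.1 ho.2]
    simp only [ind]
    rw [if_neg (by omega), if_neg (by omega), one_mul, inv_one, mul_one]
    rfl
  · rw [cj_gen _ ho]
    simp only [ind]
    by_cases h : 2 * g + k ≤ c ∧ c < 2 * g + k + 1
    · have h1 : c = 2 * g + k := by omega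
      rw [if_pos h, h1, mul_inv_cancel_right]
      rfl
    · rw [if_neg h, one_mul, inv_one, mul_one]
      rfl
-- END ST1

-- MODULE ST2
/-- The function with value `a` on the first and `b` on the second interval. -/
private def ST2_blk (s t s' t' : ℕ) (a b : Fr g n) : ℕ → Fr g n := fun c =>
  if s ≤ c ∧ c < t then a else if s' ≤ c ∧ c < t' then b else 1

private theorem ST2_congr {k : ℕ} {φ : MulAut (Fr g n)} {U U' : ℕ → Fr g n} (h : Out k φ U)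
    (hU : ∀ c, c < 2 * g + n → c ≠ 2 * k → c ≠ 2 * k + 1 → U c = U' c) : Out k φ U' := by
  intro c hc h1 h2
  rw [h c hc h1 h2, hU c hc h1 h2]
  by_cases ho : c < 2 * g ∧ c % 2 = 1
  · rw [if_pos ho, if_pos ho, hU (c - 1) (by omega) (by omega) (by omega)]
  · rw [if_neg ho, if_neg ho]

private theorem ST2_mul {k : ℕ} {φ ψ : MulAut (Fr g n)} {s t s' t' : ℕ} {a b a' b' : Fr g n}
    (h : Out k φ (ST2_blk s t s' t' a b)) (h' : Out k ψ (ST2_blk s t s' t' a' b')) {a'' b'' : Fr g n}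
    (ha : φ a' * a = a'') (hb : φ b' * b = b'') :
    Out k (φ * ψ) (ST2_blk s t s' t' a'' b'') := by
  refine ST2_congr (h.mul h') ?_
  intro c _ _ _
  simp only [ST2_blk]
  split_ifs
  · exact ha
  · exact hb
  · rw [map_one, one_mul]

private theorem ST2_fix (s t s' t' : ℕ) (h1 : s ≤ t) (h2 : s' ≤ t')
    (h : t' ≤ s ∨ t ≤ s' ∨ (s' ≤ s ∧ t ≤ t')) : TP s t (Alp s' t' : Fr g n) = Alp s' t' := by
  rcases h1.eq_or_lt with rfl | h1
  · rw [TP_self]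
    rfl
  rcases h2.eq_or_lt with rfl | h2
  · rw [Alp_self, map_one]
  exact (TP_Alp s t s' t' h1 h2).1 (by omega)

private theorem ST2_in (s t s' t' : ℕ) (h1 : s < t) (h2 : s' ≤ t') (h3 : s ≤ s') (h4 : t' ≤ t) :
    TP s t (Alp s' t' : Fr g n) = Alp s t * Alp s' t' * (Alp s t)⁻¹ := by
  rcases h2.eq_or_lt with rfl | h2
  · rw [Alp_self, map_one, mul_one, mul_inv_cancel]
  exact (TP_Alp s t s' t' h1 h2).2 ⟨h3, h4⟩

private theorem ST2_x (s t k : ℕ) : TP s t (gen (2 * k) : Fr g n) =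
    ind s t (Alp s t) (2 * k) * gen (2 * k) * (ind s t (Alp s t) (2 * k))⁻¹ := by
  rw [TP_apply, cj_gen _ (by omega)]

private theorem ST2_y (s t k : ℕ) (hk : k < g) : TP s t (gen (2 * k + 1) : Fr g n) =
    ind s t (Alp s t) (2 * k) * gen (2 * k + 1) * (ind s t (Alp s t) (2 * k + 1))⁻¹ := by
  rw [TP_apply, cj_gen_odd _ (by omega) (by omega)]
  rfl

private theorem ST2_ind_pos (s t c : ℕ) (w : Fr g n) (h : s ≤ c ∧ c < t) : ind s t w c = w := by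
  unfold ind
  rw [if_pos h]

private theorem ST2_ind_neg (s t c : ℕ) (w : Fr g n) (h : ¬ (s ≤ c ∧ c < t)) :
    ind s t w c = 1 := by
  unfold ind
  rw [if_neg h]

private theorem ST2_Bfix (k : ℕ) (hk : k < g) (s t : ℕ) (h : s ≤ t) (h' : 2 * k + 2 ≤ s ∨ t ≤ 2 * k) :
    Bt k (Alp s t : Fr g n) = Alp s t := by
  rcases h.eq_or_lt with rfl | h
  · rw [Alp_self, map_one]
  exact (Bt_Alp k hk s t h).1 (by omega)

private theorem ST2_alg {G : Type*} [Group G] (A E C B : MulAut G) (p x y q : G)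
    (hAp : A p = p * x * p * (p * x)⁻¹) (hAx : A x = p * x * x * (p * x)⁻¹)
    (hAy : A y = p * x * y) (hAq : A q = q)
    (hEp : E p = p) (hEx : E x = x) (hEy : E y = x * y) (hEq : E q = q)
    (hCp : C p = p) (hCx : C x = x) (hCy : C y = y * (y⁻¹ * x⁻¹ * y * q)⁻¹)
    (hCq : C q = (y⁻¹ * x⁻¹ * y * q) * q * (y⁻¹ * x⁻¹ * y * q)⁻¹)
    (hBp : B p = p) (hBx : B x = x * y⁻¹) (hBy : B y = y) (hBq : B q = q)
    (Φ : MulAut G) (hΦ : Φ = A * E * C * B) :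
    Φ (Φ (Φ x)) = (p * x * (y⁻¹ * x⁻¹ * y * q)) * x * (p * x * (y⁻¹ * x⁻¹ * y * q))⁻¹ ∧
    Φ (Φ (Φ y)) = (p * x * (y⁻¹ * x⁻¹ * y * q)) * y * (p * x * (y⁻¹ * x⁻¹ * y * q))⁻¹ ∧
    Φ (Φ (p * x)) * (Φ (p * x) * (p * x)) = (p * x * (y⁻¹ * x⁻¹ * y * q)) * p ∧
    Φ (Φ (y⁻¹ * x⁻¹ * y * q)) * (Φ (y⁻¹ * x⁻¹ * y * q) * (y⁻¹ * x⁻¹ * y * q)) =
      (p * x * (y⁻¹ * x⁻¹ * y * q)) * q ∧
    A (E (y⁻¹ * x⁻¹ * y * q)) = y⁻¹ * x⁻¹ * y * q := by
  have h5 : A (E (y⁻¹ * x⁻¹ * y * q)) = y⁻¹ * x⁻¹ * y * q := by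
    simp only [map_mul, map_inv, hAp, hAx, hAy, hAq, hEp, hEx, hEy, hEq]
    simp [mul_assoc]
  have hp : Φ p = p * x * p * (p * x)⁻¹ := by
    rw [hΦ]
    simp only [MulAut.mul_apply, map_mul, map_inv, hAp, hAx, hAy, hAq, hEp, hEx, hEy, hEq, hCp,
      hCx, hCy, hCq, hBp, hBx, hBy, hBq]
  have hq : Φ q = y⁻¹ * x⁻¹ * y * q * (y⁻¹ * x⁻¹ * y)⁻¹ := by
    rw [hΦ]
    simp only [MulAut.mul_apply, map_mul, map_inv, hAp, hAx, hAy, hAq, hEp, hEx, hEy, hEq, hCp,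
      hCx, hCy, hCq, hBp, hBx, hBy, hBq]
    simp [mul_assoc]
  have hx : Φ x = p * x * x * (p * x)⁻¹ * (y⁻¹ * x⁻¹ * y * q) * (x * y)⁻¹ * (p * x)⁻¹ := by
    rw [hΦ]
    simp only [MulAut.mul_apply, map_mul, map_inv, hAp, hAx, hAy, hAq, hEp, hEx, hEy, hEq, hCp,
      hCx, hCy, hCq, hBp, hBx, hBy, hBq]
    simp [mul_assoc]
  have hy : Φ y = p * x * x * y * (y⁻¹ * x⁻¹ * y * q)⁻¹ := by
    rw [hΦ]
    simp only [MulAut.mul_apply, map_mul, map_inv, hAp, hAx, hAy, hAq, hEp, hEx, hEy, hEq, hCp,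
      hCx, hCy, hCq, hBp, hBx, hBy, hBq]
    simp [mul_assoc]
  -- first iterates
  have hd : Φ (p * x) = p * x * (y⁻¹ * x⁻¹ * y * q) * (x * y)⁻¹ * (p * x)⁻¹ := by
    rw [map_mul, hp, hx]
    simp [mul_assoc]
  have hh : Φ (x * y) = p * x * x * (p * x)⁻¹ := by
    rw [map_mul, hx, hy]
    simp [mul_assoc]
  have he : Φ (y⁻¹ * x⁻¹ * y * q) = p * x * (x * y) := by
    rw [map_mul, map_mul, map_mul, map_inv, map_inv, hq, hx, hy]
    simp [mul_assoc]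
  have hr : Φ (p * x * (y⁻¹ * x⁻¹ * y * q)) = p * x * (y⁻¹ * x⁻¹ * y * q) := by
    rw [map_mul Φ (p * x), hd, he]
    simp [mul_assoc]
  -- second iterates
  have hee : Φ (Φ (y⁻¹ * x⁻¹ * y * q)) = p * x * (y⁻¹ * x⁻¹ * y * q) * y⁻¹ * (p * x)⁻¹ := by
    rw [he, map_mul Φ (p * x), hd, hh]
    simp [mul_assoc]
  have hdd : Φ (Φ (p * x)) = p * x * (y⁻¹ * x⁻¹ * y * q) * (p * x) * y *
      (p * x * (y⁻¹ * x⁻¹ * y * q))⁻¹ := by
    rw [hd, map_mul, map_mul, map_inv, map_inv, hr, hh, hd]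
    simp [mul_assoc]
  have heee : Φ (Φ (Φ (y⁻¹ * x⁻¹ * y * q))) = p * x * (y⁻¹ * x⁻¹ * y * q) *
      (y⁻¹ * x⁻¹ * y * q) * (p * x * (y⁻¹ * x⁻¹ * y * q))⁻¹ := by
    rw [hee, map_mul, map_mul, map_inv, map_inv, hr, hd, hy]
    simp [mul_assoc]
  have hddd : Φ (Φ (Φ (p * x))) = p * x * (y⁻¹ * x⁻¹ * y * q) *
      (p * x) * (p * x * (y⁻¹ * x⁻¹ * y * q))⁻¹ := by
    rw [hdd, map_mul, map_mul, map_mul, map_inv, hr, hd, hy]
    simp [mul_assoc]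
  have hyy : Φ (Φ (Φ y)) = Φ (Φ (Φ (y⁻¹ * x⁻¹ * y * q))) * (Φ (Φ (y⁻¹ * x⁻¹ * y * q)))⁻¹ := by
    have h1 : Φ y = Φ (y⁻¹ * x⁻¹ * y * q) * (y⁻¹ * x⁻¹ * y * q)⁻¹ := by
      rw [hy, he]
      simp [mul_assoc]
    rw [h1, map_mul, map_inv, map_mul, map_inv]
  have hyyy : Φ (Φ (Φ y)) = (p * x * (y⁻¹ * x⁻¹ * y * q)) * y *
      (p * x * (y⁻¹ * x⁻¹ * y * q))⁻¹ := by
    rw [hyy, heee, hee]
    simp [mul_assoc]
  have hpp : Φ (Φ (Φ p)) = p * x * (y⁻¹ * x⁻¹ * y * q) * p *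
      (p * x * (y⁻¹ * x⁻¹ * y * q))⁻¹ := by
    have h1 : Φ p = (p * x) * p * (p * x)⁻¹ := hp
    have h2 : Φ (Φ p) = Φ (p * x) * (p * x) * p * (p * x)⁻¹ * (Φ (p * x))⁻¹ := by
      rw [h1, map_mul, map_mul, map_inv, h1]
      simp [mul_assoc]
    rw [h2]
    simp only [map_mul Φ (Φ (p * x) * (p * x) * p * (p * x)⁻¹),
      map_mul Φ (Φ (p * x) * (p * x) * p),
      map_mul Φ (Φ (p * x) * (p * x)) p, map_mul Φ (Φ (p * x)), map_inv]
    rw [hdd, hd, hp]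
    simp [mul_assoc]
  have hxxx : Φ (Φ (Φ x)) = p * x * (y⁻¹ * x⁻¹ * y * q) * x *
      (p * x * (y⁻¹ * x⁻¹ * y * q))⁻¹ := by
    have h1 : x = p⁻¹ * (p * x) := by simp
    have h2 : Φ (Φ (Φ x)) = (Φ (Φ (Φ p)))⁻¹ * Φ (Φ (Φ (p * x))) := by
      rw [← map_inv, ← map_inv, ← map_inv, ← map_mul, ← map_mul, ← map_mul, ← h1]
    rw [h2, hpp, hddd]
    simp [mul_assoc]
  refine ⟨hxxx, hyyy, ?_, ?_, h5⟩
  · rw [hdd, hd]
    simp [mul_assoc]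
  · rw [hee, he]
    simp [mul_assoc]

/-- THE STAR RELATION, first form.
PROOF. Write x = gen (2k), y = gen (2k+1), x' = alp (2k+1) = y⁻¹ x⁻¹ y, p = Alp s (2k), q = Alp (2k+2) w, d = p x = Alp s (2k+1), e = x' q = Alp (2k+1) w, h = x y, r = d e = Alp s w; Φ = A E C B with A = TP s (2k+1), E = TP (2k) (2k+1), C = TP (2k+1) w, B = Bt k. (p = 1 if s = 2k, q = 1 if w = 2k+2.)
A: p ↦ d p d⁻¹, x ↦ d x d⁻¹, y ↦ d y, q ↦ q (so x' ↦ x', e ↦ e). E: p, x, q, x', e fixed, y ↦ x y = h. C: p, x fixed, y ↦ y e⁻¹, q ↦ e q e⁻¹, e ↦ e. B: x ↦ x y⁻¹, p, q, y fixed. (TP_Alp, Bt_Alp, cj_gen, cj_gen_odd.) Hence Φ p = d p d⁻¹, Φ q = x' q x'⁻¹, Φ x = d x d⁻¹ e h⁻¹ d⁻¹, Φ y = d h e⁻¹.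
So (group computations): Φ d = r h⁻¹ d⁻¹; Φ x' = d y e⁻¹; Φ e = d h; Φ r = r; Φ h = d x d⁻¹; Φ² e = r y⁻¹ d⁻¹; Φ² d = r d y r⁻¹; Φ³ e = r e r⁻¹; Φ³ d = r d r⁻¹; Φ³ y = Φ³ e (Φ² e)⁻¹ = r y r⁻¹ (y-formula: Φ y = Φ e * e⁻¹); Φ³ p = r p r⁻¹ (Φ³ p = (Φ² d Φ d d) p (Φ² d Φ d d)⁻¹ and
Φ² d Φ d d = r p); Φ³ x = r x r⁻¹ (x = p⁻¹ d). Out k Φ U with U = d on [s,2k), e on [2k+2,w), 1 elsewhere (Out.mul three times: C e = e, E e = e, A e = e). Out k Φ³ U3, U3 = Φ² U Φ U U: on [s,2k): r p; on [2k+2,w): Φ² e Φ e e = r y⁻¹ h e = r q; 1 elsewhere.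
Right side R: Out k with r p on [s,2k), r q on [2k+2,w), 1 elsewhere (Out.mul; TP s (2k) and TP (2k+2) w fix r (nested), and p resp. q (disjoint or own loop)), R x = r x r⁻¹, R y = r y r⁻¹. Out.ext. -/
theorem star1 (k s w : ℕ) (hk : k < g) (hs : s ≤ 2 * k) (hw : 2 * k + 2 ≤ w)
    (hw' : w ≤ 2 * g + n) :
    ((TP s (2 * k + 1) * TP (2 * k) (2 * k + 1) * TP (2 * k + 1) w * Bt k : MulAut (Fr g n))) ^ 3 =
      TP s (2 * k) * TP (2 * k + 2) w * TP s w := by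
  obtain ⟨x, hx⟩ : ∃ x : Fr g n, x = gen (2 * k) := ⟨_, rfl⟩
  obtain ⟨y, hy⟩ : ∃ y : Fr g n, y = gen (2 * k + 1) := ⟨_, rfl⟩
  obtain ⟨p, hp⟩ : ∃ p : Fr g n, p = Alp s (2 * k) := ⟨_, rfl⟩
  obtain ⟨q, hq⟩ : ∃ q : Fr g n, q = Alp (2 * k + 2) w := ⟨_, rfl⟩
  have hx' : (Alp (2 * k) (2 * k + 1) : Fr g n) = x := by
    rw [Alp_one, alp_even _ (by omega), hx]
  have hd : (Alp s (2 * k + 1) : Fr g n) = p * x := by
    rw [Alp_snoc s (2 * k) hs, ← hp, alp_even _ (by omega), hx]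
  have he : (Alp (2 * k + 1) w : Fr g n) = y⁻¹ * x⁻¹ * y * q := by
    rw [Alp_cons (2 * k + 1) w (by omega), alp_odd k hk, ← hx, ← hy, hq]
  have hr : (Alp s w : Fr g n) = p * x * (y⁻¹ * x⁻¹ * y * q) := by
    rw [Alp_split s (2 * k + 1) w (by omega) (by omega), hd, he]
  obtain ⟨A, hA⟩ : ∃ A : MulAut (Fr g n), A = TP s (2 * k + 1) := ⟨_, rfl⟩
  obtain ⟨E, hE⟩ : ∃ A : MulAut (Fr g n), A = TP (2 * k) (2 * k + 1) := ⟨_, rfl⟩
  obtain ⟨C, hC⟩ : ∃ A : MulAut (Fr g n), A = TP (2 * k + 1) w := ⟨_, rfl⟩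
  obtain ⟨B, hB⟩ : ∃ A : MulAut (Fr g n), A = Bt k := ⟨_, rfl⟩
  obtain ⟨Φ, hΦ⟩ : ∃ Φ : MulAut (Fr g n), Φ = A * E * C * B := ⟨_, rfl⟩
  obtain ⟨h1, h2, h3, h4, h5⟩ := ST2_alg A E C B p x y q
    (by rw [hA, hp, ST2_in s (2 * k + 1) s (2 * k) (by omega) hs (le_refl _) (by omega), hd, ← hp])
    (by rw [hA, hx, ST2_x, ST2_ind_pos _ _ _ _ (by omega), hd, hx])
    (by rw [hA, hy, ST2_y _ _ _ hk, ST2_ind_pos _ _ _ _ (by omega),
      ST2_ind_neg _ _ _ _ (by omega), hd, inv_one, mul_one])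
    (by rw [hA, hq, ST2_fix _ _ _ _ (by omega) (by omega) (by omega)])
    (by rw [hE, hp, ST2_fix _ _ _ _ (by omega) (by omega) (by omega)])
    (by rw [hE, hx, ST2_x, ST2_ind_pos _ _ _ _ (by omega), hx', hx, mul_inv_cancel_right])
    (by rw [hE, hy, ST2_y _ _ _ hk, ST2_ind_pos _ _ _ _ (by omega),
      ST2_ind_neg _ _ _ _ (by omega), hx', inv_one, mul_one])
    (by rw [hE, hq, ST2_fix _ _ _ _ (by omega) (by omega) (by omega)])
    (by rw [hC, hp, ST2_fix _ _ _ _ (by omega) (by omega) (by omega)])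
    (by rw [hC, hx, ST2_x, ST2_ind_neg _ _ _ _ (by omega), one_mul, inv_one, mul_one])
    (by rw [hC, hy, ST2_y _ _ _ hk, ST2_ind_neg _ _ _ _ (by omega),
      ST2_ind_pos _ _ _ _ (by omega), he, one_mul, hy])
    (by rw [hC, hq, ST2_in _ _ _ _ (by omega) (by omega) (by omega) (by omega), he, hq])
    (by rw [hB, hp, ST2_Bfix k hk _ _ (by omega) (by omega)])
    (by rw [hB, hx, Bt_x k hk, hy])
    (by rw [hB, hy, Bt_ne _ _ (by omega)])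
    (by rw [hB, hq, ST2_Bfix k hk _ _ (by omega) (by omega)])
    Φ hΦ
  obtain ⟨r, hrr⟩ : ∃ r, r = p * x * (y⁻¹ * x⁻¹ * y * q) := ⟨_, rfl⟩
  obtain ⟨e, hee⟩ : ∃ e, e = y⁻¹ * x⁻¹ * y * q := ⟨_, rfl⟩
  obtain ⟨d, hdd⟩ : ∃ d, d = p * x := ⟨_, rfl⟩
  rw [← hrr] at h1 h2 h3 h4 hr
  rw [← hee] at h4 h5 he
  rw [← hdd] at h3 hd
  -- the blocks of the left side
  have bA : Out k A (ST2_blk s (2 * k) (2 * k + 2) w d 1) := by
    rw [hA]
    refine ST2_congr (Out_TP k s (2 * k + 1)) fun c _ _ _ => ?_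
    simp only [ind, ST2_blk, hd]
    by_cases h : s ≤ c ∧ c < 2 * k
    · rw [if_pos h, if_pos (by omega)]
    · rw [if_neg h, if_neg (by omega), ite_self]
  have bE : Out k E (ST2_blk s (2 * k) (2 * k + 2) w 1 1) := by
    rw [hE]
    refine ST2_congr (Out_TP k (2 * k) (2 * k + 1)) fun c _ _ _ => ?_
    simp only [ind, ST2_blk, ite_self]
    rw [if_neg (by omega)]
  have bC : Out k C (ST2_blk s (2 * k) (2 * k + 2) w 1 e) := by
    rw [hC]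
    refine ST2_congr (Out_TP k (2 * k + 1) w) fun c _ _ _ => ?_
    simp only [ind, ST2_blk, he]
    by_cases h : s ≤ c ∧ c < 2 * k
    · rw [if_pos h, if_neg (by omega)]
    · rw [if_neg h]
      by_cases h' : 2 * k + 2 ≤ c ∧ c < w
      · rw [if_pos h', if_pos (by omega)]
      · rw [if_neg h', if_neg (by omega)]
  have bB : Out k B (ST2_blk s (2 * k) (2 * k + 2) w 1 1) := by
    rw [hB]
    refine ST2_congr (Out_Bt k) fun c _ _ _ => ?_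
    simp only [ST2_blk, ite_self]
  have bΦ : Out k Φ (ST2_blk s (2 * k) (2 * k + 2) w d e) := by
    rw [hΦ]
    refine ST2_mul (a := d) (b := e) (ST2_mul (a := d) (b := 1) (ST2_mul bA bE
      (by rw [map_one, one_mul]) (by rw [map_one, one_mul])) bC
      (by rw [map_one, one_mul]) ?_) bB (by rw [map_one, one_mul]) (by rw [map_one, one_mul])
    rw [mul_one]
    exact h5
  have b3 : Out k (Φ * Φ * Φ) (ST2_blk s (2 * k) (2 * k + 2) w (r * p) (r * q)) := by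
    refine ST2_mul (ST2_mul bΦ bΦ rfl rfl) bΦ ?_ ?_
    · rw [← h3]
      rfl
    · rw [← h4]
      rfl
  -- the right side
  have cP : Out k (TP s (2 * k)) (ST2_blk s (2 * k) (2 * k + 2) w p 1) := by
    refine ST2_congr (Out_TP k s (2 * k)) fun c _ _ _ => ?_
    simp only [ind, ST2_blk, ← hp, ite_self]
  have cQ : Out k (TP (2 * k + 2) w) (ST2_blk s (2 * k) (2 * k + 2) w 1 q) := by
    refine ST2_congr (Out_TP k (2 * k + 2) w) fun c _ _ _ => ?_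
    simp only [ind, ST2_blk, ← hq]
    by_cases h : s ≤ c ∧ c < 2 * k
    · rw [if_pos h, if_neg (by omega)]
    · rw [if_neg h]
  have cR : Out k (TP s w) (ST2_blk s (2 * k) (2 * k + 2) w r r) := by
    refine ST2_congr (Out_TP k s w) fun c _ _ _ => ?_
    simp only [ind, ST2_blk, hr]
    by_cases h : s ≤ c ∧ c < 2 * k
    · rw [if_pos h, if_pos (by omega)]
    · rw [if_neg h]
      by_cases h' : 2 * k + 2 ≤ c ∧ c < w
      · rw [if_pos h', if_pos (by omega)]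
      · rw [if_neg h', if_neg (by omega)]
  have fr : (TP s (2 * k) * TP (2 * k + 2) w : MulAut (Fr g n)) r = r := by
    rw [MulAut.mul_apply, ← hr, ST2_fix _ _ _ _ (by omega) (by omega) (by omega),
      ST2_fix _ _ _ _ (by omega) (by omega) (by omega)]
  have fx : (TP s (2 * k) * TP (2 * k + 2) w : MulAut (Fr g n)) x = x := by
    rw [MulAut.mul_apply, hx, ST2_x, ST2_ind_neg _ _ _ _ (by omega), one_mul, inv_one, mul_one,
      ST2_x, ST2_ind_neg _ _ _ _ (by omega), one_mul, inv_one, mul_one]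
  have fy : (TP s (2 * k) * TP (2 * k + 2) w : MulAut (Fr g n)) y = y := by
    rw [MulAut.mul_apply, hy, ST2_y _ _ _ hk, ST2_ind_neg _ _ _ _ (by omega),
      ST2_ind_neg _ _ _ _ (by omega), one_mul, inv_one, mul_one,
      ST2_y _ _ _ hk, ST2_ind_neg _ _ _ _ (by omega), ST2_ind_neg _ _ _ _ (by omega), one_mul,
      inv_one, mul_one]
  have c3 : Out k (TP s (2 * k) * TP (2 * k + 2) w * TP s w)
      (ST2_blk s (2 * k) (2 * k + 2) w (r * p) (r * q)) := by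
    refine ST2_mul (a := p) (b := q) (ST2_mul cP cQ (by rw [map_one, one_mul]) ?_) cR (by rw [fr])
      (by rw [fr])
    rw [mul_one, hq]
    exact ST2_fix _ _ _ _ (by omega) (by omega) (by omega)
  rw [← hA, ← hE, ← hC, ← hB, ← hΦ, pow_succ, pow_two]
  refine Out.ext b3 c3 (fun _ _ _ _ => rfl) ?_ ?_
  · rw [← hx]
    change Φ (Φ (Φ x)) = (TP s (2 * k) * TP (2 * k + 2) w : MulAut (Fr g n)) (TP s w x)
    have h6 : TP s w x = r * x * r⁻¹ := by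
      rw [hx, ST2_x, ST2_ind_pos _ _ _ _ (by omega), hr]
    rw [h1, h6, map_mul, map_mul, map_inv, fr, fx]
  · rw [← hy]
    change Φ (Φ (Φ y)) = (TP s (2 * k) * TP (2 * k + 2) w : MulAut (Fr g n)) (TP s w y)
    have h6 : TP s w y = r * y * r⁻¹ := by
      rw [hy, ST2_y _ _ _ hk, ST2_ind_pos _ _ _ _ (by omega), ST2_ind_pos _ _ _ _ (by omega), hr]
    rw [h2, h6, map_mul, map_mul, map_inv, fr, fy]
-- END ST2

-- MODULE ST3
private theorem ST3_alg {G : Type*} [Group G] (E C D B : MulAut G) (x y a b : G)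
    (hEx : E x = x) (hEy : E y = x * y) (hEa : E a = a) (hEb : E b = b)
    (hCx : C x = x) (hCy : C y = y * (y⁻¹ * x⁻¹ * y * a)⁻¹)
    (hCa : C a = (y⁻¹ * x⁻¹ * y * a) * a * (y⁻¹ * x⁻¹ * y * a)⁻¹) (hCb : C b = b)
    (hDx : D x = x) (hDy : D y = y * (y⁻¹ * x⁻¹ * y * a * b)⁻¹)
    (hDa : D a = (y⁻¹ * x⁻¹ * y * a * b) * a * (y⁻¹ * x⁻¹ * y * a * b)⁻¹)
    (hDb : D b = (y⁻¹ * x⁻¹ * y * a * b) * b * (y⁻¹ * x⁻¹ * y * a * b)⁻¹)
    (hBx : B x = x * y⁻¹) (hBy : B y = y) (hBa : B a = a) (hBb : B b = b)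
    (Φ : MulAut G) (hΦ : Φ = E * C * D * B) :
    Φ (Φ (Φ x)) = (x * (y⁻¹ * x⁻¹ * y * a * b)) * x * (x * (y⁻¹ * x⁻¹ * y * a * b))⁻¹ ∧
    Φ (Φ (Φ y)) = (x * (y⁻¹ * x⁻¹ * y * a * b)) * y * (x * (y⁻¹ * x⁻¹ * y * a * b))⁻¹ ∧
    Φ (Φ ((y⁻¹ * x⁻¹ * y * a * b) * (y⁻¹ * x⁻¹ * y * a))) *
      (Φ ((y⁻¹ * x⁻¹ * y * a * b) * (y⁻¹ * x⁻¹ * y * a)) *
        ((y⁻¹ * x⁻¹ * y * a * b) * (y⁻¹ * x⁻¹ * y * a))) =
      (x * (y⁻¹ * x⁻¹ * y * a * b)) * a ∧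
    Φ (Φ (y⁻¹ * x⁻¹ * y * a * b)) * (Φ (y⁻¹ * x⁻¹ * y * a * b) * (y⁻¹ * x⁻¹ * y * a * b)) =
      (x * (y⁻¹ * x⁻¹ * y * a * b)) * b ∧
    E (y⁻¹ * x⁻¹ * y * a) = y⁻¹ * x⁻¹ * y * a ∧
    E (C (y⁻¹ * x⁻¹ * y * a * b)) = y⁻¹ * x⁻¹ * y * a * b := by
  have h5 : E (y⁻¹ * x⁻¹ * y * a) = y⁻¹ * x⁻¹ * y * a := by
    simp only [map_mul, map_inv, hEx, hEy, hEa, hEb]
    simp [mul_assoc]
  have h6 : E (C (y⁻¹ * x⁻¹ * y * a * b)) = y⁻¹ * x⁻¹ * y * a * b := by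
    simp only [map_mul, map_inv, hEx, hEy, hEa, hEb, hCx, hCy, hCa, hCb]
    simp [mul_assoc]
  have ha : Φ a = (y⁻¹ * x⁻¹ * y * a * b) * (y⁻¹ * x⁻¹ * y * a) * a * (y⁻¹ * x⁻¹ * y * a)⁻¹ *
      (y⁻¹ * x⁻¹ * y * a * b)⁻¹ := by
    rw [hΦ]
    simp only [MulAut.mul_apply, map_mul, map_inv, hEx, hEy, hEa, hEb, hCx, hCy, hCa, hCb, hDx,
      hDy, hDa, hDb, hBx, hBy, hBa, hBb]
    simp [mul_assoc]
  have hb : Φ b = (y⁻¹ * x⁻¹ * y * a * b) * b * (y⁻¹ * x⁻¹ * y * a * b)⁻¹ := by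
    rw [hΦ]
    simp only [MulAut.mul_apply, map_mul, map_inv, hEx, hEy, hEa, hEb, hCx, hCy, hCa, hCb, hDx,
      hDy, hDa, hDb, hBx, hBy, hBa, hBb]
    simp [mul_assoc]
  have hx : Φ x = (x * (y⁻¹ * x⁻¹ * y * a * b)) * (y⁻¹ * x⁻¹ * y * a) * (x * y)⁻¹ := by
    rw [hΦ]
    simp only [MulAut.mul_apply, map_mul, map_inv, hEx, hEy, hEa, hEb, hCx, hCy, hCa, hCb, hDx,
      hDy, hDa, hDb, hBx, hBy, hBa, hBb]
    simp [mul_assoc]
  have hy : Φ y = x * y * (y⁻¹ * x⁻¹ * y * a)⁻¹ * (y⁻¹ * x⁻¹ * y * a * b)⁻¹ := by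
    rw [hΦ]
    simp only [MulAut.mul_apply, map_mul, map_inv, hEx, hEy, hEa, hEb, hCx, hCy, hCa, hCb, hDx,
      hDy, hDa, hDb, hBx, hBy, hBa, hBb]
    simp [mul_assoc]
  have hh : Φ (x * y) = x := by
    rw [map_mul, hx, hy]
    simp [mul_assoc]
  have he : Φ (y⁻¹ * x⁻¹ * y * a) = x * y * (y⁻¹ * x⁻¹ * y * a * b)⁻¹ := by
    simp only [map_mul, map_inv, ha, hx, hy]
    simp [mul_assoc]
  have hd : Φ (y⁻¹ * x⁻¹ * y * a * b) = x * y * (y⁻¹ * x⁻¹ * y * a)⁻¹ := by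
    rw [map_mul Φ (y⁻¹ * x⁻¹ * y * a), he, hb]
    simp [mul_assoc]
  have hr : Φ (x * (y⁻¹ * x⁻¹ * y * a * b)) = x * (y⁻¹ * x⁻¹ * y * a * b) := by
    rw [map_mul Φ x, hd, hx]
    simp [mul_assoc]
  have hdd : Φ (Φ (y⁻¹ * x⁻¹ * y * a * b)) = (x * (y⁻¹ * x⁻¹ * y * a * b)) * (x * y)⁻¹ := by
    rw [hd, map_mul Φ (x * y), map_inv, hh, he]
    simp [mul_assoc]
  have hee : Φ (Φ (y⁻¹ * x⁻¹ * y * a)) = x * (y⁻¹ * x⁻¹ * y * a) * (x * y)⁻¹ := by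
    rw [he, map_mul Φ (x * y), map_inv, hh, hd]
    simp [mul_assoc]
  have hddd : Φ (Φ (Φ (y⁻¹ * x⁻¹ * y * a * b))) = (x * (y⁻¹ * x⁻¹ * y * a * b)) *
      (y⁻¹ * x⁻¹ * y * a * b) * (x * (y⁻¹ * x⁻¹ * y * a * b))⁻¹ := by
    rw [hdd, map_mul Φ (x * (y⁻¹ * x⁻¹ * y * a * b)), map_inv, hh, hr]
    simp [mul_assoc]
  have hrrr : Φ (Φ (Φ (x * (y⁻¹ * x⁻¹ * y * a * b)))) = x * (y⁻¹ * x⁻¹ * y * a * b) := by
    rw [hr, hr, hr]
  have hxxx : Φ (Φ (Φ x)) = (x * (y⁻¹ * x⁻¹ * y * a * b)) * x *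
      (x * (y⁻¹ * x⁻¹ * y * a * b))⁻¹ := by
    have h1 : x = (x * (y⁻¹ * x⁻¹ * y * a * b)) * (y⁻¹ * x⁻¹ * y * a * b)⁻¹ := by
      simp [mul_assoc]
    have h2 : Φ (Φ (Φ x)) = Φ (Φ (Φ (x * (y⁻¹ * x⁻¹ * y * a * b)))) *
        (Φ (Φ (Φ (y⁻¹ * x⁻¹ * y * a * b))))⁻¹ := by
      rw [← map_inv, ← map_inv, ← map_inv, ← map_mul, ← map_mul, ← map_mul, ← h1]
    rw [h2, hrrr, hddd]
    simp [mul_assoc]
  have hhhh : Φ (Φ (Φ (x * y))) = (x * (y⁻¹ * x⁻¹ * y * a * b)) * (x * y) *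
      (x * (y⁻¹ * x⁻¹ * y * a * b))⁻¹ := by
    rw [hh, hx, map_mul Φ (x * (y⁻¹ * x⁻¹ * y * a * b) * (y⁻¹ * x⁻¹ * y * a)),
      map_mul Φ (x * (y⁻¹ * x⁻¹ * y * a * b)), map_inv, hh, hr, he]
    simp [mul_assoc]
  have hyyy : Φ (Φ (Φ y)) = (x * (y⁻¹ * x⁻¹ * y * a * b)) * y *
      (x * (y⁻¹ * x⁻¹ * y * a * b))⁻¹ := by
    have h1 : y = x⁻¹ * (x * y) := by simp
    have h2 : Φ (Φ (Φ y)) = (Φ (Φ (Φ x)))⁻¹ * Φ (Φ (Φ (x * y))) := by
      rw [← map_inv, ← map_inv, ← map_inv, ← map_mul, ← map_mul, ← map_mul, ← h1]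
    rw [h2, hxxx, hhhh]
    simp [mul_assoc]
  refine ⟨hxxx, hyyy, ?_, ?_, h5, h6⟩
  · rw [map_mul Φ (y⁻¹ * x⁻¹ * y * a * b), map_mul Φ (Φ (y⁻¹ * x⁻¹ * y * a * b)), hdd, hee, hd, he]
    simp [mul_assoc]
  · rw [hdd, hd]
    simp [mul_assoc]

/-- THE STAR RELATION, second form.
PROOF. x = gen (2k), y = gen (2k+1), x' = alp (2k+1) = y⁻¹ x⁻¹ y, q1 = Alp (2k+2) t, q2 = Alp t w, e = x' q1 = Alp (2k+1) t, d = x' q1 q2 = Alp (2k+1) w, h = x y, r = x d = Alp (2k) w; Φ = E C D B with E = TP (2k) (2k+1), C = TP (2k+1) t, D = TP (2k+1) w, B = Bt k.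
B: x ↦ x y⁻¹, y, q1, q2 fixed. D: x fixed, y ↦ y d⁻¹, q1 ↦ d q1 d⁻¹, q2 ↦ d q2 d⁻¹, d fixed. C: x, q2, d, e fixed, y ↦ y e⁻¹, q1 ↦ e q1 e⁻¹. E: y ↦ x y, x, x', q1, q2, d, e fixed. Hence Φ x = r e h⁻¹, Φ y = h e⁻¹ d⁻¹, Φ q1 = d e q1 e⁻¹ d⁻¹, Φ q2 = d q2 d⁻¹.
So Φ h = x; Φ x' = y e⁻¹ d⁻¹; Φ e = h d⁻¹; Φ d = h e⁻¹; Φ r = r; Φ² d = r h⁻¹; Φ² e = x e h⁻¹; Φ³ d = r x⁻¹ = r d r⁻¹; Φ³ x = r x r⁻¹ (x = r d⁻¹); Φ² h = r e h⁻¹, Φ³ h = r h r⁻¹; Φ³ y = r y r⁻¹. Out k Φ U with U = d e on [2k+2,t), d on [t,w), 1 elsewhere.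
U3 = Φ² U Φ U U: on [t,w): r h⁻¹ h e⁻¹ d = r q2; on [2k+2,t): (r h⁻¹)(x e h⁻¹)(h e⁻¹)(h d⁻¹) d e = r h⁻¹ x h e = r x'⁻¹ e = r q1. Right side: the same words (nested and disjoint twists), x ↦ r x r⁻¹, y ↦ r y r⁻¹. Out.ext. (For t = 2k+2 or t = w the twist TP t t is trivial, TP_self; its loop is 1.) -/
theorem star2 (k t w : ℕ) (hk : k < g) (ht : 2 * k + 2 ≤ t) (hw : t ≤ w) (hw' : w ≤ 2 * g + n) :
    ((TP (2 * k) (2 * k + 1) * TP (2 * k + 1) t * TP (2 * k + 1) w * Bt k : MulAut (Fr g n))) ^ 3 =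
      TP (2 * k + 2) t * TP t w * TP (2 * k) w := by
  obtain ⟨x, hx⟩ : ∃ x : Fr g n, x = gen (2 * k) := ⟨_, rfl⟩
  obtain ⟨y, hy⟩ : ∃ y : Fr g n, y = gen (2 * k + 1) := ⟨_, rfl⟩
  obtain ⟨a, ha⟩ : ∃ p : Fr g n, p = Alp (2 * k + 2) t := ⟨_, rfl⟩
  obtain ⟨b, hb⟩ : ∃ q : Fr g n, q = Alp t w := ⟨_, rfl⟩
  have hx' : (Alp (2 * k) (2 * k + 1) : Fr g n) = x := by
    rw [Alp_one, alp_even _ (by omega), hx]
  have he : (Alp (2 * k + 1) t : Fr g n) = y⁻¹ * x⁻¹ * y * a := by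
    rw [Alp_cons (2 * k + 1) t (by omega), alp_odd k hk, ← hx, ← hy, ha]
  have hd : (Alp (2 * k + 1) w : Fr g n) = y⁻¹ * x⁻¹ * y * a * b := by
    rw [Alp_split (2 * k + 1) t w (by omega) hw, he, hb]
  have hr : (Alp (2 * k) w : Fr g n) = x * (y⁻¹ * x⁻¹ * y * a * b) := by
    rw [Alp_split (2 * k) (2 * k + 1) w (by omega) (by omega), hx', hd]
  obtain ⟨E, hE⟩ : ∃ A : MulAut (Fr g n), A = TP (2 * k) (2 * k + 1) := ⟨_, rfl⟩
  obtain ⟨C, hC⟩ : ∃ A : MulAut (Fr g n), A = TP (2 * k + 1) t := ⟨_, rfl⟩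
  obtain ⟨D, hD⟩ : ∃ A : MulAut (Fr g n), A = TP (2 * k + 1) w := ⟨_, rfl⟩
  obtain ⟨B, hB⟩ : ∃ A : MulAut (Fr g n), A = Bt k := ⟨_, rfl⟩
  obtain ⟨Φ, hΦ⟩ : ∃ Φ : MulAut (Fr g n), Φ = E * C * D * B := ⟨_, rfl⟩
  obtain ⟨h1, h2, h3, h4, h5, h6⟩ := ST3_alg E C D B x y a b
    (by rw [hE, hx, ST2_x, ST2_ind_pos _ _ _ _ (by omega), hx', hx, mul_inv_cancel_right])
    (by rw [hE, hy, ST2_y _ _ _ hk, ST2_ind_pos _ _ _ _ (by omega),
      ST2_ind_neg _ _ _ _ (by omega), hx', inv_one, mul_one])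
    (by rw [hE, ha, ST2_fix _ _ _ _ (by omega) (by omega) (by omega)])
    (by rw [hE, hb, ST2_fix _ _ _ _ (by omega) (by omega) (by omega)])
    (by rw [hC, hx, ST2_x, ST2_ind_neg _ _ _ _ (by omega), one_mul, inv_one, mul_one])
    (by rw [hC, hy, ST2_y _ _ _ hk, ST2_ind_neg _ _ _ _ (by omega),
      ST2_ind_pos _ _ _ _ (by omega), he, one_mul, hy])
    (by rw [hC, ha, ST2_in _ _ _ _ (by omega) (by omega) (by omega) (by omega), he, ha])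
    (by rw [hC, hb, ST2_fix _ _ _ _ (by omega) (by omega) (by omega)])
    (by rw [hD, hx, ST2_x, ST2_ind_neg _ _ _ _ (by omega), one_mul, inv_one, mul_one])
    (by rw [hD, hy, ST2_y _ _ _ hk, ST2_ind_neg _ _ _ _ (by omega),
      ST2_ind_pos _ _ _ _ (by omega), hd, one_mul, hy])
    (by rw [hD, ha, ST2_in _ _ _ _ (by omega) (by omega) (by omega) (by omega), hd, ha])
    (by rw [hD, hb, ST2_in _ _ _ _ (by omega) (by omega) (by omega) (by omega), hd, hb])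
    (by rw [hB, hx, Bt_x k hk, hy])
    (by rw [hB, hy, Bt_ne _ _ (by omega)])
    (by rw [hB, ha, ST2_Bfix k hk _ _ (by omega) (by omega)])
    (by rw [hB, hb, ST2_Bfix k hk _ _ (by omega) (by omega)])
    Φ hΦ
  obtain ⟨r, hrr⟩ : ∃ r, r = x * (y⁻¹ * x⁻¹ * y * a * b) := ⟨_, rfl⟩
  obtain ⟨d, hdd⟩ : ∃ d, d = y⁻¹ * x⁻¹ * y * a * b := ⟨_, rfl⟩
  obtain ⟨e, hee⟩ : ∃ e, e = y⁻¹ * x⁻¹ * y * a := ⟨_, rfl⟩
  rw [← hrr] at h1 h2 h3 h4 hr
  rw [← hdd] at h3 h4 h6 hd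
  rw [← hee] at h3 h5 he
  -- the blocks of the left side
  have bE : Out k E (ST2_blk (2 * k + 2) t t w 1 1) := by
    rw [hE]
    refine ST2_congr (Out_TP k (2 * k) (2 * k + 1)) fun c _ _ _ => ?_
    simp only [ind, ST2_blk, ite_self]
    rw [if_neg (by omega)]
  have bC : Out k C (ST2_blk (2 * k + 2) t t w e 1) := by
    rw [hC]
    refine ST2_congr (Out_TP k (2 * k + 1) t) fun c _ _ _ => ?_
    simp only [ind, ST2_blk, he, ite_self]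
    by_cases h : 2 * k + 2 ≤ c ∧ c < t
    · rw [if_pos h, if_pos (by omega)]
    · rw [if_neg h, if_neg (by omega)]
  have bD : Out k D (ST2_blk (2 * k + 2) t t w d d) := by
    rw [hD]
    refine ST2_congr (Out_TP k (2 * k + 1) w) fun c _ _ _ => ?_
    simp only [ind, ST2_blk, hd]
    by_cases h : 2 * k + 2 ≤ c ∧ c < t
    · rw [if_pos h, if_pos (by omega)]
    · rw [if_neg h]
      by_cases h' : t ≤ c ∧ c < w
      · rw [if_pos h', if_pos (by omega)]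
      · rw [if_neg h', if_neg (by omega)]
  have bB : Out k B (ST2_blk (2 * k + 2) t t w 1 1) := by
    rw [hB]
    refine ST2_congr (Out_Bt k) fun c _ _ _ => ?_
    simp only [ST2_blk, ite_self]
  have bΦ : Out k Φ (ST2_blk (2 * k + 2) t t w (d * e) d) := by
    rw [hΦ]
    refine ST2_mul (a := d * e) (b := d) (ST2_mul (a := e) (b := 1) (ST2_mul bE bC
      (by rw [mul_one]; exact h5) (by rw [map_one, one_mul])) bD ?_ ?_) bB
      (by rw [map_one, one_mul]) (by rw [map_one, one_mul])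
    · rw [MulAut.mul_apply, h6]
    · rw [MulAut.mul_apply, h6, mul_one]
  have b3 : Out k (Φ * Φ * Φ) (ST2_blk (2 * k + 2) t t w (r * a) (r * b)) := by
    refine ST2_mul (ST2_mul bΦ bΦ rfl rfl) bΦ ?_ ?_
    · rw [← h3]
      rfl
    · rw [← h4]
      rfl
  -- the right side
  have cP : Out k (TP (2 * k + 2) t) (ST2_blk (2 * k + 2) t t w a 1) := by
    refine ST2_congr (Out_TP k (2 * k + 2) t) fun c _ _ _ => ?_
    simp only [ind, ST2_blk, ← ha, ite_self]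
  have cQ : Out k (TP t w) (ST2_blk (2 * k + 2) t t w 1 b) := by
    refine ST2_congr (Out_TP k t w) fun c _ _ _ => ?_
    simp only [ind, ST2_blk, ← hb]
    by_cases h : 2 * k + 2 ≤ c ∧ c < t
    · rw [if_pos h, if_neg (by omega)]
    · rw [if_neg h]
  have cR : Out k (TP (2 * k) w) (ST2_blk (2 * k + 2) t t w r r) := by
    refine ST2_congr (Out_TP k (2 * k) w) fun c _ _ _ => ?_
    simp only [ind, ST2_blk, hr]
    by_cases h : 2 * k + 2 ≤ c ∧ c < t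
    · rw [if_pos h, if_pos (by omega)]
    · rw [if_neg h]
      by_cases h' : t ≤ c ∧ c < w
      · rw [if_pos h', if_pos (by omega)]
      · rw [if_neg h', if_neg (by omega)]
  have fr : (TP (2 * k + 2) t * TP t w : MulAut (Fr g n)) r = r := by
    rw [MulAut.mul_apply, ← hr, ST2_fix _ _ _ _ (by omega) (by omega) (by omega),
      ST2_fix _ _ _ _ (by omega) (by omega) (by omega)]
  have fx : (TP (2 * k + 2) t * TP t w : MulAut (Fr g n)) x = x := by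
    rw [MulAut.mul_apply, hx, ST2_x, ST2_ind_neg _ _ _ _ (by omega), one_mul, inv_one, mul_one,
      ST2_x, ST2_ind_neg _ _ _ _ (by omega), one_mul, inv_one, mul_one]
  have fy : (TP (2 * k + 2) t * TP t w : MulAut (Fr g n)) y = y := by
    rw [MulAut.mul_apply, hy, ST2_y _ _ _ hk, ST2_ind_neg _ _ _ _ (by omega),
      ST2_ind_neg _ _ _ _ (by omega), one_mul, inv_one, mul_one,
      ST2_y _ _ _ hk, ST2_ind_neg _ _ _ _ (by omega), ST2_ind_neg _ _ _ _ (by omega), one_mul,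
      inv_one, mul_one]
  have c3 : Out k (TP (2 * k + 2) t * TP t w * TP (2 * k) w)
      (ST2_blk (2 * k + 2) t t w (r * a) (r * b)) := by
    refine ST2_mul (a := a) (b := b) (ST2_mul cP cQ (by rw [map_one, one_mul]) ?_) cR (by rw [fr])
      (by rw [fr])
    rw [mul_one, hb]
    exact ST2_fix _ _ _ _ (by omega) (by omega) (by omega)
  rw [← hE, ← hC, ← hD, ← hB, ← hΦ, pow_succ, pow_two]
  refine Out.ext b3 c3 (fun _ _ _ _ => rfl) ?_ ?_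
  · rw [← hx]
    change Φ (Φ (Φ x)) = (TP (2 * k + 2) t * TP t w : MulAut (Fr g n)) (TP (2 * k) w x)
    have h6 : TP (2 * k) w x = r * x * r⁻¹ := by
      rw [hx, ST2_x, ST2_ind_pos _ _ _ _ (by omega), hr]
    rw [h1, h6, map_mul, map_mul, map_inv, fr, fx]
  · rw [← hy]
    change Φ (Φ (Φ y)) = (TP (2 * k + 2) t * TP t w : MulAut (Fr g n)) (TP (2 * k) w y)
    have h6 : TP (2 * k) w y = r * y * r⁻¹ := by
      rw [hy, ST2_y _ _ _ hk, ST2_ind_pos _ _ _ _ (by omega), ST2_ind_pos _ _ _ _ (by omega), hr]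
    rw [h2, h6, map_mul, map_mul, map_inv, fr, fy]
-- END ST3

/-- The Lickorish generators. -/
def lick (g n : ℕ) : Set (MulAut (Fr g n)) :=
  {φ | (∃ i, i < g ∧ φ = Bt i) ∨ ∃ s t, Lk g n s t ∧ φ = TP s t}

-- MODULE ST4
/-- Intervals of punctures. PROOF. Λ = closure (lick g n) contains E := TP (2g-2) (2g-1), f_p := TP (2g-1) (2g+p), Bt (g-1). star2 with k = g-1, t = 2g+p, w = 2g+q, p ≤ q ≤ n: A_p * D_(pq) * E_q ∈ Λ, A_p = TP (2g) (2g+p), D_(pq) = TP (2g+p) (2g+q), E_q = TP (2g-2) (2g+q). p = q: D = 1 (TP_self): A_p E_p ∈ Λ.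
q = p+1: D = 1 (TP_punct): A_p E_(p+1) ∈ Λ. A_0 = 1 (TP_self), so E_0 ∈ Λ; by induction on p: E_p ∈ Λ gives A_p ∈ Λ and E_(p+1) ∈ Λ. So all A_p, E_q ∈ Λ and D_(pq) ∈ Λ. -/
theorem lick_punct (hg : 1 ≤ g) (p q : ℕ) (hpq : p ≤ q) (hq : q ≤ n) :
    (TP (2 * g + p) (2 * g + q) : MulAut (Fr g n)) ∈ Subgroup.closure (lick g n) := by
  obtain ⟨m, rfl⟩ : ∃ m, g = m + 1 := ⟨g - 1, by omega⟩
  have hB : (Bt m : MulAut (Fr (m + 1) n)) ∈ Subgroup.closure (lick (m + 1) n) :=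
    Subgroup.subset_closure (Or.inl ⟨m, by omega, rfl⟩)
  have hE : (TP (2 * m) (2 * m + 1) : MulAut (Fr (m + 1) n)) ∈
      Subgroup.closure (lick (m + 1) n) :=
    Subgroup.subset_closure (Or.inr ⟨_, _, Or.inl ⟨m, by omega, rfl, rfl⟩, rfl⟩)
  have hf : ∀ j, j ≤ n → (TP (2 * m + 1) (2 * (m + 1) + j) : MulAut (Fr (m + 1) n)) ∈
      Subgroup.closure (lick (m + 1) n) := fun j hj =>
    Subgroup.subset_closure (Or.inr ⟨_, _, Or.inr (Or.inr ⟨j, hj, by omega, rfl⟩), rfl⟩)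
  have hstar : ∀ i j, i ≤ j → j ≤ n →
      (TP (2 * (m + 1)) (2 * (m + 1) + i) * TP (2 * (m + 1) + i) (2 * (m + 1) + j) *
        TP (2 * m) (2 * (m + 1) + j) : MulAut (Fr (m + 1) n)) ∈
      Subgroup.closure (lick (m + 1) n) := by
    intro i j hij hj
    have h1 := star2 (g := m + 1) (n := n) m (2 * (m + 1) + i) (2 * (m + 1) + j) (by omega)
      (by omega) (by omega) (by omega)
    rw [show 2 * m + 2 = 2 * (m + 1) by ring] at h1
    rw [← h1]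
    exact Subgroup.pow_mem _ (Subgroup.mul_mem _ (Subgroup.mul_mem _ (Subgroup.mul_mem _ hE
      (hf i (by omega))) (hf j hj)) hB) 3
  have hdiag : ∀ i, i ≤ n → (TP (2 * (m + 1)) (2 * (m + 1) + i) *
      TP (2 * m) (2 * (m + 1) + i) : MulAut (Fr (m + 1) n)) ∈
      Subgroup.closure (lick (m + 1) n) := by
    intro i hi
    have h1 := hstar i i le_rfl hi
    rw [TP_self, mul_one] at h1
    exact h1
  have hstep : ∀ i, i < n → (TP (2 * (m + 1)) (2 * (m + 1) + i) *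
      TP (2 * m) (2 * (m + 1) + (i + 1)) : MulAut (Fr (m + 1) n)) ∈
      Subgroup.closure (lick (m + 1) n) := by
    intro i hi
    have h1 := hstar i (i + 1) (by omega) hi
    rw [← add_assoc, TP_punct i hi, mul_one] at h1
    rw [← add_assoc]
    exact h1
  have hE' : ∀ i, i ≤ n → (TP (2 * m) (2 * (m + 1) + i) : MulAut (Fr (m + 1) n)) ∈
      Subgroup.closure (lick (m + 1) n) := by
    intro i
    induction i with
    | zero =>
      intro hi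
      have h1 := hdiag 0 hi
      simp only [Nat.add_zero, TP_self, one_mul] at h1
      exact h1
    | succ i ih =>
      intro hi
      have h1 := ih (by omega)
      have h2 := hdiag i (by omega)
      rw [Subgroup.mul_mem_cancel_right _ h1] at h2
      have h3 := hstep i (by omega)
      rwa [Subgroup.mul_mem_cancel_left _ h2] at h3
  have hA : (TP (2 * (m + 1)) (2 * (m + 1) + p) : MulAut (Fr (m + 1) n)) ∈
      Subgroup.closure (lick (m + 1) n) := by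
    have h2 := hdiag p (by omega)
    rwa [Subgroup.mul_mem_cancel_right _ (hE' p (by omega))] at h2
  have h1 := hstar p q hpq hq
  rwa [Subgroup.mul_mem_cancel_right _ (hE' q hq), Subgroup.mul_mem_cancel_left _ hA] at h1
-- END ST4

-- MODULE ST5
private theorem ST5_aux (hg : 1 ≤ g) (N : ℕ) : ∀ s t : ℕ, s < t → t ≤ 2 * g + n → t - s = N →
    (TP s t : MulAut (Fr g n)) ∈ Subgroup.closure (lick g n) := by
  induction N using Nat.strong_induction_on with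
  | _ N ih =>
  intro s t hst ht hN
  have hl : ∀ s t, Lk g n s t → (TP s t : MulAut (Fr g n)) ∈ Subgroup.closure (lick g n) :=
    fun s t h => Subgroup.subset_closure (Or.inr ⟨s, t, h, rfl⟩)
  have hB : ∀ i, i < g → (Bt i : MulAut (Fr g n)) ∈ Subgroup.closure (lick g n) :=
    fun i h => Subgroup.subset_closure (Or.inl ⟨i, h, rfl⟩)
  -- shorter intervals
  have hsh : ∀ s' t', s' ≤ t' → t' ≤ 2 * g + n → t' - s' < N →
      (TP s' t' : MulAut (Fr g n)) ∈ Subgroup.closure (lick g n) := by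
    intro s' t' h1 h2 h3
    rcases h1.eq_or_lt with rfl | h1
    · rw [TP_self]
      exact Subgroup.one_mem _
    · exact ih (t' - s') h3 s' t' h1 h2 rfl
  by_cases hk : ∃ k, k < g ∧ s ≤ 2 * k ∧ 2 * k + 2 ≤ t
  · obtain ⟨k, hk, hs, hw⟩ := hk
    have h1 := star1 (g := g) (n := n) k s t hk hs hw ht
    have h2 : (TP s (2 * k) * TP (2 * k + 2) t * TP s t : MulAut (Fr g n)) ∈
        Subgroup.closure (lick g n) := by
      rw [← h1]
      refine Subgroup.pow_mem _ (Subgroup.mul_mem _ (Subgroup.mul_mem _ (Subgroup.mul_mem _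
        (hsh _ _ (by omega) (by omega) (by omega)) (hl _ _ (Or.inl ⟨k, hk, rfl, rfl⟩)))
        (hsh _ _ (by omega) (by omega) (by omega))) (hB k hk)) 3
    rwa [Subgroup.mul_mem_cancel_left _ (Subgroup.mul_mem _
      (hsh _ _ (by omega) (by omega) (by omega)) (hsh _ _ (by omega) (by omega) (by omega)))] at h2
  · have hk' : ∀ k, k < g → ¬ (s ≤ 2 * k ∧ 2 * k + 2 ≤ t) := fun k hk1 hk2 => hk ⟨k, hk1, hk2⟩
    by_cases hs : s < 2 * g
    · rcases Nat.even_or_odd' s with ⟨i, rfl | rfl⟩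
      · have h1 := hk' i (by omega)
        have h2 : t = 2 * i + 1 := by omega
        rw [h2]
        exact hl _ _ (Or.inl ⟨i, by omega, rfl, rfl⟩)
      · by_cases h1 : t = 2 * i + 2
        · rw [h1, ← TP_a i (by omega)]
          exact hl _ _ (Or.inl ⟨i, by omega, rfl, rfl⟩)
        · by_cases h2 : i + 1 < g
          · have h3 := hk' (i + 1) h2
            have h4 : t = 2 * i + 3 := by omega
            rw [h4]
            exact hl _ _ (Or.inr (Or.inl ⟨i, h2, rfl, rfl⟩))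
          · exact hl _ _ (Or.inr (Or.inr ⟨t - 2 * g, by omega, by omega, by omega⟩))
    · have h1 := lick_punct (g := g) (n := n) hg (s - 2 * g) (t - 2 * g) (by omega) (by omega)
      rwa [show 2 * g + (s - 2 * g) = s by omega, show 2 * g + (t - 2 * g) = t by omega] at h1

/-- All interval twists are products of Lickorish generators. PROOF. Strong induction on t - s. If there is k < g with s ≤ 2k, 2k + 2 ≤ t: star1 with w = t: TP s t = (TP (2k+2) t)⁻¹ (TP s (2k))⁻¹ (...)^3, all the other twists are in Λ: shorter intervals, or trivial (s = 2k or t = 2k+2: TP_self), and TP (2k) (2k+1) is a Lickorish generator.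
Otherwise: s = 2i < 2g: t = 2i+1: a_i. s = 2i+1 < 2g: t = 2i+2: TP_a, a_i; t ≥ 2i+3 and i+1 < g: t = 2i+3 (else the handle i+1 is inside): e_i; i = g-1: f_k, t = 2g+k. s ≥ 2g: lick_punct. -/
theorem lick_TP (hg : 1 ≤ g) (s t : ℕ) (hst : s < t) (ht : t ≤ 2 * g + n) :
    (TP s t : MulAut (Fr g n)) ∈ Subgroup.closure (lick g n) :=
  ST5_aux hg (t - s) s t hst ht rfl
-- END ST5

theorem closure_lick (hg : 1 ≤ g) :
    Subgroup.closure (lick g n) = Subgroup.closure (twists g n) := by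
  apply le_antisymm
  · rw [Subgroup.closure_le]
    rintro φ (⟨i, hi, rfl⟩ | ⟨s, t, h, rfl⟩)
    · exact Subgroup.subset_closure (Or.inl ⟨i, hi, rfl⟩)
    · exact Subgroup.subset_closure (Or.inr ⟨s, t, (h.lt hg).1, (h.lt hg).2, rfl⟩)
  · rw [Subgroup.closure_le]
    rintro φ (⟨i, hi, rfl⟩ | ⟨s, t, hst, ht, rfl⟩)
    · exact Subgroup.subset_closure (Or.inl ⟨i, hi, rfl⟩)
    · exact lick_TP hg s t hst ht

end Pool.Agent.QR80
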