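import Pool.Agent.HG13.Chain

set_option linter.all false

namespace Pool.Agent.QR80

open Pool.Agent.HG13

universe u

variable {V : Type u} [AddCommGroup V] [Module ℂ V]

/-- The free group on two letters. -/
abbrev F2 : Type := FreeGroup (Fin 2)

/-- The first letter. -/
def la : F2 := FreeGroup.of 0

/-- The second letter. -/
def lb : F2 := FreeGroup.of 1

/-- Pairwise commuting representations of `F2`, `i ∈ I`; the two letters satisfy the braid relation
and the first letter acts unipotently. -/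
structure PF (I : Finset ℕ) (ρ : ℕ → (F2 →* Module.End ℂ V)) : Prop where
  com : ∀ i ∈ I, ∀ j ∈ I, i ≠ j → ∀ x y, Commute (ρ i x) (ρ j y)
  brd : ∀ i ∈ I, Brd (ρ i la) (ρ i lb)
  nil : ∀ i ∈ I, IsNilpotent (ρ i la - 1)

-- MODULE CN1
/-- One-dimensional braided pairs with unipotent first member are trivial.
PROOF. dim V = 1: every endomorphism is a scalar (choose a basis vector; LinearMap.exists... or `finrank_eq_one_iff'`). σ la - 1 = c • 1 is
nilpotent, so c = 0 (c ^ k • 1 = 0, V ≠ 0), σ la = 1. The braid relation becomes σ lb = σ lb * σ lb, and σ lb is invertible (σ lb * σ lb⁻¹ = 1), so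
σ lb = 1. -/
theorem dim_one (σ : F2 →* Module.End ℂ V) (h1 : Module.finrank ℂ V = 1)
    (hb : Brd (σ la) (σ lb)) (hn : IsNilpotent (σ la - 1)) : σ la = 1 ∧ σ lb = 1 := by
  obtain ⟨v, hv, hspan⟩ := finrank_eq_one_iff'.1 h1
  have key : ∀ f : Module.End ℂ V, ∃ c : ℂ, f = c • 1 := by
    intro f
    obtain ⟨c, hc⟩ := hspan (f v)
    refine ⟨c, LinearMap.ext fun w => ?_⟩
    obtain ⟨d, rfl⟩ := hspan w
    rw [map_smul, ← hc]
    simp [smul_smul, mul_comm]
  have h2 : σ la = 1 := by
    obtain ⟨c, hc⟩ := key (σ la - 1)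
    obtain ⟨n, hn⟩ := hn
    rw [hc, smul_pow, one_pow] at hn
    have h3 := LinearMap.congr_fun hn v
    simp only [LinearMap.smul_apply, Module.End.one_apply, LinearMap.zero_apply] at h3
    have h4 : c ^ n = 0 := (smul_eq_zero.1 h3).resolve_right hv
    have h5 : c = 0 := by
      by_contra h0
      exact pow_ne_zero n h0 h4
    rw [h5, zero_smul] at hc
    exact sub_eq_zero.1 hc
  refine ⟨h2, ?_⟩
  have h3 : σ lb = σ lb * σ lb := by
    have := hb
    unfold Brd at this
    rw [h2] at this
    simpa using this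
  have h4 : σ lb * σ lb⁻¹ = 1 := by rw [← map_mul, mul_inv_cancel, map_one]
  calc σ lb = σ lb * (σ lb * σ lb⁻¹) := by rw [h4, mul_one]
    _ = (σ lb * σ lb) * σ lb⁻¹ := (mul_assoc _ _ _).symm
    _ = σ lb * σ lb⁻¹ := by rw [← h3]
    _ = 1 := h4
-- END CN1

/-- A representation which commutes with `ρ` acts on the equivariant maps `S → V`. -/
def actE {S : Type u} [AddCommGroup S] [Module ℂ S] {H H' : Type*} [Group H] [Group H']
    (σ : H →* Module.End ℂ S) (ρ : H →* Module.End ℂ V) (τ : H' →* Module.End ℂ V)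
    (hc : ∀ x y, Commute (τ x) (ρ y)) : H' →* Module.End ℂ (Eqv σ ρ) where
  toFun x :=
    { toFun := fun f => ⟨(τ x) ∘ₗ f.1, by
        intro y s
        have h := f.2 y s
        have h' := LinearMap.congr_fun (hc x y).eq (f.1 s)
        simp only [Module.End.mul_apply] at h'
        simp only [LinearMap.comp_apply]
        rw [h, h']⟩
      map_add' := by intro f f'; ext s; simp
      map_smul' := by intro c f; ext s; simp }
  map_one' := by ext f s; simp
  map_mul' x y := by ext f s; simp

-- MODULE CN2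
/-- CLAIM A: if no non-zero vector is fixed by the pair i, for every i ∈ I, then 2^|I| ≤ dim V.
PROOF. Induction on I (Finset.induction_on, for all V). I = ∅: 1 ≤ dim V (V nontrivial, Module.finrank_pos). I = insert k I', k ∉ I': exists_irr for ρ k: W, hW, σ := resR (ρ k) W hW irreducible.
dim W ≥ 1 (W nontrivial). dim W ≠ 1: otherwise by dim_one for σ (Brd and nilpotency restrict to W: σ x is the restriction of ρ k x, (σ la - 1)^r w = (ρ k la - 1)^r w) σ la = σ lb = 1, so a non-zero w ∈ W is fixed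
by ρ k la and ρ k lb, contradiction. So 2 ≤ dim W. M := Eqv σ (ρ k) ≠ 0 (W.subtype is in it, non-zero; so Nontrivial M). For j define ρ' j := actE σ (ρ k) (ρ j) _ for j ∈ I' and ρ' j := 1 for other j (j ≠ k, com). PF I' ρ': commuting and braid: (ρ' j x f) s = ρ j x (f s);
nilpotent: ((ρ' j la - 1)^r f) s = (ρ j la - 1)^r (f s) by induction on r. No fixed vectors: f ∈ M fixed by ρ' j la, ρ' j lb: ρ j la (f s) = f s, ρ j lb (f s) = f s for all s, so f s = 0. Induction hypothesis: 2^|I'| ≤ dim M (M is finite dimensional: a submodule of W →ₗ V).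
hom_dim: dim W * dim M ≤ dim V, so 2 * 2^|I'| ≤ dim V. -/
theorem claimA (I : Finset ℕ) : ∀ (V : Type u) [AddCommGroup V] [Module ℂ V]
    [FiniteDimensional ℂ V] [Nontrivial V] (ρ : ℕ → (F2 →* Module.End ℂ V)), PF I ρ →
    (∀ i ∈ I, ∀ v, ρ i la v = v → ρ i lb v = v → v = 0) →
    2 ^ I.card ≤ Module.finrank ℂ V := by
  classical
  induction I using Finset.induction_on with
  | empty =>
    intro V _ _ _ _ ρ _ _
    rw [Finset.card_empty, pow_zero]
    exact Module.finrank_pos
  | insert k I hk ih =>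
    intro V _ _ _ _ ρ hρ hfix
    obtain ⟨W, hW, hirr⟩ := exists_irr (ρ k)
    have hkI : k ∈ insert k I := Finset.mem_insert_self _ _
    have hWn : Nontrivial W := hirr.1
    have hres : ∀ x (w : W), ((resR (ρ k) W hW x w : W) : V) = ρ k x w := fun x w => rfl
    have hpow : ∀ (r : ℕ) (w : W), (((resR (ρ k) W hW la - 1) ^ r) w : V) = ((ρ k la - 1) ^ r) w := by
      intro r
      induction r with
      | zero => intro w; simp
      | succ r ihr =>
        intro w
        rw [pow_succ, pow_succ, Module.End.mul_apply, Module.End.mul_apply, ihr]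
        rfl
    have hd : 2 ≤ Module.finrank ℂ W := by
      by_contra hlt
      have h1 : Module.finrank ℂ W = 1 := by
        have := Module.finrank_pos (R := ℂ) (M := W)
        omega
      have hb : Brd (resR (ρ k) W hW la) (resR (ρ k) W hW lb) := by
        have hb0 := hρ.brd k hkI
        unfold Brd at hb0 ⊢
        apply LinearMap.ext
        intro w
        apply Subtype.ext
        exact LinearMap.congr_fun hb0 (w : V)
      have hn : IsNilpotent (resR (ρ k) W hW la - 1) := by
        obtain ⟨r, hr⟩ := hρ.nil k hkI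
        refine ⟨r, LinearMap.ext fun w => Subtype.ext ?_⟩
        rw [hpow, hr]
        rfl
      obtain ⟨h2, h3⟩ := dim_one _ h1 hb hn
      obtain ⟨w, hw⟩ := exists_ne (0 : W)
      apply hw
      apply Subtype.ext
      refine hfix k hkI _ ?_ ?_
      · rw [← hres, h2]
        rfl
      · rw [← hres, h3]
        rfl
    let M := Eqv (resR (ρ k) W hW) (ρ k)
    have hM : Nontrivial M := by
      refine ⟨⟨⟨W.subtype, fun x s => rfl⟩, 0, ?_⟩⟩
      intro h0
      obtain ⟨w, hw⟩ := exists_ne (0 : W)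
      apply hw
      apply Subtype.ext
      exact LinearMap.congr_fun (congrArg Subtype.val h0) w
    have hc : ∀ j ∈ I, ∀ x y, Commute (ρ j x) (ρ k y) := by
      intro j hj x y
      refine hρ.com j (Finset.mem_insert_of_mem hj) k hkI ?_ x y
      rintro rfl
      exact hk hj
    let ρ' : ℕ → (F2 →* Module.End ℂ M) := fun j =>
      if h : j ∈ I then actE (resR (ρ k) W hW) (ρ k) (ρ j) (hc j h) else 1
    have hρ' : ∀ j ∈ I, ∀ x (f : M) (s : W), (ρ' j x f).1 s = ρ j x (f.1 s) := by
      intro j hj x f s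
      simp only [ρ', dif_pos hj]
      rfl
    have hext : ∀ f f' : M, (∀ s, f.1 s = f'.1 s) → f = f' := fun f f' h =>
      Subtype.ext (LinearMap.ext h)
    have hPF : PF I ρ' := by
      refine ⟨?_, ?_, ?_⟩
      · intro i hi j hj hij x y
        apply LinearMap.ext
        intro f
        apply hext
        intro s
        rw [Module.End.mul_apply, Module.End.mul_apply, hρ' i hi, hρ' j hj, hρ' j hj, hρ' i hi]
        exact LinearMap.congr_fun (hρ.com i (Finset.mem_insert_of_mem hi) j
          (Finset.mem_insert_of_mem hj) hij x y).eq (f.1 s)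
      · intro i hi
        have hb0 := hρ.brd i (Finset.mem_insert_of_mem hi)
        unfold Brd at hb0 ⊢
        apply LinearMap.ext
        intro f
        apply hext
        intro s
        simp only [Module.End.mul_apply, hρ' i hi]
        exact LinearMap.congr_fun hb0 (f.1 s)
      · intro i hi
        obtain ⟨r, hr⟩ := hρ.nil i (Finset.mem_insert_of_mem hi)
        have hpow' : ∀ (r : ℕ) (f : M) (s : W), (((ρ' i la - 1) ^ r) f).1 s =
            ((ρ i la - 1) ^ r) (f.1 s) := by
          intro r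
          induction r with
          | zero => intro f s; simp
          | succ r ihr =>
            intro f s
            rw [pow_succ, pow_succ, Module.End.mul_apply, Module.End.mul_apply, ihr]
            congr 1
            rw [LinearMap.sub_apply, LinearMap.sub_apply, Module.End.one_apply,
              Module.End.one_apply, ← hρ' i hi]
            rfl
        refine ⟨r, LinearMap.ext fun f => hext _ _ fun s => ?_⟩
        rw [hpow', hr]
        rfl
    have hfix' : ∀ i ∈ I, ∀ f : M, ρ' i la f = f → ρ' i lb f = f → f = 0 := by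
      intro i hi f h1 h2
      apply hext
      intro s
      refine hfix i (Finset.mem_insert_of_mem hi) _ ?_ ?_
      · rw [← hρ' i hi, h1]
      · rw [← hρ' i hi, h2]
    have h3 := ih M ρ' hPF hfix'
    have h4 := hom_dim (resR (ρ k) W hW) (ρ k) hirr
    rw [Finset.card_insert_of_notMem hk, pow_succ]
    calc 2 ^ I.card * 2 ≤ Module.finrank ℂ M * Module.finrank ℂ W := Nat.mul_le_mul h3 hd
      _ = Module.finrank ℂ W * Module.finrank ℂ M := mul_comm _ _
      _ ≤ _ := h4
-- END CN2

/-- `P` is generated by the pairs `a i, b i` (`i < g`), which commute for different `i`, and satisfy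
the braid relation for the same `i`. -/
structure PG (g : ℕ) {P : Type*} [Group P] (a b : ℕ → P) : Prop where
  aa : ∀ i j, i < g → j < g → i ≠ j → Commute (a i) (a j)
  ab : ∀ i j, i < g → j < g → i ≠ j → Commute (a i) (b j)
  bb : ∀ i j, i < g → j < g → i ≠ j → Commute (b i) (b j)
  br : ∀ i, i < g → Brd (a i) (b i)
  gen : Subgroup.closure {x | ∃ i, i < g ∧ (x = a i ∨ x = b i)} = ⊤

/-- Stable subspace. -/
def Stb {P : Type*} [Group P] (ρ : P →* Module.End ℂ V) (W : Submodule ℂ V) : Prop :=
  ∀ x, ∀ w ∈ W, ρ x w ∈ W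

/-- Simple section. -/
structure Sec {P : Type*} [Group P] (ρ : P →* Module.End ℂ V) (W1 W2 : Submodule ℂ V) : Prop where
  s1 : Stb ρ W1
  s2 : Stb ρ W2
  lt : W1 < W2
  sim : ∀ W, Stb ρ W → W1 ≤ W → W ≤ W2 → W = W1 ∨ W = W2

open Classical in
/-- The support of the section: the `i < g` such that `a i` does not act trivially on it. -/
noncomputable def sup (g : ℕ) {P : Type*} [Group P] (a : ℕ → P) (ρ : P →* Module.End ℂ V)
    (W1 W2 : Submodule ℂ V) : Finset ℕ :=
  (Finset.range g).filter (fun i => ¬ ∀ w ∈ W2, ρ (a i) w - w ∈ W1)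

section grp

variable {g : ℕ} {P : Type*} [Group P] {a b : ℕ → P}

-- MODULE CN3
/-- Stability can be checked on the generators. PROOF. → clear. ←: the set of x with ρ x W ⊆ W and ρ x⁻¹ W ⊆ W is a subgroup (carrier; closure_induction); it contains the generators: ρ (a i) maps W into W and is
injective, W is finite dimensional, so it maps W onto W (LinearMap.injective_iff_surjective for the restriction), hence ρ (a i)⁻¹ maps W into W. gen: the subgroup is ⊤. -/
theorem stb_iff (hP : PG g a b) [FiniteDimensional ℂ V] (ρ : P →* Module.End ℂ V)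
    (W : Submodule ℂ V) :
    Stb ρ W ↔ ∀ i, i < g → (∀ w ∈ W, ρ (a i) w ∈ W) ∧ ∀ w ∈ W, ρ (b i) w ∈ W := by
  constructor
  · intro h i _
    exact ⟨h (a i), h (b i)⟩
  · intro h
    have key : ∀ x : P, (∀ w ∈ W, ρ x w ∈ W) → ∀ w ∈ W, ρ x⁻¹ w ∈ W := by
      intro x hx w hw
      have hinj : Function.Injective ((ρ x).restrict hx) := by
        intro u v huv
        have h1 : ρ x u = ρ x v := congrArg Subtype.val huv
        apply Subtype.ext
        have h2 := congrArg (ρ x⁻¹) h1
        rwa [← Module.End.mul_apply, ← Module.End.mul_apply, ← map_mul, inv_mul_cancel,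
          map_one] at h2
      obtain ⟨u, hu⟩ := (LinearMap.injective_iff_surjective.1 hinj) ⟨w, hw⟩
      have h1 : ρ x u = w := congrArg Subtype.val hu
      rw [← h1, ← Module.End.mul_apply, ← map_mul, inv_mul_cancel, map_one]
      exact u.2
    have hc : ∀ x ∈ Subgroup.closure {x | ∃ i, i < g ∧ (x = a i ∨ x = b i)},
        ∀ w ∈ W, ρ x w ∈ W := by
      intro x hx
      induction hx using Subgroup.closure_induction with
      | mem x hx =>
        obtain ⟨i, hi, rfl | rfl⟩ := hx
        · exact (h i hi).1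
        · exact (h i hi).2
      | one => intro w hw; rw [map_one]; exact hw
      | mul x y _ _ hx hy => intro w hw; rw [map_mul]; exact hx _ (hy _ hw)
      | inv x _ hx => exact key x hx
    intro x
    exact hc x (by rw [hP.gen]; trivial)
-- END CN3

open Classical in
-- MODULE CN4
/-- The dimension of an irreducible representation. PROOF. I = {i < g : ρ (a i) ≠ 1}. Put ρ' i := ρ.comp (FreeGroup.lift ![a i, b i]) (so ρ' i la = ρ (a i), ρ' i lb = ρ (b i)). PF I ρ': com: FreeGroup.lift ![a i, b i] x and FreeGroup.lift ![a j, b j] y commute for i ≠ j < g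
(both are in closures of commuting elements; FreeGroup.induction_on twice), then map. For i ∈ I the subspace U = {v | ρ (a i) v = v ∧ ρ (b i) v = v} is stable under the generators (a j, b j with j ≠ i commute with a i, b i; a i and b i fix
U pointwise), so by stb_iff (or irreducibility applied to a stable U) U = ⊥ or ⊤; ⊤ would give ρ (a i) = 1. So U = ⊥. claimA. -/
theorem irr_dim (hP : PG g a b) [FiniteDimensional ℂ V] (ρ : P →* Module.End ℂ V) (hirr : Irr ρ)
    (hn : ∀ i, i < g → IsNilpotent (ρ (a i) - 1)) :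
    2 ^ ((Finset.range g).filter (fun i => ρ (a i) ≠ 1)).card ≤ Module.finrank ℂ V := by
  have hV : Nontrivial V := hirr.1
  let φ : ℕ → (F2 →* P) := fun i => FreeGroup.lift ![a i, b i]
  have ha : ∀ i, φ i la = a i := fun i => by simp [φ, la]
  have hb : ∀ i, φ i lb = b i := fun i => by simp [φ, lb]
  have hab : ∀ i j, i < g → j < g → i ≠ j → ∀ s t : Fin 2,
      Commute ((![a i, b i] : Fin 2 → P) s) ((![a j, b j] : Fin 2 → P) t) := by
    intro i j hi hj hij s t
    fin_cases s <;> fin_cases t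
    · exact hP.aa i j hi hj hij
    · exact hP.ab i j hi hj hij
    · exact (hP.ab j i hj hi hij.symm).symm
    · exact hP.bb i j hi hj hij
  have hcom : ∀ i j, i < g → j < g → i ≠ j → ∀ x y : F2, Commute (φ i x) (φ j y) := by
    intro i j hi hj hij x y
    induction x using FreeGroup.induction_on with
    | C1 => rw [map_one]; exact Commute.one_left _
    | mul x x' hx hx' => rw [map_mul]; exact hx.mul_left hx'
    | inv_of s hs => rw [map_inv]; exact hs.inv_left
    | of s =>
      induction y using FreeGroup.induction_on with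
      | C1 => rw [map_one]; exact Commute.one_right _
      | mul y y' hy hy' => rw [map_mul]; exact hy.mul_right hy'
      | inv_of t ht => rw [map_inv]; exact ht.inv_right
      | of t =>
        have e1 : φ i (FreeGroup.of s) = (![a i, b i] : Fin 2 → P) s := FreeGroup.lift_apply_of ..
        have e2 : φ j (FreeGroup.of t) = (![a j, b j] : Fin 2 → P) t := FreeGroup.lift_apply_of ..
        rw [e1, e2]
        exact hab i j hi hj hij s t
  refine claimA _ V (fun i => ρ.comp (φ i)) ⟨?_, ?_, ?_⟩ ?_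
  · intro i hi j hj hij x y
    have hi' := Finset.mem_range.1 (Finset.mem_filter.1 hi).1
    have hj' := Finset.mem_range.1 (Finset.mem_filter.1 hj).1
    exact (hcom i j hi' hj' hij x y).map ρ
  · intro i hi
    have hi' := Finset.mem_range.1 (Finset.mem_filter.1 hi).1
    have h1 := hP.br i hi'
    unfold Brd at h1 ⊢
    simp only [MonoidHom.comp_apply, ha, hb]
    rw [← map_mul, ← map_mul, h1, map_mul, map_mul]
  · intro i hi
    have hi' := Finset.mem_range.1 (Finset.mem_filter.1 hi).1
    simp only [MonoidHom.comp_apply, ha]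
    exact hn i hi'
  · intro i hi v hv1 hv2
    have hi' := Finset.mem_range.1 (Finset.mem_filter.1 hi).1
    have hi2 := (Finset.mem_filter.1 hi).2
    simp only [MonoidHom.comp_apply, ha, hb] at hv1 hv2
    let U : Submodule ℂ V :=
      { carrier := {v | ρ (a i) v = v ∧ ρ (b i) v = v}
        add_mem' := by
          rintro x y ⟨h1, h2⟩ ⟨h3, h4⟩
          exact ⟨by rw [map_add, h1, h3], by rw [map_add, h2, h4]⟩
        zero_mem' := ⟨map_zero _, map_zero _⟩
        smul_mem' := by
          rintro c x ⟨h1, h2⟩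
          exact ⟨by rw [map_smul, h1], by rw [map_smul, h2]⟩ }
    have hU : Stb ρ U := by
      rw [stb_iff hP]
      have hcm : ∀ x y : P, Commute x y → ∀ v, ρ x v = v → ρ x (ρ y v) = ρ y v := by
        intro x y hxy v hv
        rw [← Module.End.mul_apply, ← map_mul, hxy.eq, map_mul, Module.End.mul_apply, hv]
      intro j hj
      by_cases hij : i = j
      · subst hij
        refine ⟨?_, ?_⟩
        · rintro w ⟨h1, h2⟩
          rw [h1]; exact ⟨h1, h2⟩
        · rintro w ⟨h1, h2⟩
          rw [h2]; exact ⟨h1, h2⟩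
      · refine ⟨?_, ?_⟩
        · rintro w ⟨h1, h2⟩
          exact ⟨hcm _ _ (hP.aa i j hi' hj hij) _ h1,
            hcm _ _ (hP.ab j i hj hi' (Ne.symm hij)).symm _ h2⟩
        · rintro w ⟨h1, h2⟩
          exact ⟨hcm _ _ (hP.ab i j hi' hj hij) _ h1, hcm _ _ (hP.bb i j hi' hj hij) _ h2⟩
    rcases hirr.2 U hU with h | h
    · have : v ∈ U := ⟨hv1, hv2⟩
      rwa [h, Submodule.mem_bot] at this
    · exfalso
      apply hi2
      apply LinearMap.ext
      intro w
      have : w ∈ U := by rw [h]; trivial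
      exact this.1
-- END CN4

-- MODULE CN5
/-- The representation on a simple section. PROOF. σ = resR ρ W2 h.s2, W1' = W1.comap W2.subtype (stable under σ), Q = W2 ⧸ W1', q = quoR σ W1' _. Nontrivial: W1 < W2. A q-stable W' ≤ Q: W = (W'.comap W1'.mkQ).map W2.subtype is ρ-stable, W1 ≤ W ≤ W2,
so W = W1 (W' = ⊥) or W = W2 (W' = ⊤). finrank Q + finrank W1' = finrank W2 (Submodule.finrank_quotient_add_finrank), finrank W1' = finrank W1 (W1 ≤ W2: Submodule.comapSubtypeEquivOfLe or finrank_map_subtype_eq). q x = 1 iff q x (mk w) = mk w for all w ∈ W2,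
iff ρ x w - w ∈ W1. Nilpotency: (q x - 1)^r (mk w) = mk ((ρ x - 1)^r w). -/
theorem sec_quo [FiniteDimensional ℂ V] (ρ : P →* Module.End ℂ V) (W1 W2 : Submodule ℂ V)
    (h : Sec ρ W1 W2) :
    ∃ (Q : Type u) (_ : AddCommGroup Q) (_ : Module ℂ Q) (_ : FiniteDimensional ℂ Q)
      (q : P →* Module.End ℂ Q), Irr q ∧
      Module.finrank ℂ Q + Module.finrank ℂ W1 = Module.finrank ℂ W2 ∧
      (∀ x, q x = 1 ↔ ∀ w ∈ W2, ρ x w - w ∈ W1) ∧
      (∀ x, IsNilpotent (ρ x - 1) → IsNilpotent (q x - 1)) := by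
  let σ := resR ρ W2 h.s2
  let U : Submodule ℂ W2 := W1.comap W2.subtype
  have hU : ∀ x, ∀ w ∈ U, σ x w ∈ U := fun x w hw => h.s1 x _ hw
  let q := quoR σ U hU
  have hσ : ∀ x (w : W2), ((σ x w : W2) : V) = ρ x w := fun _ _ => rfl
  have hq : ∀ x (w : W2), q x (U.mkQ w) = U.mkQ (σ x w) := fun _ _ => rfl
  have hmem : ∀ w : W2, w ∈ U ↔ (w : V) ∈ W1 := fun _ => Iff.rfl
  have hle : W1 ≤ W2 := h.lt.le
  refine ⟨W2 ⧸ U, inferInstance, inferInstance, inferInstance, q, ⟨?_, ?_⟩, ?_, ?_, ?_⟩
  · obtain ⟨v, hv, hv1⟩ := SetLike.exists_of_lt h.lt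
    refine ⟨⟨U.mkQ ⟨v, hv⟩, 0, fun h0 => hv1 ?_⟩⟩
    exact (Submodule.Quotient.mk_eq_zero U).1 h0
  · intro W' hW'
    let W : Submodule ℂ V := (W'.comap U.mkQ).map W2.subtype
    have hWm : ∀ w : W2, (w : V) ∈ W ↔ U.mkQ w ∈ W' := by
      intro w
      constructor
      · rintro ⟨u, hu, huw⟩
        have : u = w := Subtype.ext huw
        rw [← this]
        exact hu
      · intro hw
        exact ⟨w, hw, rfl⟩
    have hWle : W ≤ W2 := by
      rintro _ ⟨u, _, rfl⟩
      exact u.2
    have hst : Stb ρ W := by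
      intro x w hw
      have h1 := (hWm ⟨w, hWle hw⟩).1 hw
      have h2 := hW' x _ h1
      rw [hq] at h2
      exact (hWm _).2 h2
    have h1W : W1 ≤ W := by
      intro w hw
      refine (hWm ⟨w, hle hw⟩).2 ?_
      have : U.mkQ ⟨w, hle hw⟩ = 0 := (Submodule.Quotient.mk_eq_zero U).2 hw
      rw [this]
      exact W'.zero_mem
    rcases h.sim W hst h1W hWle with h3 | h3
    · left
      rw [eq_bot_iff]
      intro y hy
      obtain ⟨w, rfl⟩ := U.mkQ_surjective y
      have h4 := (hWm w).2 hy
      rw [h3] at h4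
      rw [Submodule.mem_bot]
      exact (Submodule.Quotient.mk_eq_zero U).2 h4
    · right
      rw [eq_top_iff]
      intro y _
      obtain ⟨w, rfl⟩ := U.mkQ_surjective y
      refine (hWm w).1 ?_
      rw [h3]
      exact w.2
  · have h1 := U.finrank_quotient_add_finrank
    have h2 : Module.finrank ℂ U = Module.finrank ℂ W1 :=
      (Submodule.comapSubtypeEquivOfLe hle).finrank_eq
    rw [h2] at h1
    exact h1
  · intro x
    constructor
    · intro h1 w hw
      have h2 := LinearMap.congr_fun h1 (U.mkQ ⟨w, hw⟩)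
      rw [hq, Module.End.one_apply, ← sub_eq_zero, ← map_sub] at h2
      exact (Submodule.Quotient.mk_eq_zero U).1 h2
    · intro h1
      apply LinearMap.ext
      intro y
      obtain ⟨w, rfl⟩ := U.mkQ_surjective y
      rw [hq, Module.End.one_apply, ← sub_eq_zero, ← map_sub]
      exact (Submodule.Quotient.mk_eq_zero U).2 (h1 w w.2)
  · rintro x ⟨r, hr⟩
    have hpow : ∀ (r : ℕ) (w : W2), ∃ w' : W2, (w' : V) = ((ρ x - 1) ^ r) w ∧
        ((q x - 1) ^ r) (U.mkQ w) = U.mkQ w' := by
      intro r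
      induction r with
      | zero => intro w; exact ⟨w, rfl, rfl⟩
      | succ r ihr =>
        intro w
        obtain ⟨w', h1, h2⟩ := ihr (σ x w - w)
        refine ⟨w', ?_, ?_⟩
        · rw [h1, pow_succ, Module.End.mul_apply]
          rfl
        · rw [← h2, pow_succ, Module.End.mul_apply]
          congr 1
    refine ⟨r, LinearMap.ext fun y => ?_⟩
    obtain ⟨w, rfl⟩ := U.mkQ_surjective y
    obtain ⟨w', h1, h2⟩ := hpow r w
    rw [h2]
    rw [hr] at h1
    have : w' = 0 := Subtype.ext h1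
    rw [this, map_zero]
    rfl
-- END CN5

-- MODULE CN6
/-- The dimension of a section. PROOF. sec_quo and irr_dim; the filter is sup by the third part of sec_quo (Finset.filter_congr). -/
theorem sec_dim (hP : PG g a b) [FiniteDimensional ℂ V] (ρ : P →* Module.End ℂ V)
    (hn : ∀ i, i < g → IsNilpotent (ρ (a i) - 1)) (W1 W2 : Submodule ℂ V) (h : Sec ρ W1 W2) :
    2 ^ (sup g a ρ W1 W2).card + Module.finrank ℂ W1 ≤ Module.finrank ℂ W2 := by
  classical
  obtain ⟨Q, _, _, _, q, h1, h2, h3, h4⟩ := sec_quo ρ W1 W2 h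
  have h5 := irr_dim hP q h1 fun i hi => h4 _ (hn i hi)
  have h6 : sup g a ρ W1 W2 = (Finset.range g).filter (fun i => q (a i) ≠ 1) := by
    ext i
    simp only [sup, Finset.mem_filter, h3, ne_eq]
  have h7 : (sup g a ρ W1 W2).card =
      ((Finset.range g).filter (fun i => q (a i) ≠ 1)).card := by
    rw [h6]
  rw [← h2, h7]
  have h8 : ((Finset.range g).filter (fun i => q (a i) ≠ 1)).card ≤
      ((Finset.range g).filter (fun i => q (a i) ≠ 1)).card := le_rfl
  refine Nat.add_le_add_right (le_trans (le_of_eq ?_) h5) _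
  congr!
-- END CN6

-- MODULE CN7
/-- Simple sections at the bottom and at the top. PROOF. (1) Take a stable U' > U of minimal dimension (⊤ is one; e.g. Nat.find or a minimal element by WellFounded of <). If U ≤ W ≤ U' is stable and W ≠ U then U < W, dim U' ≤ dim W, so W = U'. (2) Take a
stable W1 < W of maximal dimension (⊥ is one). -/
theorem exists_sec [FiniteDimensional ℂ V] (ρ : P →* Module.End ℂ V) (U : Submodule ℂ V)
    (hU : Stb ρ U) :
    (U ≠ ⊤ → ∃ U', Sec ρ U U') ∧ (U ≠ ⊥ → ∃ U', Sec ρ U' U) := by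
  constructor
  · intro hne
    obtain ⟨m, ⟨hm1, hm2⟩, hm⟩ := (wellFounded_lt (α := Submodule ℂ V)).has_min
      {W | Stb ρ W ∧ U < W} ⟨⊤, fun x w _ => Submodule.mem_top, lt_top_iff_ne_top.2 hne⟩
    refine ⟨m, hU, hm1, hm2, fun W hW hUW hWm => ?_⟩
    by_cases h : U = W
    · exact Or.inl h.symm
    · right
      by_contra h'
      exact hm W ⟨hW, lt_of_le_of_ne hUW h⟩ (lt_of_le_of_ne hWm h')
  · intro hne
    obtain ⟨m, ⟨hm1, hm2⟩, hm⟩ := (wellFounded_gt (α := Submodule ℂ V)).has_min
      {W | Stb ρ W ∧ W < U} ⟨⊥, fun x w hw => by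
        rw [(Submodule.mem_bot ℂ).1 hw, map_zero]
        exact Submodule.zero_mem _, bot_lt_iff_ne_bot.2 hne⟩
    refine ⟨m, hm1, hU, hm2, fun W hW hmW hWU => ?_⟩
    by_cases h : W = U
    · exact Or.inr h
    · left
      by_contra h'
      exact hm W ⟨hW, lt_of_le_of_ne hWU h⟩ (lt_of_le_of_ne hmW (Ne.symm h'))

-- MODULE CN8
private theorem CN8_sup {ρ : P →* Module.End ℂ V} {A B : Submodule ℂ V} (hA : Stb ρ A)
    (hB : Stb ρ B) : Stb ρ (A ⊔ B) := by
  intro x w hw
  obtain ⟨u, hu, v, hv, rfl⟩ := Submodule.mem_sup.1 hw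
  rw [map_add]
  exact Submodule.add_mem_sup (hA x u hu) (hB x v hv)

private theorem CN8_inf {ρ : P →* Module.End ℂ V} {A B : Submodule ℂ V} (hA : Stb ρ A)
    (hB : Stb ρ B) : Stb ρ (A ⊓ B) := fun x w hw => ⟨hA x w hw.1, hB x w hw.2⟩

/-- Pushing a simple section above U'. PROOF. Sums and intersections of stable subspaces are stable. Case 1: W1 ⊔ U' ≠ W2 ⊔ U'. Take W1' = W1 ⊔ U', W2' = W2 ⊔ U'. W2 ⊓ W1' is between W1 and W2; it is not W2 (else W2' = W1'), so it is W1. Simple: W1' ≤ W ≤ W2' stable. W ⊓ W2 is between W1 and W2.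
If W ⊓ W2 = W2 then W2 ≤ W, W = W2'. If W ⊓ W2 = W1: W = W ⊓ (W2 ⊔ U') = (W ⊓ W2) ⊔ U' (modular law, U' ≤ W) = W1'. Support: (ρ (a i) - 1) W2' ⊆ W1' iff (ρ (a i) - 1) W2 ⊆ W1' (U' is stable) iff (ρ (a i) - 1) W2 ⊆ W2 ⊓ W1' = W1.
Case 2: W1 ⊔ U' = W2 ⊔ U'. Then W2 ≤ W1 ⊔ U', so W2 = W1 ⊔ (W2 ⊓ U') (modular law). U ≤ W2 ⊓ U' ≤ U', so W2 ⊓ U' = U (then W2 = W1 ⊔ U = W1, contradiction) or U': U' ≤ W2, W2 = W1 ⊔ U'. W1 ⊓ U' is U or U'; U' would give U' ≤ W1, W2 = W1, contradiction; so
W1 ⊓ U' = U. (ρ (a i) - 1) W2 ⊆ W1 iff (ρ (a i) - 1) U' ⊆ W1 (W1 is stable, W2 = W1 ⊔ U') iff (ρ (a i) - 1) U' ⊆ W1 ⊓ U' = U: the supports are equal. -/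
theorem push (ρ : P →* Module.End ℂ V) (U U' W1 W2 : Submodule ℂ V) (hU : Sec ρ U U')
    (hW : Sec ρ W1 W2) (h : U ≤ W1) :
    sup g a ρ W1 W2 = sup g a ρ U U' ∨
      ∃ W1' W2', U' ≤ W1' ∧ Sec ρ W1' W2' ∧ sup g a ρ W1' W2' = sup g a ρ W1 W2 := by
  classical
  by_cases hc : W1 ⊔ U' = W2 ⊔ U'
  · left
    have hW2 : W2 ≤ W1 ⊔ U' := hc ▸ le_sup_left
    have h1 : W2 ⊓ U' = U' := by
      rcases hU.sim (W2 ⊓ U') (CN8_inf hW.s2 hU.s2) (le_inf (h.trans hW.lt.le) hU.lt.le)
        inf_le_right with h1 | h1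
      · exfalso
        have h2 : W2 ≤ W1 := by
          intro w hw
          obtain ⟨u, hu, v, hv, rfl⟩ := Submodule.mem_sup.1 (hW2 hw)
          have h3 : v ∈ W2 ⊓ U' := by
            refine ⟨?_, hv⟩
            have := W2.sub_mem hw (hW.lt.le hu)
            rwa [add_sub_cancel_left] at this
          rw [h1] at h3
          exact W1.add_mem hu (h h3)
        exact absurd h2 (not_le_of_gt hW.lt)
      · exact h1
    have hU2 : U' ≤ W2 := inf_eq_right.1 h1
    have h2 : W1 ⊓ U' = U := by
      rcases hU.sim (W1 ⊓ U') (CN8_inf hW.s1 hU.s2) (le_inf h hU.lt.le) inf_le_right with h2 | h2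
      · exact h2
      · exfalso
        have h3 : U' ≤ W1 := inf_eq_right.1 h2
        rw [sup_eq_left.2 h3] at hW2
        exact absurd hW2 (not_le_of_gt hW.lt)
    unfold sup
    refine Finset.filter_congr fun i _ => not_congr ⟨fun hi w hw => ?_, fun hi w hw => ?_⟩
    · rw [← h2]
      exact ⟨hi w (hU2 hw), U'.sub_mem (hU.s2 _ w hw) hw⟩
    · obtain ⟨u, hu, v, hv, rfl⟩ := Submodule.mem_sup.1 (hW2 hw)
      have e : ρ (a i) (u + v) - (u + v) = (ρ (a i) u - u) + (ρ (a i) v - v) := by
        rw [map_add]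
        abel
      rw [e]
      exact W1.add_mem (W1.sub_mem (hW.s1 _ u hu) hu) (h (hi v hv))
  · right
    have hinf : W2 ⊓ (W1 ⊔ U') = W1 := by
      rcases hW.sim (W2 ⊓ (W1 ⊔ U')) (CN8_inf hW.s2 (CN8_sup hW.s1 hU.s2))
        (le_inf hW.lt.le le_sup_left) inf_le_left with h1 | h1
      · exact h1
      · exfalso
        apply hc
        refine le_antisymm (sup_le_sup_right hW.lt.le _) (sup_le (inf_eq_left.1 h1) le_sup_right)
    refine ⟨W1 ⊔ U', W2 ⊔ U', le_sup_right, ⟨CN8_sup hW.s1 hU.s2, CN8_sup hW.s2 hU.s2,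
      lt_of_le_of_ne (sup_le_sup_right hW.lt.le _) hc, fun W hWs h1 h2 => ?_⟩, ?_⟩
    · rcases hW.sim (W ⊓ W2) (CN8_inf hWs hW.s2) (le_inf (le_sup_left.trans h1) hW.lt.le)
        inf_le_right with h3 | h3
      · left
        refine le_antisymm (fun w hw => ?_) h1
        obtain ⟨u, hu, v, hv, rfl⟩ := Submodule.mem_sup.1 (h2 hw)
        have h4 : v ∈ W := h1 (le_sup_right (a := W1) hv)
        have h5 : u ∈ W ⊓ W2 := by
          refine ⟨?_, hu⟩
          have := W.sub_mem hw h4
          rwa [add_sub_cancel_right] at this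
        rw [h3] at h5
        exact Submodule.add_mem_sup h5 hv
      · right
        exact le_antisymm h2 (sup_le (inf_eq_right.1 h3) (le_sup_right.trans h1))
    · unfold sup
      refine Finset.filter_congr fun i _ => not_congr ⟨fun hi w hw => ?_, fun hi w hw => ?_⟩
      · rw [← hinf]
        exact ⟨W2.sub_mem (hW.s2 _ w hw) hw, hi w (le_sup_left (b := U') hw)⟩
      · obtain ⟨u, hu, v, hv, rfl⟩ := Submodule.mem_sup.1 hw
        have e : ρ (a i) (u + v) - (u + v) = (ρ (a i) u - u) + (ρ (a i) v - v) := by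
          rw [map_add]
          abel
        rw [e]
        exact Submodule.add_mem_sup (hi u hu) (U'.sub_mem (hU.s2 _ v hv) hv)

open Classical in
/-- The supports of the simple sections above `U`. -/
noncomputable def supps (g : ℕ) {P : Type*} [Group P] (a : ℕ → P) (ρ : P →* Module.End ℂ V)
    (U : Submodule ℂ V) : Finset (Finset ℕ) :=
  (Finset.range g).powerset.filter
    (fun I => ∃ W1 W2, U ≤ W1 ∧ Sec ρ W1 W2 ∧ sup g a ρ W1 W2 = I)

-- MODULE CN9
/-- The sum over the supports. PROOF. Strong induction on dim V - dim U. If U = ⊤ there is no section above U (W1 < W2 ≤ ⊤ = U ≤ W1 impossible), the sum is 0. Otherwise take Sec ρ U U' (exists_sec). By push supps U ⊆ insert (sup U U') (supps U'), so the sum over supps U is at most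
2^|sup U U'| + the sum over supps U'; sec_dim: 2^|sup U U'| + dim U ≤ dim U'; induction hypothesis for U'. -/
theorem sum_le (hP : PG g a b) [FiniteDimensional ℂ V] (ρ : P →* Module.End ℂ V)
    (hn : ∀ i, i < g → IsNilpotent (ρ (a i) - 1)) (U : Submodule ℂ V) (hU : Stb ρ U) :
    ∑ I ∈ supps g a ρ U, 2 ^ I.card + Module.finrank ℂ U ≤ Module.finrank ℂ V := by
  classical
  obtain ⟨k, hk⟩ : ∃ k, k = Module.finrank ℂ V - Module.finrank ℂ U := ⟨_, rfl⟩
  induction k using Nat.strong_induction_on generalizing U with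
  | _ k ih =>
    by_cases hT : U = ⊤
    · have he : supps g a ρ U = ∅ := by
        rw [supps, Finset.filter_eq_empty_iff]
        rintro I - ⟨W1, W2, h1, h2, -⟩
        rw [hT, top_le_iff] at h1
        have h3 := h2.lt
        rw [h1] at h3
        exact not_top_lt h3
      rw [he, Finset.sum_empty, zero_add]
      exact Submodule.finrank_le U
    · obtain ⟨U', hS⟩ := (exists_sec ρ U hU).1 hT
      have hsub : supps g a ρ U ⊆ insert (sup g a ρ U U') (supps g a ρ U') := by
        intro I hI
        rw [supps, Finset.mem_filter] at hI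
        obtain ⟨hI1, W1, W2, h1, h2, h3⟩ := hI
        rcases push (g := g) (a := a) ρ U U' W1 W2 hS h2 h1 with h4 | ⟨W1', W2', h5, h6, h7⟩
        · rw [← h3, h4]
          exact Finset.mem_insert_self _ _
        · refine Finset.mem_insert_of_mem ?_
          rw [supps, Finset.mem_filter]
          exact ⟨hI1, W1', W2', h5, h6, h7.trans h3⟩
      have hlt : Module.finrank ℂ U < Module.finrank ℂ U' :=
        Submodule.finrank_lt_finrank_of_lt hS.lt
      have hle : Module.finrank ℂ U' ≤ Module.finrank ℂ V := Submodule.finrank_le _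
      have h8 := ih _ (by omega) U' hS.s2 rfl
      have h9 := sec_dim hP ρ hn U U' hS
      have h10 : ∑ I ∈ supps g a ρ U, 2 ^ I.card ≤
          2 ^ (sup g a ρ U U').card + ∑ I ∈ supps g a ρ U', 2 ^ I.card := by
        refine (Finset.sum_le_sum_of_subset hsub).trans ?_
        by_cases hm : sup g a ρ U U' ∈ supps g a ρ U'
        · rw [Finset.insert_eq_of_mem hm]
          exact Nat.le_add_left _ _
        · rw [Finset.sum_insert hm]
      omega
-- END CN9

-- MODULE CN10
/-- Transport of sections. PROOF. By stb_iff a stable W is mapped by δ to a stable subspace: ρ (a i) (δ w) = δ (ρ (a (swap p q i)) w) (apply hδa with swap p q i, which is < g; swap is an involution), the same for b; the same holds for δ.symm (comap): δ⁻¹ (ρ (a i) v) =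
ρ (a (swap p q i)) (δ⁻¹ v). map δ is strictly monotone (δ injective). Simple: W between W1.map δ and W2.map δ, stable; W.comap δ is stable and between W1 and W2. Support: (ρ (a i) - 1) (W2.map δ) ⊆ W1.map δ iff
(ρ (a (swap p q i)) - 1) W2 ⊆ W1. So i ∈ sup (map) iff swap p q i ∈ sup W1 W2, iff i ∈ image. -/
theorem sec_swap (hP : PG g a b) [FiniteDimensional ℂ V] (ρ : P →* Module.End ℂ V)
    (δ : V ≃ₗ[ℂ] V) (p q : ℕ) (hp : p < g) (hq : q < g)
    (hδa : ∀ i, i < g → ∀ v, δ (ρ (a i) v) = ρ (a (Equiv.swap p q i)) (δ v))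
    (hδb : ∀ i, i < g → ∀ v, δ (ρ (b i) v) = ρ (b (Equiv.swap p q i)) (δ v))
    (W1 W2 : Submodule ℂ V) (h : Sec ρ W1 W2) :
    Sec ρ (W1.map (δ : V →ₗ[ℂ] V)) (W2.map (δ : V →ₗ[ℂ] V)) ∧
    sup g a ρ (W1.map (δ : V →ₗ[ℂ] V)) (W2.map (δ : V →ₗ[ℂ] V)) =
      (sup g a ρ W1 W2).image (Equiv.swap p q) := by
  classical
  have hs : ∀ i, i < g → Equiv.swap p q i < g := by
    intro i hi
    rw [Equiv.swap_apply_def]
    split_ifs
    · exact hq
    · exact hp
    · exact hi
  have ha' : ∀ i, i < g → ∀ v, ρ (a i) (δ v) = δ (ρ (a (Equiv.swap p q i)) v) := by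
    intro i hi v
    rw [hδa _ (hs i hi), Equiv.swap_apply_self]
  have hb' : ∀ i, i < g → ∀ v, ρ (b i) (δ v) = δ (ρ (b (Equiv.swap p q i)) v) := by
    intro i hi v
    rw [hδb _ (hs i hi), Equiv.swap_apply_self]
  have hmap : ∀ W, Stb ρ W → Stb ρ (W.map (δ : V →ₗ[ℂ] V)) := by
    intro W hW
    rw [stb_iff hP]
    rw [stb_iff hP] at hW
    intro i hi
    constructor
    · rintro _ ⟨u, hu, rfl⟩
      exact ⟨ρ (a (Equiv.swap p q i)) u, (hW _ (hs i hi)).1 u hu, (ha' i hi u).symm⟩
    · rintro _ ⟨u, hu, rfl⟩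
      exact ⟨ρ (b (Equiv.swap p q i)) u, (hW _ (hs i hi)).2 u hu, (hb' i hi u).symm⟩
  have hcomap : ∀ W, Stb ρ W → Stb ρ (W.comap (δ : V →ₗ[ℂ] V)) := by
    intro W hW
    rw [stb_iff hP]
    rw [stb_iff hP] at hW
    intro i hi
    constructor
    · intro u hu
      show δ (ρ (a i) u) ∈ W
      rw [hδa i hi]
      exact (hW _ (hs i hi)).1 _ hu
    · intro u hu
      show δ (ρ (b i) u) ∈ W
      rw [hδb i hi]
      exact (hW _ (hs i hi)).2 _ hu
  have hinj : Function.Injective (δ : V →ₗ[ℂ] V) := δ.injective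
  have hsurj : Function.Surjective (δ : V →ₗ[ℂ] V) := δ.surjective
  refine ⟨⟨hmap _ h.s1, hmap _ h.s2, Submodule.map_strictMono_of_injective hinj h.lt, ?_⟩, ?_⟩
  · intro W hW h1 h2
    have h3 : W1 ≤ W.comap (δ : V →ₗ[ℂ] V) := Submodule.map_le_iff_le_comap.1 h1
    have h4 : W.comap (δ : V →ₗ[ℂ] V) ≤ W2 := by
      have h5 := Submodule.comap_mono (f := (δ : V →ₗ[ℂ] V)) h2
      rwa [Submodule.comap_map_eq_of_injective hinj] at h5
    have h6 : (W.comap (δ : V →ₗ[ℂ] V)).map (δ : V →ₗ[ℂ] V) = W :=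
      Submodule.map_comap_eq_of_surjective hsurj W
    rcases h.sim _ (hcomap W hW) h3 h4 with h7 | h7
    · left
      rw [← h6, h7]
    · right
      rw [← h6, h7]
  · have key : ∀ i, i < g → ((∀ w ∈ W2.map (δ : V →ₗ[ℂ] V),
        ρ (a i) w - w ∈ W1.map (δ : V →ₗ[ℂ] V)) ↔
          ∀ w ∈ W2, ρ (a (Equiv.swap p q i)) w - w ∈ W1) := by
      intro i hi
      constructor
      · intro h1 w hw
        obtain ⟨u, hu, hu2⟩ := h1 (δ w) ⟨w, hw, rfl⟩
        have h2 : ρ (a (Equiv.swap p q i)) w - w = u := by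
          apply hinj
          rw [hu2, ha' i hi, map_sub]
          rfl
        rw [h2]
        exact hu
      · rintro h1 _ ⟨u, hu, rfl⟩
        refine ⟨_, h1 u hu, ?_⟩
        rw [map_sub]
        show δ (ρ (a (Equiv.swap p q i)) u) - δ u = ρ (a i) (δ u) - δ u
        rw [ha' i hi]
    ext i
    rw [sup, sup, Finset.mem_filter, Finset.mem_range, Finset.mem_image]
    constructor
    · rintro ⟨hi, h1⟩
      refine ⟨Equiv.swap p q i, ?_, Equiv.swap_apply_self _ _ _⟩
      rw [Finset.mem_filter, Finset.mem_range]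
      exact ⟨hs i hi, fun h2 => h1 ((key i hi).2 h2)⟩
    · rintro ⟨j, hj, rfl⟩
      rw [Finset.mem_filter, Finset.mem_range] at hj
      refine ⟨hs j hj.1, fun h2 => hj.2 ?_⟩
      have h3 := (key _ (hs j hj.1)).1 h2
      rwa [Equiv.swap_apply_self] at h3
-- END CN10

end grp

-- MODULE CN11
private theorem CN11_range (J : Finset ℕ) (h : ∀ i, i + 1 ∈ J → i ∈ J) :
    J = Finset.range J.card := by
  have h1 : ∀ x ∈ J, Finset.range (x + 1) ⊆ J := by
    intro x
    induction x with
    | zero =>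
      intro hx y hy
      rw [Finset.mem_range] at hy
      have : y = 0 := by omega
      rw [this]
      exact hx
    | succ x ih =>
      intro hx y hy
      rw [Finset.mem_range] at hy
      rcases Nat.lt_or_ge y (x + 1) with h2 | h2
      · exact ih (h x hx) (Finset.mem_range.2 h2)
      · have : y = x + 1 := by omega
        rw [this]
        exact hx
  apply Finset.eq_of_subset_of_card_le
  · intro x hx
    have h2 := Finset.card_le_card (h1 x hx)
    rw [Finset.card_range] at h2
    exact Finset.mem_range.2 h2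
  · rw [Finset.card_range]

private theorem CN11_iff (g : ℕ) (Q : Finset ℕ → Prop)
    (hQ : ∀ i, i + 1 < g → ∀ I, I ⊆ Finset.range g → Q I → Q (I.image (Equiv.swap i (i + 1)))) :
    ∀ N : ℕ, ∀ J : Finset ℕ, J ⊆ Finset.range g → ∑ j ∈ J, j = N →
      (Q J ↔ Q (Finset.range J.card)) := by
  intro N
  induction N using Nat.strong_induction_on with
  | _ N ih =>
    intro J hJ hN
    by_cases h : ∀ i, i + 1 ∈ J → i ∈ J
    · rw [← CN11_range J h]
    · push Not at h
      obtain ⟨i, hi1, hi2⟩ := h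
      have hig : i + 1 < g := Finset.mem_range.1 (hJ hi1)
      have hinj : Function.Injective (Equiv.swap i (i + 1)) := (Equiv.swap i (i + 1)).injective
      have h1 : J.image (Equiv.swap i (i + 1)) ⊆ Finset.range g := by
        intro x hx
        obtain ⟨y, hy, rfl⟩ := Finset.mem_image.1 hx
        rw [Equiv.swap_apply_def]
        split_ifs
        · exact Finset.mem_range.2 hig
        · exact Finset.mem_range.2 (by omega)
        · exact hJ hy
      have h2 : (J.image (Equiv.swap i (i + 1))).card = J.card :=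
        Finset.card_image_of_injective _ hinj
      have h3 : (J.image (Equiv.swap i (i + 1))).image (Equiv.swap i (i + 1)) = J := by
        rw [Finset.image_image]
        have h4 : (Equiv.swap i (i + 1) : ℕ → ℕ) ∘ (Equiv.swap i (i + 1)) = id := by
          funext x
          exact Equiv.swap_apply_self _ _ _
        rw [h4, Finset.image_id]
      have h5 : ∑ j ∈ J.image (Equiv.swap i (i + 1)), j < N := by
        rw [Finset.sum_image (fun x _ y _ hxy => hinj hxy), ← hN]
        refine Finset.sum_lt_sum (fun x hx => ?_) ⟨i + 1, hi1, ?_⟩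
        · rw [Equiv.swap_apply_def]
          split_ifs with c1 c2
          · exact absurd (c1 ▸ hx) hi2
          · omega
          · exact le_rfl
        · rw [Equiv.swap_apply_right]
          omega
      have h6 := ih _ h5 _ h1 rfl
      rw [h2] at h6
      rw [← h6]
      constructor
      · exact hQ i hig J hJ
      · intro h7
        have h8 := hQ i hig _ h1 h7
        rwa [h3] at h8

/-- All subsets of the same cardinality are reached by adjacent transpositions. PROOF. For J ⊆ range g put σ(J) = Σ_(j ∈ J) j. If J ≠ range |J| then there is i with i ∉ J, i + 1 ∈ J (otherwise J is closed under predecessors, so J = range |J|); J' = J.image (swap i (i+1)) =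
insert i (J.erase (i+1)) ⊆ range g has the same cardinality and σ(J') < σ(J), and J = J'.image (swap i (i+1)). (1) Strong induction on σ: if Q J then Q (range |J|). (2) Strong induction on σ: if Q (range |J|) then Q J. -/
theorem all_of_swap (g : ℕ) (Q : Finset ℕ → Prop)
    (hQ : ∀ i, i + 1 < g → ∀ I, I ⊆ Finset.range g → Q I → Q (I.image (Equiv.swap i (i + 1))))
    (I : Finset ℕ) (hI : I ⊆ Finset.range g) (h : Q I) (J : Finset ℕ) (hJ : J ⊆ Finset.range g)
    (hc : J.card = I.card) : Q J := by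
  have key := CN11_iff g Q hQ
  rw [key _ J hJ rfl, hc, ← key _ I hI rfl]
  exact h
-- END CN11

-- MODULE CN12
/-- PROOF. s = 2: equality (Nat.choose_two_right; 2 * (g choose 2) = g (g-1)). 2 ≤ s ≤ g - 2: g choose s ≥ g choose 2 (unimodality: Nat.choose_le_succ_of_lt_half_left and symmetry Nat.choose_symm; or Pascal induction on g: (g+1 choose s) = (g choose s-1) + (g choose s) ≥ g + ...), and 2^s ≥ 4. s = g - 1:
g * 2^(g-1) and 2^(g-1) ≥ 2 (g-1). s = g: 2^g ≥ 2 g (g-1) for g ≥ 6, by induction (g = 6: 64 ≥ 60; 2^(g+1) = 2 * 2^g ≥ 4 g (g-1) ≥ 2 (g+1) g). -/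
theorem choose_bound (g s : ℕ) (hg : 6 ≤ g) (h2 : 2 ≤ s) (hs : s ≤ g) :
    2 * g * (g - 1) ≤ g.choose s * 2 ^ s := by
  induction g, hg using Nat.le_induction generalizing s with
  | base => interval_cases s <;> decide
  | succ g hg ih =>
    obtain ⟨k, rfl⟩ : ∃ k, s = k + 1 := ⟨s - 1, by omega⟩
    rw [Nat.choose_succ_succ]
    obtain ⟨m, rfl⟩ : ∃ m, g = m + 1 := ⟨g - 1, by omega⟩
    rcases Nat.lt_or_ge k 2 with h3 | h3
    · have hk : k = 1 := by omega
      subst hk
      have h4 := ih 2 le_rfl (by omega)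
      have e1 : (m + 1).choose (Nat.succ 1) = (m + 1).choose 2 := rfl
      rw [Nat.choose_one_right, e1]
      simp only [Nat.add_sub_cancel] at h4 ⊢
      generalize (m + 1).choose 2 = z at h4 ⊢
      norm_num at h4 ⊢
      nlinarith
    · have h4 := ih k h3 (by omega)
      simp only [Nat.add_sub_cancel] at h4 ⊢
      have h5 : 2 * (2 * (m + 1) * m) ≤ ((m + 1).choose k + (m + 1).choose (k + 1)) * 2 ^ (k + 1) := by
        calc 2 * (2 * (m + 1) * m) ≤ 2 * ((m + 1).choose k * 2 ^ k) := Nat.mul_le_mul_left 2 h4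
          _ = (m + 1).choose k * 2 ^ (k + 1) := by rw [pow_succ]; ring
          _ ≤ _ := Nat.mul_le_mul_right _ (Nat.le_add_right _ _)
      refine le_trans ?_ h5
      nlinarith
-- END CN12

section grp2

variable {g : ℕ} {P : Type*} [Group P] {a b : ℕ → P}

-- MODULE CN13
/-- Small supports. PROOF. Suppose s = |sup W1 W2| ≥ 2. Q I := ∃ W1 W2, Sec ρ W1 W2 ∧ sup W1 W2 = I is invariant under swap i (i+1), i + 1 < g (sec_swap with the δ of hsw). all_of_swap: every J ⊆ range g with |J| = s is in supps ⊥ (so Finset.powersetCard s (range g) ⊆ supps g a ρ ⊥). sum_le with U = ⊥: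
(g choose s) * 2^s ≤ dim V (Finset.sum_le_sum_of_subset, Finset.card_powersetCard), contradiction to choose_bound. -/
theorem sup_le_one (hP : PG g a b) [FiniteDimensional ℂ V] (ρ : P →* Module.End ℂ V)
    (hn : ∀ i, i < g → IsNilpotent (ρ (a i) - 1)) (hg : 6 ≤ g)
    (hV : Module.finrank ℂ V < 2 * g * (g - 1))
    (hsw : ∀ i, i + 1 < g → ∃ δ : V ≃ₗ[ℂ] V,
      (∀ j, j < g → ∀ v, δ (ρ (a j) v) = ρ (a (Equiv.swap i (i + 1) j)) (δ v)) ∧
      ∀ j, j < g → ∀ v, δ (ρ (b j) v) = ρ (b (Equiv.swap i (i + 1) j)) (δ v))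
    (W1 W2 : Submodule ℂ V) (h : Sec ρ W1 W2) : (sup g a ρ W1 W2).card ≤ 1 := by
  classical
  by_contra hcon
  have h2 : 2 ≤ (sup g a ρ W1 W2).card := by omega
  have hsub : ∀ W1 W2, sup g a ρ W1 W2 ⊆ Finset.range g := fun W1 W2 =>
    Finset.filter_subset _ _
  let Q : Finset ℕ → Prop := fun I => ∃ W1 W2, Sec ρ W1 W2 ∧ sup g a ρ W1 W2 = I
  have hQ : ∀ i, i + 1 < g → ∀ I, I ⊆ Finset.range g → Q I →
      Q (I.image (Equiv.swap i (i + 1))) := by
    rintro i hi I _ ⟨U1, U2, hS, rfl⟩
    obtain ⟨δ, h3, h4⟩ := hsw i hi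
    obtain ⟨h5, h6⟩ := sec_swap hP ρ δ i (i + 1) (by omega) hi h3 h4 U1 U2 hS
    exact ⟨_, _, h5, h6⟩
  have hall : Finset.powersetCard (sup g a ρ W1 W2).card (Finset.range g) ⊆ supps g a ρ ⊥ := by
    intro J hJ
    rw [Finset.mem_powersetCard] at hJ
    obtain ⟨U1, U2, h3, h4⟩ := all_of_swap g Q hQ _ (hsub W1 W2) ⟨W1, W2, h, rfl⟩ J hJ.1 hJ.2
    rw [supps, Finset.mem_filter, Finset.mem_powerset]
    exact ⟨hJ.1, U1, U2, bot_le, h3, h4⟩
  have hbot : Stb ρ ⊥ := by
    intro x w hw
    rw [Submodule.mem_bot] at hw ⊢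
    rw [hw, map_zero]
  have h3 := sum_le hP ρ hn ⊥ hbot
  have h4 : ∑ I ∈ Finset.powersetCard (sup g a ρ W1 W2).card (Finset.range g), 2 ^ I.card ≤
      ∑ I ∈ supps g a ρ ⊥, 2 ^ I.card := Finset.sum_le_sum_of_subset hall
  have h5 : ∑ I ∈ Finset.powersetCard (sup g a ρ W1 W2).card (Finset.range g), 2 ^ I.card =
      g.choose (sup g a ρ W1 W2).card * 2 ^ (sup g a ρ W1 W2).card := by
    rw [Finset.sum_congr rfl (fun I hI => by rw [(Finset.mem_powersetCard.1 hI).2]),
      Finset.sum_const, Finset.card_powersetCard, Finset.card_range, smul_eq_mul]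
  have h6 : (sup g a ρ W1 W2).card ≤ g := by
    have h7 := Finset.card_le_card (hsub W1 W2)
    rwa [Finset.card_range] at h7
  have h7 := choose_bound g _ hg h2 h6
  rw [h5] at h4
  omega
-- END CN13

/-- Words in `x - 1` and `y - 1`. -/
def wd (x y : Module.End ℂ V) (l : List Bool) : Module.End ℂ V :=
  (l.map (fun t => if t then y - 1 else x - 1)).prod

-- MODULE CN14
private theorem CN14_wd (x y : Module.End ℂ V) (l : List Bool) (t : Bool) :
    wd x y (l ++ [t]) = wd x y l * (if t then y - 1 else x - 1) := by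
  rw [wd, wd, List.map_append, List.prod_append]
  simp

private theorem CN14_sub {x y : Module.End ℂ V} (h : Commute x y) : Commute (x - 1) (y - 1) :=
  (h.sub_left (Commute.one_left y)).sub_right (Commute.one_right _)

private theorem CN14_com (z x y : Module.End ℂ V) (hx : Commute z (x - 1))
    (hy : Commute z (y - 1)) (l : List Bool) : Commute z (wd x y l) := by
  induction l with
  | nil =>
    rw [wd, List.map_nil, List.prod_nil]
    exact Commute.one_right _
  | cons t l ih =>
    have h1 : wd x y (t :: l) = (if t then y - 1 else x - 1) * wd x y l := by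
      rw [wd, wd, List.map_cons, List.prod_cons]
    rw [h1]
    refine Commute.mul_right ?_ ih
    cases t
    · exact hx
    · exact hy

private theorem CN14_b (hP : PG g a b) [FiniteDimensional ℂ V] (ρ : P →* Module.End ℂ V)
    {W1 W : Submodule ℂ V} (hS : Sec ρ W1 W) {i : ℕ} (hi : i < g) (h : i ∉ sup g a ρ W1 W) :
    (∀ w ∈ W, (ρ (a i) - 1) w ∈ W1) ∧ ∀ w ∈ W, (ρ (b i) - 1) w ∈ W1 := by
  classical
  have h1 : ∀ w ∈ W, ρ (a i) w - w ∈ W1 := by
    by_contra hcon
    apply h
    rw [sup, Finset.mem_filter, Finset.mem_range]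
    exact ⟨hi, hcon⟩
  refine ⟨h1, ?_⟩
  obtain ⟨Q, _, _, _, q, -, -, hq, -⟩ := sec_quo ρ W1 W hS
  have h2 : q (a i) = 1 := (hq _).2 h1
  have h3 : q (b i) = 1 := by
    have h4 : a i * b i * a i = b i * a i * b i := hP.br i hi
    have h5 := congrArg q h4
    rw [map_mul, map_mul, map_mul, map_mul, h2, one_mul, mul_one] at h5
    have h6 : q (b i)⁻¹ * q (b i) = 1 := by rw [← map_mul, inv_mul_cancel, map_one]
    calc q (b i) = (q (b i)⁻¹ * q (b i)) * q (b i) := by rw [h6, one_mul]
      _ = q (b i)⁻¹ * (q (b i) * q (b i)) := mul_assoc _ _ _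
      _ = q (b i)⁻¹ * q (b i) := by rw [← h5]
      _ = 1 := h6
  exact (hq _).1 h3

/-- Words in the pair i times words in the pair j vanish. PROOF. Claim, by strong induction on dim W: for every stable W, all l, l' with dim W ≤ |l|, |l'|, and w ∈ W: (wd l * wd l') w = 0. W = ⊥: w = 0. Otherwise take Sec ρ W1 W (exists_sec). By hs i or j is not in sup W1 W. Suppose
i ∉ sup: (ρ (a i) - 1) W ⊆ W1. Also (ρ (b i) - 1) W ⊆ W1: take the q of sec_quo: q (a i) = 1, the braid relation gives q (b i) = q (b i) * q (b i), so q (b i) = 1 (invertible). l is not empty (dim W ≥ 1): l = l0 ++ [t] (List.eq_nil_or_concat); wd l = wd l0 * x_t, x_t = ρ (b i) - 1 or ρ (a i) - 1,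
which commutes with wd l' (all letters of the pair j commute with the pair i): (wd l * wd l') w = (wd l0 * wd l') (x_t w), x_t w ∈ W1, dim W1 < dim W ≤ |l|, so dim W1 ≤ |l0|: induction hypothesis. If j ∉ sup: l' = l0' ++ [t], (wd l * wd l') w = (wd l * wd l0') (y_t w). Finally W = ⊤. -/
theorem words_zero (hP : PG g a b) [FiniteDimensional ℂ V] (ρ : P →* Module.End ℂ V)
    (hs : ∀ W1 W2, Sec ρ W1 W2 → (sup g a ρ W1 W2).card ≤ 1) (i j : ℕ) (hi : i < g) (hj : j < g)
    (hij : i ≠ j) (l l' : List Bool) (hl : Module.finrank ℂ V ≤ l.length)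
    (hl' : Module.finrank ℂ V ≤ l'.length) :
    wd (ρ (a i)) (ρ (b i)) l * wd (ρ (a j)) (ρ (b j)) l' = 0 := by
  classical
  have hmain : ∀ n : ℕ, ∀ W : Submodule ℂ V, Stb ρ W → Module.finrank ℂ W = n →
      ∀ l l' : List Bool, n ≤ l.length → n ≤ l'.length → ∀ w ∈ W,
        (wd (ρ (a i)) (ρ (b i)) l * wd (ρ (a j)) (ρ (b j)) l') w = 0 := by
    intro n
    induction n using Nat.strong_induction_on with
    | _ n ih =>
      intro W hW hn l l' hl hl' w hw
      by_cases hb : W = ⊥
      · rw [hb, Submodule.mem_bot] at hw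
        rw [hw, map_zero]
      · obtain ⟨W1, hS⟩ := (exists_sec ρ W hW).2 hb
        have hlt : Module.finrank ℂ W1 < n := by
          rw [← hn]
          exact Submodule.finrank_lt_finrank_of_lt hS.lt
        have hcard := hs W1 W hS
        by_cases h1 : i ∈ sup g a ρ W1 W
        · have h2 : j ∉ sup g a ρ W1 W := by
            intro h2
            exact hij (Finset.card_le_one.1 hcard i h1 j h2)
          obtain ⟨h3, h4⟩ := CN14_b hP ρ hS hj h2
          obtain ⟨l0, t, rfl⟩ : ∃ l0 t, l' = l0 ++ [t] := by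
            rcases List.eq_nil_or_concat l' with h5 | ⟨l0, t, h5⟩
            · rw [h5] at hl'
              simp at hl'
              omega
            · exact ⟨l0, t, by rw [h5, List.concat_eq_append]⟩
          rw [List.length_append, List.length_singleton] at hl'
          have h6 := ih _ hlt W1 hS.s1 rfl l l0 (by omega) (by omega)
            ((if t then ρ (b j) - 1 else ρ (a j) - 1) w) (by
              cases t
              · exact h3 w hw
              · exact h4 w hw)
          rw [CN14_wd, ← mul_assoc, Module.End.mul_apply]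
          exact h6
        · obtain ⟨h3, h4⟩ := CN14_b hP ρ hS hi h1
          obtain ⟨l0, t, rfl⟩ : ∃ l0 t, l = l0 ++ [t] := by
            rcases List.eq_nil_or_concat l with h5 | ⟨l0, t, h5⟩
            · rw [h5] at hl
              simp at hl
              omega
            · exact ⟨l0, t, by rw [h5, List.concat_eq_append]⟩
          rw [List.length_append, List.length_singleton] at hl
          have h6 := ih _ hlt W1 hS.s1 rfl l0 l' (by omega) (by omega)
            ((if t then ρ (b i) - 1 else ρ (a i) - 1) w) (by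
              cases t
              · exact h3 w hw
              · exact h4 w hw)
          have e1 : Commute (ρ (a i)) (ρ (a j)) := (hP.aa i j hi hj hij).map ρ
          have e2 : Commute (ρ (a i)) (ρ (b j)) := (hP.ab i j hi hj hij).map ρ
          have e3 : Commute (ρ (b i)) (ρ (a j)) := ((hP.ab j i hj hi hij.symm).map ρ).symm
          have e4 : Commute (ρ (b i)) (ρ (b j)) := (hP.bb i j hi hj hij).map ρ
          have h7 : Commute (if t then ρ (b i) - 1 else ρ (a i) - 1)
              (wd (ρ (a j)) (ρ (b j)) l') := by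
            cases t
            · exact CN14_com _ _ _ (CN14_sub e1) (CN14_sub e2) l'
            · exact CN14_com _ _ _ (CN14_sub e3) (CN14_sub e4) l'
          rw [CN14_wd, mul_assoc, h7.eq, ← mul_assoc, Module.End.mul_apply]
          exact h6
  have hT : Stb ρ ⊤ := fun _ _ _ => trivial
  apply LinearMap.ext
  intro w
  exact hmain _ ⊤ hT rfl l l' (by rw [finrank_top]; exact hl) (by rw [finrank_top]; exact hl') w
    trivial
-- END CN14

end grp2

end Pool.Agent.QR80
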