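import Pool.Agent.HG13.Rep
import Pool.Agent.QR80.Cnt

set_option linter.all false

namespace Pool.Agent.QR80

open Pool.Agent.HG13

universe u

variable {V : Type u} [AddCommGroup V] [Module ℂ V]

-- MODULE TW1
/-- The additive group generated by the words of length at least `k`. -/
private def TW1_Z {R : Type*} [Ring R] (α β : R) (k : ℕ) : AddSubgroup R :=
  AddSubgroup.closure {x | ∃ l : List Bool, k ≤ l.length ∧
    x = (l.map (fun t => if t then β else α)).prod}

private theorem TW1_left {R : Type*} [Ring R] (α β : R) (t : Bool) (k : ℕ) (x : R)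
    (hx : x ∈ TW1_Z α β k) : (if t then β else α) * x ∈ TW1_Z α β (k + 1) := by
  unfold TW1_Z at hx ⊢
  induction hx using AddSubgroup.closure_induction with
  | mem x hx =>
    obtain ⟨l, hl, rfl⟩ := hx
    refine AddSubgroup.subset_closure ⟨t :: l, ?_, ?_⟩
    · rw [List.length_cons]
      omega
    · rw [List.map_cons, List.prod_cons]
  | zero =>
    rw [mul_zero]
    exact zero_mem _
  | add x y _ _ hx hy =>
    rw [mul_add]
    exact add_mem hx hy
  | neg x _ hx =>
    rw [mul_neg]
    exact neg_mem hx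

private theorem TW1_right {R : Type*} [Ring R] (α β : R) (t : Bool) (k : ℕ) (x : R)
    (hx : x ∈ TW1_Z α β k) : x * (if t then β else α) ∈ TW1_Z α β (k + 1) := by
  unfold TW1_Z at hx ⊢
  induction hx using AddSubgroup.closure_induction with
  | mem x hx =>
    obtain ⟨l, hl, rfl⟩ := hx
    refine AddSubgroup.subset_closure ⟨l ++ [t], ?_, ?_⟩
    · rw [List.length_append, List.length_singleton]
      omega
    · rw [List.map_append, List.prod_append, List.map_singleton, List.prod_singleton]
  | zero =>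
    rw [zero_mul]
    exact zero_mem _
  | add x y _ _ hx hy =>
    rw [add_mul]
    exact add_mem hx hy
  | neg x _ hx =>
    rw [neg_mul]
    exact neg_mem hx

private theorem TW1_mono {R : Type*} [Ring R] (α β : R) (k : ℕ) :
    TW1_Z α β (k + 1) ≤ TW1_Z α β k := by
  refine AddSubgroup.closure_mono ?_
  rintro x ⟨l, hl, hx⟩
  exact ⟨l, by omega, hx⟩

private theorem TW1_zero {R : Type*} [Ring R] (α β : R) (n : ℕ)
    (h : ∀ l : List Bool, l.length = n → (l.map (fun t => if t then β else α)).prod = 0) (x : R)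
    (hx : x ∈ TW1_Z α β n) : x = 0 := by
  unfold TW1_Z at hx
  induction hx using AddSubgroup.closure_induction with
  | mem x hx =>
    obtain ⟨l, hl, rfl⟩ := hx
    rw [← List.take_append_drop n l, List.map_append, List.prod_append,
      h (l.take n) (List.length_take_of_le hl), zero_mul]
  | zero => rfl
  | add x y _ _ hx hy => rw [hx, hy, add_zero]
  | neg x _ hx => rw [hx, neg_zero]

/-- In a nilpotent situation the braid relation means equality.
PROOF. Let Z k be the additive subgroup of R generated by the products of words (l.map ...).prod with k ≤ |l|. α Z k, β Z k, Z k α, Z k β ⊆ Z (k+1) ⊆ Z k (k ≥ ..). D = α - β ∈ Z 1. The braid relation, expanded: α + α α + α β α = β + β β + β α β. With D = α - β: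
α D + D β = α α - β β and α β D + (-(α D) + D α) β = α β α - β α β, so D = -(α D + D β) - (α β D + (-(α D) + D α) β) (noncomm_ring). So D ∈ Z k implies D ∈ Z (k+1). Z n = 0: a word of length ≥ n is (word of length n) * word. Hence D = 0. -/
theorem nil_eq {R : Type*} [Ring R] (α β : R) (hb : Brd (1 + α) (1 + β)) (n : ℕ)
    (h : ∀ l : List Bool, l.length = n → (l.map (fun t => if t then β else α)).prod = 0) :
    α = β := by
  have hD : ∀ k, α - β ∈ TW1_Z α β k := by
    intro k
    induction k with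
    | zero =>
      have h1 : α ∈ TW1_Z α β 0 := AddSubgroup.subset_closure ⟨[false], Nat.zero_le _, by simp⟩
      have h2 : β ∈ TW1_Z α β 0 := AddSubgroup.subset_closure ⟨[true], Nat.zero_le _, by simp⟩
      exact sub_mem h1 h2
    | succ k ih =>
      have e : α - β = -(α * (α - β) + (α - β) * β) -
          (α * (β * (α - β)) + (-(α * (α - β) * β) + (α - β) * α * β)) := by
        have h2 : (1 + α) * (1 + β) * (1 + α) - (1 + β) * (1 + α) * (1 + β) = 0 :=
          sub_eq_zero.mpr hb
        have h3 : α - β + (α * (α - β) + (α - β) * β) +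
            (α * (β * (α - β)) + (-(α * (α - β) * β) + (α - β) * α * β)) =
              (1 + α) * (1 + β) * (1 + α) - (1 + β) * (1 + α) * (1 + β) := by
          noncomm_ring
        rw [h2] at h3
        rw [eq_sub_iff_add_eq, eq_neg_iff_add_eq_zero, ← h3]
        abel
      have a1 : α * (α - β) ∈ TW1_Z α β (k + 1) := TW1_left α β false k _ ih
      have a2 : (α - β) * β ∈ TW1_Z α β (k + 1) := TW1_right α β true k _ ih
      have a3 : α * (β * (α - β)) ∈ TW1_Z α β (k + 1) :=
        TW1_mono α β (k + 1) (TW1_left α β false (k + 1) _ (TW1_left α β true k _ ih))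
      have a4 : α * (α - β) * β ∈ TW1_Z α β (k + 1) :=
        TW1_mono α β (k + 1) (TW1_right α β true (k + 1) _ a1)
      have a5 : (α - β) * α * β ∈ TW1_Z α β (k + 1) :=
        TW1_mono α β (k + 1) (TW1_right α β true (k + 1) _ (TW1_right α β false k _ ih))
      rw [e]
      exact sub_mem (neg_mem (add_mem a1 a2)) (add_mem a3 (add_mem (neg_mem a4) a5))
  exact sub_eq_zero.mp (TW1_zero α β n h _ (hD n))
-- END TW1

-- MODULE TW2
private theorem TW2_one (σ : Ch →* Module.End ℂ V) (n : ℕ)
    (h : ∀ l : List Bool, l.length = n → wd (σ (ch 0)) (σ (ch 1)) l = 0) :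
    ∀ k ∈ KK, σ k = 1 := by
  have h1 : σ (ch 0) - 1 = σ (ch 1) - 1 := by
    refine nil_eq (σ (ch 0) - 1) (σ (ch 1) - 1) ?_ n h
    rw [add_sub_cancel, add_sub_cancel]
    exact (isChain_map σ).brd 0 1 rfl
  have h2 : σ (ch 0) = σ (ch 1) := sub_left_injective h1
  have h3 : KK ≤ σ.ker := by
    refine Subgroup.normalClosure_le_normal ?_
    rw [Set.singleton_subset_iff, SetLike.mem_coe, MonoidHom.mem_ker, map_mul, ← h2, ← map_mul,
      mul_inv_cancel, map_one]
  exact fun k hk => MonoidHom.mem_ker.mp (h3 hk)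

private theorem TW2_wd_comm (x y z : Module.End ℂ V) (hx : Commute z x) (hy : Commute z y)
    (l : List Bool) : Commute z (wd x y l) := by
  induction l with
  | nil => exact Commute.one_right z
  | cons t l ih =>
    have h1 : wd x y (t :: l) = (if t then y - 1 else x - 1) * wd x y l := by
      unfold wd
      rw [List.map_cons, List.prod_cons]
    rw [h1]
    refine Commute.mul_right ?_ ih
    cases t
    · exact hx.sub_right (Commute.one_right z)
    · exact hy.sub_right (Commute.one_right z)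

/-- The jointly irreducible case.
PROOF. Suppose some word wd (σ (ch 0)) (σ (ch 1)) l =: φ with |l| = n and some word ψ = wd (τ (ch 0)) (τ (ch 1)) l' with |l'| = n are both non-zero. U = span of all σ x (τ y (ψ v)) is stable under σ and τ (σ x' (σ x (τ y ..)) = σ (x' x) ..; τ y' commutes with σ x), non-zero
(x = y = 1), so U = ⊤. φ kills U: φ (σ x (τ y (ψ v))): φ commutes with τ y (φ is a product of elements σ (..) - 1), σ x commutes with τ y and with ψ: φ σ x τ y ψ = τ y φ σ x ψ = τ y φ ψ σ x = 0. So φ = 0, contradiction. Hence all words of length n for σ vanish, or all those for τ. If those for σ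
vanish: nil_eq with α = σ (ch 0) - 1, β = σ (ch 1) - 1 (braid relation: (isChain_map σ).brd 0 1): σ (ch 0) = σ (ch 1), so ch 1 * (ch 0)⁻¹ is in σ.ker (normal), KK ≤ ker (Subgroup.normalClosure_le_normal; see lemD4). The same for τ. -/
theorem irr_two (σ τ : Ch →* Module.End ℂ V) (hc : ∀ x y, Commute (σ x) (τ y))
    (hirr : ∀ W : Submodule ℂ V, (∀ x, ∀ w ∈ W, σ x w ∈ W) → (∀ x, ∀ w ∈ W, τ x w ∈ W) →
      W = ⊥ ∨ W = ⊤) (n : ℕ)
    (h : ∀ l l' : List Bool, l.length = n → l'.length = n →
      wd (σ (ch 0)) (σ (ch 1)) l * wd (τ (ch 0)) (τ (ch 1)) l' = 0) :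
    (∀ k ∈ KK, σ k = 1) ∨ (∀ k ∈ KK, τ k = 1) := by
  by_cases hA : ∀ l : List Bool, l.length = n → wd (σ (ch 0)) (σ (ch 1)) l = 0
  · exact Or.inl (TW2_one σ n hA)
  by_cases hB : ∀ l : List Bool, l.length = n → wd (τ (ch 0)) (τ (ch 1)) l = 0
  · exact Or.inr (TW2_one τ n hB)
  exfalso
  push Not at hA hB
  obtain ⟨l, hl, hφ⟩ := hA
  obtain ⟨l', hl', hψ⟩ := hB
  have h0 := h l l' hl hl'
  have hφτ : ∀ y, Commute (τ y) (wd (σ (ch 0)) (σ (ch 1)) l) := fun y =>
    TW2_wd_comm _ _ _ (hc (ch 0) y).symm (hc (ch 1) y).symm l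
  have hψσ : ∀ x, Commute (σ x) (wd (τ (ch 0)) (τ (ch 1)) l') := fun x =>
    TW2_wd_comm _ _ _ (hc x (ch 0)) (hc x (ch 1)) l'
  obtain ⟨φ, hφd⟩ : ∃ φ, φ = wd (σ (ch 0)) (σ (ch 1)) l := ⟨_, rfl⟩
  obtain ⟨ψ, hψd⟩ : ∃ ψ, ψ = wd (τ (ch 0)) (τ (ch 1)) l' := ⟨_, rfl⟩
  rw [← hφd] at hφ h0 hφτ
  rw [← hψd] at hψ h0 hψσ
  have hst : ∀ (A : Module.End ℂ V), (∀ x y v, ∃ x' y' v', A (σ x (τ y (ψ v))) =
      σ x' (τ y' (ψ v'))) → ∀ w ∈ Submodule.span ℂ {u | ∃ x y v, u = σ x (τ y (ψ v))},
        A w ∈ Submodule.span ℂ {u | ∃ x y v, u = σ x (τ y (ψ v))} := by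
    intro A hA w hw
    induction hw using Submodule.span_induction with
    | mem w hw =>
      obtain ⟨x, y, v, rfl⟩ := hw
      obtain ⟨x', y', v', h1⟩ := hA x y v
      exact Submodule.subset_span ⟨x', y', v', h1⟩
    | zero =>
      rw [map_zero]
      exact Submodule.zero_mem _
    | add w w' _ _ h1 h2 =>
      rw [map_add]
      exact Submodule.add_mem _ h1 h2
    | smul r w _ h1 =>
      rw [map_smul]
      exact Submodule.smul_mem _ _ h1
  have hU := hirr (Submodule.span ℂ {u | ∃ x y v, u = σ x (τ y (ψ v))})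
    (fun z => hst (σ z) fun x y v => ⟨z * x, y, v, by rw [map_mul]; rfl⟩)
    (fun z => hst (τ z) fun x y v => ⟨x, z * y, v, by
      rw [map_mul]
      have h1 := LinearMap.congr_fun (hc x z).eq (τ y (ψ v))
      exact h1.symm⟩)
  rcases hU with hU | hU
  · apply hψ
    refine LinearMap.ext fun v => ?_
    have h1 : σ 1 (τ 1 (ψ v)) ∈ Submodule.span ℂ {u | ∃ x y v, u = σ x (τ y (ψ v))} :=
      Submodule.subset_span ⟨1, 1, v, rfl⟩
    rw [hU, Submodule.mem_bot, map_one, map_one] at h1
    exact h1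
  · apply hφ
    refine LinearMap.ext fun w => ?_
    have hw : w ∈ Submodule.span ℂ {u | ∃ x y v, u = σ x (τ y (ψ v))} := by
      rw [hU]
      exact Submodule.mem_top
    rw [LinearMap.zero_apply]
    induction hw using Submodule.span_induction with
    | mem w hw =>
      obtain ⟨x, y, v, rfl⟩ := hw
      have h1 : φ * (σ x * (τ y * ψ)) = 0 := by
        calc φ * (σ x * (τ y * ψ)) = φ * ((σ x * τ y) * ψ) := by rw [mul_assoc]
          _ = φ * ((τ y * σ x) * ψ) := by rw [(hc x y).eq]
          _ = (φ * τ y) * (σ x * ψ) := by simp only [mul_assoc]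
          _ = (τ y * φ) * (ψ * σ x) := by rw [(hφτ y).eq, (hψσ x).eq]
          _ = τ y * (φ * ψ) * σ x := by simp only [mul_assoc]
          _ = 0 := by rw [h0, mul_zero, zero_mul]
      exact LinearMap.congr_fun h1 v
    | zero => rw [map_zero]
    | add w w' _ _ h1 h2 => rw [map_add, h1, h2, add_zero]
    | smul r w _ h1 => rw [map_smul, h1, smul_zero]
-- END TW2

-- MODULE TW3
/-- The family with the members `σ`, `τ`. -/
private def TW3_F (σ τ : Ch →* Module.End ℂ V) : ℕ → (Ch →* Module.End ℂ V)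
  | 0 => σ
  | 1 => τ
  | _ + 2 => 1

private theorem TW3_pr {M : Type*} [Monoid M] (F : ℕ → M) : pr 2 F = F 0 * F 1 := by
  rw [pr_succ, pr_succ, pr_zero, one_mul]

private theorem TW3_iff (ρ : ℕ → (Ch →* Module.End ℂ V)) :
    Kills 2 ρ ↔ ∀ k ∈ KK, ∀ k' ∈ KK, (ρ 0 k - 1) * (ρ 1 k' - 1) = 0 := by
  constructor
  · intro h k hk k' hk'
    have h1 := h (fun q => if q = 0 then k else k') (fun q _ => by
      split_ifs
      · exact hk
      · exact hk')
    rw [TW3_pr] at h1
    exact h1
  · intro h k hk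
    rw [TW3_pr]
    exact h (k 0) (hk 0 (by omega)) (k 1) (hk 1 (by omega))

private theorem TW3_CF (σ τ : Ch →* Module.End ℂ V) (hc : ∀ x y, Commute (σ x) (τ y)) :
    CF 2 (TW3_F σ τ) := by
  intro q r hq hr hqr x y
  have h1 : q = 0 ∧ r = 1 ∨ q = 1 ∧ r = 0 := by omega
  rcases h1 with ⟨rfl, rfl⟩ | ⟨rfl, rfl⟩
  · exact hc x y
  · exact (hc y x).symm

private theorem TW3_wd {A B : Type u} [AddCommGroup A] [Module ℂ A] [AddCommGroup B] [Module ℂ B]
    (f : A →ₗ[ℂ] B) (x y : Module.End ℂ A) (x' y' : Module.End ℂ B)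
    (hx : ∀ a, f (x a) = x' (f a)) (hy : ∀ a, f (y a) = y' (f a)) (l : List Bool) :
    ∀ a, f (wd x y l a) = wd x' y' l (f a) := by
  induction l with
  | nil => intro a; rfl
  | cons t l ih =>
    intro a
    have h1 : wd x y (t :: l) = (if t then y - 1 else x - 1) * wd x y l := by
      unfold wd
      rw [List.map_cons, List.prod_cons]
    have h2 : wd x' y' (t :: l) = (if t then y' - 1 else x' - 1) * wd x' y' l := by
      unfold wd
      rw [List.map_cons, List.prod_cons]
    rw [h1, h2, Module.End.mul_apply, Module.End.mul_apply, ← ih a]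
    cases t
    · change f ((x - 1) (wd x y l a)) = (x' - 1) (f (wd x y l a))
      rw [LinearMap.sub_apply, LinearMap.sub_apply, map_sub, hx]
      rfl
    · change f ((y - 1) (wd x y l a)) = (y' - 1) (f (wd x y l a))
      rw [LinearMap.sub_apply, LinearMap.sub_apply, map_sub, hy]
      rfl

private theorem TW3_main (d : ℕ) : ∀ (V : Type u) [AddCommGroup V] [Module ℂ V]
    [FiniteDimensional ℂ V] (σ τ : Ch →* Module.End ℂ V), Module.finrank ℂ V ≤ d →
    (∀ x y, Commute (σ x) (τ y)) → ∀ n : ℕ,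
    (∀ l l' : List Bool, l.length = n → l'.length = n →
      wd (σ (ch 0)) (σ (ch 1)) l * wd (τ (ch 0)) (τ (ch 1)) l' = 0) →
    Kills 2 (TW3_F σ τ) := by
  induction d with
  | zero =>
    intro V _ _ _ σ τ hd hc n h
    have h1 : Module.finrank ℂ V = 0 := Nat.le_zero.mp hd
    have h2 : Subsingleton V := Module.finrank_zero_iff.mp h1
    intro k _
    exact LinearMap.ext fun v => Subsingleton.elim _ _
  | succ d ih =>
    intro V _ _ _ σ τ hd hc n h
    by_cases hirr : ∀ W : Submodule ℂ V, (∀ x, ∀ w ∈ W, σ x w ∈ W) →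
        (∀ x, ∀ w ∈ W, τ x w ∈ W) → W = ⊥ ∨ W = ⊤
    · rw [TW3_iff]
      intro k hk k' hk'
      rcases irr_two σ τ hc hirr n h with h1 | h1
      · change (σ k - 1) * (τ k' - 1) = 0
        rw [h1 k hk, sub_self, zero_mul]
      · change (σ k - 1) * (τ k' - 1) = 0
        rw [h1 k' hk', sub_self, mul_zero]
    · push Not at hirr
      obtain ⟨W, hσ, hτ, hbot, htop⟩ := hirr
      have hW : ∀ q x, ∀ w ∈ W, TW3_F σ τ q x w ∈ W := by
        intro q x w hw
        match q with
        | 0 => exact hσ x w hw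
        | 1 => exact hτ x w hw
        | _ + 2 => exact hw
      have hlt1 : Module.finrank ℂ W < Module.finrank ℂ V := Submodule.finrank_lt htop
      have hlt2 : Module.finrank ℂ (V ⧸ W) < Module.finrank ℂ V := by
        have h1 := Submodule.finrank_quotient_add_finrank W
        have h2 : 0 < Module.finrank ℂ W := by
          rw [Nat.pos_iff_ne_zero]
          intro h3
          exact hbot (Submodule.finrank_eq_zero.mp h3)
        omega
      refine kills_ext 2 (TW3_F σ τ) (TW3_CF σ τ hc) W hW ?_ ?_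
      · have h1 := ih W (resR σ W hσ) (resR τ W hτ) (by omega) (fun x y => by
          refine LinearMap.ext fun w => Subtype.ext ?_
          exact LinearMap.congr_fun (hc x y).eq (w : V)) n (fun l l' hl hl' => by
          refine LinearMap.ext fun w => Subtype.ext ?_
          have e1 := TW3_wd W.subtype (resR σ W hσ (ch 0)) (resR σ W hσ (ch 1)) (σ (ch 0))
            (σ (ch 1)) (fun _ => rfl) (fun _ => rfl) l
            (wd (resR τ W hτ (ch 0)) (resR τ W hτ (ch 1)) l' w)
          have e2 := TW3_wd W.subtype (resR τ W hτ (ch 0)) (resR τ W hτ (ch 1)) (τ (ch 0))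
            (τ (ch 1)) (fun _ => rfl) (fun _ => rfl) l' w
          rw [e2] at e1
          exact e1.trans (LinearMap.congr_fun (h l l' hl hl') (w : V)))
        rw [TW3_iff] at h1 ⊢
        exact h1
      · have h1 := ih (V ⧸ W) (quoR σ W hσ) (quoR τ W hτ) (by omega) (fun x y => by
          refine LinearMap.ext fun w => ?_
          obtain ⟨v, rfl⟩ := W.mkQ_surjective w
          exact congrArg W.mkQ (LinearMap.congr_fun (hc x y).eq v)) n (fun l l' hl hl' => by
          refine LinearMap.ext fun w => ?_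
          obtain ⟨v, rfl⟩ := W.mkQ_surjective w
          have e2 := TW3_wd W.mkQ (τ (ch 0)) (τ (ch 1)) (quoR τ W hτ (ch 0))
            (quoR τ W hτ (ch 1)) (fun _ => rfl) (fun _ => rfl) l' v
          have e1 := TW3_wd W.mkQ (σ (ch 0)) (σ (ch 1)) (quoR σ W hσ (ch 0))
            (quoR σ W hσ (ch 1)) (fun _ => rfl) (fun _ => rfl) l
            (wd (τ (ch 0)) (τ (ch 1)) l' v)
          rw [Module.End.mul_apply, ← e2, ← e1, ← Module.End.mul_apply, h l l' hl hl',
            LinearMap.zero_apply, map_zero, LinearMap.zero_apply])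
        rw [TW3_iff] at h1 ⊢
        exact h1

/-- The general case.
PROOF. Let F q = σ, τ, 1 for q = 0, q = 1, q ≥ 2; CF 2 F; the claim is Kills 2 F (pr 2 = product of two factors, pr_succ, pr_zero). Strong induction on dim V (for all V, σ, τ; n fixed). V trivial: clear. If V is jointly irreducible: irr_two, one of the two factors vanishes. Otherwise
take a jointly stable W ≠ ⊥, ⊤ and kills_ext with F: the functions q ↦ resR (F q) W _ and q ↦ quoR (F q) W _ are of the same form (resR of 1 is 1; resR σ, resR τ commute); the words of resR are the restrictions of the words, those of quoR the induced maps (induction on the list), so the hypothesis h holds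
for them; dim W < dim V, dim V/W < dim V. -/
theorem kills_two : ∀ (V : Type u) [AddCommGroup V] [Module ℂ V] [FiniteDimensional ℂ V]
    (σ τ : Ch →* Module.End ℂ V), (∀ x y, Commute (σ x) (τ y)) → ∀ n : ℕ,
    (∀ l l' : List Bool, l.length = n → l'.length = n →
      wd (σ (ch 0)) (σ (ch 1)) l * wd (τ (ch 0)) (τ (ch 1)) l' = 0) →
    ∀ k ∈ KK, ∀ k' ∈ KK, (σ k - 1) * (τ k' - 1) = 0 := by
  intro V _ _ _ σ τ hc n h
  have h1 := TW3_main (Module.finrank ℂ V) V σ τ le_rfl hc n h
  rw [TW3_iff] at h1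
  exact h1
-- END TW3

section sys

variable {g n : ℕ} {G : Type*} [Group G]

/-- Step 1 of HG13 with the conclusion of Lemma P as hypothesis. -/
theorem step1k (S : Tw g n G) (hS : Rels S) (m : ℕ) (hg : 2 * m + 2 ≤ g)
    (ρ : G →* Module.End ℂ V) (f : ℕ → (Ch →* G))
    (hf : ∀ q, q < m → f q (ch 0) = S.T (4 * q) (4 * q + 1) ∧
      f q (ch 1) = S.B (2 * q) ∧ f q (ch 2) = S.T (4 * q + 1) (4 * q + 3) ∧
      f q (ch 3) = S.B (2 * q + 1) ∧ f q (ch 4) = S.T (4 * q + 2) (4 * q + 3))
    (hcomm : ∀ q r, q < m → r < m → q ≠ r → ∀ x y, Commute (f q x) (f r y))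
    (hcen : ∀ q, q < m → ∀ c : G, Commute c (S.T (4 * q) (4 * q + 1)) → Commute c (S.B (2 * q)) →
      Commute c (S.T (4 * q + 1) (4 * q + 3)) → Commute c (S.B (2 * q + 1)) →
      Commute c (S.T (4 * q + 2) (4 * q + 3)) → ∀ x, Commute c (f q x))
    (hKi : Kills m (fun q => ρ.comp (f q))) :
    pr m (fun q => Nq S ρ q) = 0 := by
  classical
  have hN : ∀ q, q < m → ρ (f q (ch 0)) - 1 = Nq S ρ q := by
    intro q hq
    rw [(hf q hq).1]
    rfl
  have hPC : ∀ x : ℕ → Ch, PC m (fun q => ρ (f q (x q)) - 1) := by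
    intro x q r hq hr hqr
    exact (((hcomm q r hq hr hqr (x q) (x r)).map ρ).sub_left (Commute.one_left _)).sub_right
      (Commute.one_right _)
  -- commuting with a block
  have hblk : ∀ q, q < m → ∀ c : G,
      (∀ s t, 4 * q ≤ s → s < t → t ≤ 4 * q + 3 → Commute c (S.T s t)) →
      (∀ i, 2 * q ≤ i → i ≤ 2 * q + 1 → Commute c (S.B i)) → ∀ x, Commute c (f q x) := by
    intro q hq c h1 h2
    exact hcen q hq c (h1 _ _ (by omega) (by omega) (by omega)) (h2 _ (by omega) (by omega))
      (h1 _ _ (by omega) (by omega) (by omega)) (h2 _ (by omega) (by omega))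
      (h1 _ _ (by omega) (by omega) (by omega))
  have claim : ∀ r, r ≤ m → ∀ x : ℕ → Ch, (∀ q, q < r → x q = ch 0) →
      (∀ q, q < m → r ≤ q → x q ∈ KK) → pr m (fun q => ρ (f q (x q)) - 1) = 0 := by
    intro r
    induction r with
    | zero =>
      intro _ x _ hx
      exact hKi x fun q hq => hx q hq (Nat.zero_le q)
    | succ r ih =>
      intro hr x hx0 hx
      have hrm : r < m := by omega
      obtain ⟨φ, hφ⟩ : ∃ φ, φ = pr m (Function.update (fun q => ρ (f q (x q)) - 1) r 1) := ⟨_, rfl⟩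
      have hx' : ∀ k : Ch, Function.update (fun q => ρ (f q (Function.update x r k q)) - 1) r 1 =
          Function.update (fun q => ρ (f q (x q)) - 1) r 1 := by
        intro k
        funext q
        by_cases hq : q = r
        · subst hq
          rw [Function.update_self, Function.update_self]
        · rw [Function.update_of_ne hq, Function.update_of_ne hq, Function.update_of_ne hq]
      have hk : ∀ k : Ch, pr m (fun q => ρ (f q (Function.update x r k q)) - 1) =
          (ρ (f r k) - 1) * φ := by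
        intro k
        rw [pr_update m r hrm _ (hPC _), hx' k, ← hφ, Function.update_self]
      have hC : ∀ c : G, (∀ q, q < m → q ≠ r → ∀ y, Commute c (f q y)) → c ∈ Cen ρ {φ} := by
        intro c hc ψ hψ
        rw [Set.mem_singleton_iff.1 hψ, hφ]
        apply pr_commute
        intro q hq
        by_cases hqr : q = r
        · subst hqr
          rw [Function.update_self]
          exact Commute.one_right _
        · rw [Function.update_of_ne hqr]
          exact ((hc q hq hqr (x q)).map ρ).sub_right (Commute.one_right _)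
      have h0 : Nq S ρ r * φ = 0 := by
        refine replace_one S hS m r hg hrm ρ {φ} (f r) (hf r hrm).1 (hf r hrm).2.2.2.1
          (hf r hrm).2.2.2.2 ?_ ?_ ?_ ?_ ?_ ?_ ?_ φ (Set.mem_singleton φ)
        · intro k hk' ψ hψ
          rw [Set.mem_singleton_iff.1 hψ]
          have h1 := ih (by omega) (Function.update x r k) (fun q hq => by
            rw [Function.update_of_ne (by omega)]
            exact hx0 q (by omega)) (fun q hq hrq => by
            by_cases hqr : q = r
            · rw [hqr, Function.update_self]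
              exact hk'
            · rw [Function.update_of_ne hqr]
              exact hx q hq (by omega))
          rw [hk k, sub_mul, one_mul, sub_eq_zero] at h1
          exact h1
        · intro t ht1 ht2
          refine hC _ fun q hq hqr => hblk q hq _ (fun s' t' h1 h2 h3 => ?_) fun i h1 h2 => ?_
          · by_cases h : q < r
            · exact (hS.TT _ _ _ _ h2 (by omega) (by omega) (by omega) (Or.inl (by omega))).symm
            · exact hS.TT _ _ _ _ (by omega) (by omega) h2 (by omega)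
                (Or.inr ⟨by omega, by omega⟩)
          · by_cases h : q < r
            · exact hS.TB _ _ _ (by omega) (by omega) (by omega) (Or.inl (by omega))
            · exact hS.TB _ _ _ (by omega) (by omega) (by omega)
                (Or.inr (Or.inr ⟨by omega, by omega⟩))
        · intro s t hs1 hst ht
          refine hC _ fun q hq hqr => hblk q hq _ (fun s' t' h1 h2 h3 => ?_) fun i h1 h2 => ?_
          · exact (hS.TT _ _ _ _ h2 (by omega) hst (by omega) (Or.inl (by omega))).symm
          · exact hS.TB _ _ _ hst (by omega) (by omega) (Or.inl (by omega))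
        · refine hC _ fun q hq hqr => hblk q hq _ (fun s' t' h1 h2 h3 => ?_) fun i h1 h2 => ?_
          · by_cases h : q < r
            · exact (hS.TT _ _ _ _ h2 (by omega) (by omega) (by omega) (Or.inl (by omega))).symm
            · exact hS.TT _ _ _ _ (by omega) (by omega) h2 (by omega) (Or.inl (by omega))
          · by_cases h : q < r
            · exact hS.TB _ _ _ (by omega) (by omega) (by omega) (Or.inl (by omega))
            · exact hS.TB _ _ _ (by omega) (by omega) (by omega) (Or.inr (Or.inl (by omega)))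
        · refine hC _ fun q hq hqr => hblk q hq _ (fun s' t' h1 h2 h3 => ?_) fun i h1 h2 => ?_
          · by_cases h : q < r
            · exact (hS.TB _ _ _ h2 (by omega) (by omega) (Or.inr (Or.inl (by omega)))).symm
            · exact (hS.TB _ _ _ h2 (by omega) (by omega) (Or.inl (by omega))).symm
          · exact hS.BB _ _ (by omega) (by omega)
        · refine hC _ fun q hq hqr => hblk q hq _ (fun s' t' h1 h2 h3 => ?_) fun i h1 h2 => ?_
          · exact (hS.TB _ _ _ h2 (by omega) (by omega) (Or.inr (Or.inl (by omega)))).symm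
          · exact hS.BB _ _ (by omega) (by omega)
        · refine hC _ fun q hq hqr => hblk q hq _ (fun s' t' h1 h2 h3 => ?_) fun i h1 h2 => ?_
          · exact (hS.TB _ _ _ h2 (by omega) (by omega) (Or.inr (Or.inl (by omega)))).symm
          · exact hS.BB _ _ (by omega) (by omega)
      have h1 := hk (ch 0)
      rw [hN r hrm, h0] at h1
      rw [← h1]
      apply pr_congr
      intro q hq
      by_cases hqr : q = r
      · rw [hqr, Function.update_self, hx0 r (by omega)]
      · rw [Function.update_of_ne hqr]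
  rw [← claim m le_rfl (fun _ => ch 0) (fun _ _ => rfl) (fun q hq hmq => absurd hq (by omega))]
  exact pr_congr m _ _ fun q hq => (hN q hq).symm

-- MODULE TW4
/-- `t (k-1) * ... * t 0`. -/
private def TW4_p {G : Type*} [Group G] (t : ℕ → G) : ℕ → G
  | 0 => 1
  | k + 1 => t k * TW4_p t k

/-- `t 0 * ... * t (k-1)`. -/
private def TW4_q {G : Type*} [Group G] (t : ℕ → G) : ℕ → G
  | 0 => 1
  | k + 1 => TW4_q t k * t k

/-- The half twist. -/
private def TW4_D {G : Type*} [Group G] (t : ℕ → G) : ℕ → G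
  | 0 => 1
  | k + 1 => TW4_D t k * TW4_p t (k + 1)

section TW4_sec

variable {G : Type*} [Group G] {t : ℕ → G} {N : ℕ}

private theorem TW4_cp (hc : ∀ i j, i + 2 ≤ j → j < N → Commute (t i) (t j)) (k m : ℕ)
    (h : k + 1 ≤ m) (hm : m < N) : Commute (t m) (TW4_p t k) := by
  induction k with
  | zero => exact Commute.one_right _
  | succ k ih => exact (hc k m (by omega) hm).symm.mul_right (ih (by omega))

private theorem TW4_cq (hc : ∀ i j, i + 2 ≤ j → j < N → Commute (t i) (t j)) (k m : ℕ)
    (h : k + 1 ≤ m) (hm : m < N) : Commute (t m) (TW4_q t k) := by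
  induction k with
  | zero => exact Commute.one_right _
  | succ k ih => exact (ih (by omega)).mul_right (hc k m (by omega) hm).symm

private theorem TW4_cD (hc : ∀ i j, i + 2 ≤ j → j < N → Commute (t i) (t j)) (k m : ℕ)
    (h : k + 1 ≤ m) (hm : m < N) : Commute (t m) (TW4_D t k) := by
  induction k with
  | zero => exact Commute.one_right _
  | succ k ih => exact (ih (by omega)).mul_right (TW4_cp hc (k + 1) m h hm)

private theorem TW4_pt (hc : ∀ i j, i + 2 ≤ j → j < N → Commute (t i) (t j))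
    (hb : ∀ i, i + 1 < N → Brd (t i) (t (i + 1))) (k : ℕ) : k ≤ N → ∀ j, j + 1 < k →
    TW4_p t k * t (j + 1) = t j * TW4_p t k := by
  induction k with
  | zero => intro _ j hj; omega
  | succ k ih =>
    intro hk j hj
    change t k * TW4_p t k * t (j + 1) = t j * (t k * TW4_p t k)
    by_cases h1 : j + 1 < k
    · rw [mul_assoc, ih (by omega) j h1, ← mul_assoc, ← mul_assoc,
        (hc j k (by omega) (by omega)).eq]
    · have h2 : k = j + 1 := by omega
      subst h2
      change t (j + 1) * (t j * TW4_p t j) * t (j + 1) =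
        t j * (t (j + 1) * (t j * TW4_p t j))
      have h3 := (TW4_cp hc j (j + 1) le_rfl (by omega)).eq
      have h4 : t j * t (j + 1) * t j = t (j + 1) * t j * t (j + 1) := hb j (by omega)
      calc t (j + 1) * (t j * TW4_p t j) * t (j + 1) =
            t (j + 1) * t j * (TW4_p t j * t (j + 1)) := by simp only [mul_assoc]
        _ = (t (j + 1) * t j * t (j + 1)) * TW4_p t j := by
            rw [← h3]
            simp only [mul_assoc]
        _ = _ := by
            rw [← h4]
            simp only [mul_assoc]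

private theorem TW4_qt (hc : ∀ i j, i + 2 ≤ j → j < N → Commute (t i) (t j))
    (hb : ∀ i, i + 1 < N → Brd (t i) (t (i + 1))) (k : ℕ) : k ≤ N → ∀ j, j + 1 < k →
    TW4_q t k * t j = t (j + 1) * TW4_q t k := by
  induction k with
  | zero => intro _ j hj; omega
  | succ k ih =>
    intro hk j hj
    change TW4_q t k * t k * t j = t (j + 1) * (TW4_q t k * t k)
    by_cases h1 : j + 1 < k
    · rw [mul_assoc, ← (hc j k (by omega) (by omega)).eq, ← mul_assoc, ih (by omega) j h1,
        mul_assoc]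
    · have h2 : k = j + 1 := by omega
      subst h2
      change TW4_q t j * t j * t (j + 1) * t j =
        t (j + 1) * (TW4_q t j * t j * t (j + 1))
      have h3 := (TW4_cq hc j (j + 1) le_rfl (by omega)).eq
      have h4 : t j * t (j + 1) * t j = t (j + 1) * t j * t (j + 1) := hb j (by omega)
      calc TW4_q t j * t j * t (j + 1) * t j =
            TW4_q t j * (t j * t (j + 1) * t j) := by simp only [mul_assoc]
        _ = (TW4_q t j * t (j + 1)) * t j * t (j + 1) := by
            rw [h4]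
            simp only [mul_assoc]
        _ = _ := by
            rw [← h3]
            simp only [mul_assoc]

private theorem TW4_Dq (hc : ∀ i j, i + 2 ≤ j → j < N → Commute (t i) (t j)) (k : ℕ) :
    k + 1 ≤ N → TW4_D t (k + 1) = TW4_q t (k + 1) * TW4_D t k := by
  induction k with
  | zero =>
    intro _
    change (1 : G) * (t 0 * 1) = (1 * t 0) * 1
    rw [one_mul, mul_one, one_mul, mul_one]
  | succ k ih =>
    intro hk
    change TW4_D t (k + 1) * (t (k + 1) * TW4_p t (k + 1)) =
      (TW4_q t (k + 1) * t (k + 1)) * TW4_D t (k + 1)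
    have h3 := (TW4_cD hc k (k + 1) le_rfl (by omega)).eq
    calc TW4_D t (k + 1) * (t (k + 1) * TW4_p t (k + 1)) =
          TW4_q t (k + 1) * (TW4_D t k * t (k + 1)) * TW4_p t (k + 1) := by
            rw [ih (by omega)]
            simp only [mul_assoc]
      _ = TW4_q t (k + 1) * t (k + 1) * (TW4_D t k * TW4_p t (k + 1)) := by
            rw [← h3]
            simp only [mul_assoc]
      _ = _ := rfl

private theorem TW4_Dt (hc : ∀ i j, i + 2 ≤ j → j < N → Commute (t i) (t j))
    (hb : ∀ i, i + 1 < N → Brd (t i) (t (i + 1))) (k : ℕ) : k + 1 ≤ N → ∀ i, i ≤ k →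
    TW4_D t (k + 1) * t i = t (k - i) * TW4_D t (k + 1) := by
  induction k with
  | zero =>
    intro _ i hi
    have h1 : i = 0 := by omega
    subst h1
    change (1 * (t 0 * 1)) * t 0 = t 0 * (1 * (t 0 * 1))
    rw [one_mul, mul_one]
  | succ k ih =>
    intro hk i hi
    cases i with
    | zero =>
      have h1 := ih (by omega) 0 (by omega)
      rw [Nat.sub_zero] at h1 ⊢
      have h2 := TW4_qt hc hb (k + 2) hk k (by omega)
      rw [TW4_Dq hc (k + 1) hk, mul_assoc, h1, ← mul_assoc, h2, mul_assoc]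
    | succ i =>
      have h1 := ih (by omega) i (by omega)
      have h2 := TW4_pt hc hb (k + 2) hk i (by omega)
      rw [show k + 1 - (i + 1) = k - i by omega]
      change TW4_D t (k + 1) * TW4_p t (k + 2) * t (i + 1) =
        t (k - i) * (TW4_D t (k + 1) * TW4_p t (k + 2))
      rw [mul_assoc, h2, ← mul_assoc, h1, mul_assoc]

end TW4_sec

/-- The Garside element of a 5-chain.
PROOF. Write t i. Put p1 = t 0, p2 = t 1 * t 0, p3 = t 2 * t 1 * t 0, p4, p5 (p_k = t (k-1) * ... * t 0) and D_k = D_(k-1) * p_k, D_1 = p_1; D = D_5 = p1 p2 p3 p4 p5. (i) p_k * t (j+1) = t j * p_k for j + 1 < k (braid relation of t (j+1), t j; the others commute). (ii) D_k = q_k * D_(k-1), q_k = t 0 * ... * t (k-1), by induction: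
D_(k-1) p_k = q_(k-1) D_(k-2) t (k-1) p_(k-1) = q_(k-1) t (k-1) D_(k-2) p_(k-1) = q_k D_(k-1) (D_(k-2) is a word in t 0, ..., t (k-3)). (iii) D_k * t i = t (k-1-i) * D_k, i < k, by induction on k: for i ≥ 1: D_(k-1) p_k t i = D_(k-1) t (i-1) p_k = t (k-1-i) D_(k-1) p_k; for i = 0: D_k t 0 = q_k D_(k-1) t 0 = q_k t (k-2) D_(k-1) = t (k-1) q_k D_(k-1)
(q_k t j = t (j+1) q_k for j + 1 < k). Use k = 5, i = 0, 1, 3, 4. -/
theorem garside {G : Type*} [Group G] (t : Fin 5 → G) (h : IsChain t) (D : G)
    (hD : D = t 0 * (t 1 * t 0) * (t 2 * t 1 * t 0) * (t 3 * t 2 * t 1 * t 0) *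
      (t 4 * t 3 * t 2 * t 1 * t 0)) :
    D * t 0 = t 4 * D ∧ D * t 1 = t 3 * D ∧ D * t 3 = t 1 * D ∧ D * t 4 = t 0 * D := by
  obtain ⟨t', ht'⟩ : ∃ t' : ℕ → G, ∀ i : Fin 5, t' i = t i :=
    ⟨fun i => if h : i < 5 then t ⟨i, h⟩ else 1, fun i => by
      show (if h : (i : ℕ) < 5 then t ⟨i, h⟩ else 1) = t i
      rw [dif_pos i.2]⟩
  have hc : ∀ i j, i + 2 ≤ j → j < 5 → Commute (t' i) (t' j) := by
    intro i j h1 h2
    have h3 := h.com ⟨i, by omega⟩ ⟨j, h2⟩ h1
    rw [← ht', ← ht'] at h3
    exact h3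
  have hb : ∀ i, i + 1 < 5 → Brd (t' i) (t' (i + 1)) := by
    intro i h1
    have h3 := h.brd ⟨i, by omega⟩ ⟨i + 1, h1⟩ rfl
    rw [← ht', ← ht'] at h3
    exact h3
  have e0 : t' 0 = t 0 := ht' 0
  have e1 : t' 1 = t 1 := ht' 1
  have e2 : t' 2 = t 2 := ht' 2
  have e3 : t' 3 = t 3 := ht' 3
  have e4 : t' 4 = t 4 := ht' 4
  have hD' : D = TW4_D t' 5 := by
    rw [hD, ← e0, ← e1, ← e2, ← e3, ← e4]
    simp only [TW4_D, TW4_p, one_mul, mul_one, mul_assoc]
  have hK := TW4_Dt hc hb 4 le_rfl
  rw [← hD', ] at hK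
  have k0 := hK 0 (by omega)
  have k1 := hK 1 (by omega)
  have k3 := hK 3 (by omega)
  have k4 := hK 4 (by omega)
  rw [e0] at k0
  rw [e1] at k1
  rw [e3] at k3
  rw [e4] at k4
  refine ⟨k0.trans ?_, k1.trans ?_, k3.trans ?_, k4.trans ?_⟩
  · rw [← e4]
  · rw [← e3]
  · rw [← e1]
  · rw [← e0]
-- END TW4

-- MODULE TW5
/-- Elements which interchange two neighbouring handles. PROOF. garside for the chain T (2i) (2i+1), B i, T (2i+1) (2i+3), B (i+1), T (2i+2) (2i+3) (IsChain by TBe, TBs, TT, TB, BB). D commutes with T (2j) (2j+1) and B j, j ≠ i, i+1: each factor does (TT, TB, BB). -/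
theorem exists_swap (S : Tw g n G) (hS : Rels S) (i : ℕ) (hi : i + 1 < g) :
    ∃ D : G, D * S.T (2 * i) (2 * i + 1) = S.T (2 * i + 2) (2 * i + 3) * D ∧
      D * S.T (2 * i + 2) (2 * i + 3) = S.T (2 * i) (2 * i + 1) * D ∧
      D * S.B i = S.B (i + 1) * D ∧ D * S.B (i + 1) = S.B i * D ∧
      ∀ j, j < g → j ≠ i → j ≠ i + 1 →
        Commute D (S.T (2 * j) (2 * j + 1)) ∧ Commute D (S.B j) := by
  have hT : ∀ j, j < g → ∀ s t, s < t → t ≤ 2 * g + n → (t ≤ 2 * j ∨ 2 * j + 1 ≤ s) →
      Commute (S.T s t) (S.T (2 * j) (2 * j + 1)) := by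
    intro j hj s t h1 h2 h3
    rcases h3 with h3 | h3
    · exact hS.TT _ _ _ _ h1 h2 (by omega) (by omega) (Or.inl (by omega))
    · exact (hS.TT _ _ _ _ (by omega) (by omega) h1 h2 (Or.inl (by omega))).symm
  have hch : IsChain (![S.T (2 * i) (2 * i + 1), S.B i, S.T (2 * i + 1) (2 * i + 3), S.B (i + 1),
      S.T (2 * i + 2) (2 * i + 3)] : Fin 5 → G) := by
    have b01 : Brd (S.T (2 * i) (2 * i + 1)) (S.B i) := hS.TBe i _ (by omega) (by omega)
    have b12 : Brd (S.B i) (S.T (2 * i + 1) (2 * i + 3)) :=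
      (hS.TBs i _ (by omega) (by omega) (by omega)).symm
    have b23 : Brd (S.T (2 * i + 1) (2 * i + 3)) (S.B (i + 1)) := hS.TBe (i + 1) _ hi (by omega)
    have b34 : Brd (S.B (i + 1)) (S.T (2 * i + 2) (2 * i + 3)) :=
      (hS.TBe (i + 1) _ hi (by omega)).symm
    have c02 : Commute (S.T (2 * i) (2 * i + 1)) (S.T (2 * i + 1) (2 * i + 3)) :=
      hS.TT _ _ _ _ (by omega) (by omega) (by omega) (by omega) (Or.inl (by omega))
    have c03 : Commute (S.T (2 * i) (2 * i + 1)) (S.B (i + 1)) :=
      hS.TB _ _ _ (by omega) (by omega) hi (Or.inr (Or.inl (by omega)))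
    have c04 : Commute (S.T (2 * i) (2 * i + 1)) (S.T (2 * i + 2) (2 * i + 3)) :=
      hS.TT _ _ _ _ (by omega) (by omega) (by omega) (by omega) (Or.inl (by omega))
    have c13 : Commute (S.B i) (S.B (i + 1)) := hS.BB _ _ (by omega) hi
    have c14 : Commute (S.B i) (S.T (2 * i + 2) (2 * i + 3)) :=
      (hS.TB _ _ _ (by omega) (by omega) (by omega) (Or.inl (by omega))).symm
    have c24 : Commute (S.T (2 * i + 1) (2 * i + 3)) (S.T (2 * i + 2) (2 * i + 3)) :=
      hS.TT _ _ _ _ (by omega) (by omega) (by omega) (by omega) (Or.inr ⟨by omega, by omega⟩)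
    constructor
    · intro a b hab
      fin_cases a <;> fin_cases b <;> first | (exfalso; revert hab; decide) | skip
      · exact b01
      · exact b12
      · exact b23
      · exact b34
    · intro a b hab
      fin_cases a <;> fin_cases b <;> first | (exfalso; revert hab; decide) | skip
      · exact c02
      · exact c03
      · exact c04
      · exact c13
      · exact c14
      · exact c24
  obtain ⟨k0, k1, k3, k4⟩ := garside _ hch _ rfl
  refine ⟨_, k0, k4, k1, k3, fun j hj h1 h2 => ?_⟩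
  have hcm : ∀ z : G, Commute (S.T (2 * i) (2 * i + 1)) z → Commute (S.B i) z →
      Commute (S.T (2 * i + 1) (2 * i + 3)) z → Commute (S.B (i + 1)) z →
      Commute (S.T (2 * i + 2) (2 * i + 3)) z → Commute (S.T (2 * i) (2 * i + 1) *
        (S.B i * S.T (2 * i) (2 * i + 1)) *
        (S.T (2 * i + 1) (2 * i + 3) * S.B i * S.T (2 * i) (2 * i + 1)) *
        (S.B (i + 1) * S.T (2 * i + 1) (2 * i + 3) * S.B i * S.T (2 * i) (2 * i + 1)) *
        (S.T (2 * i + 2) (2 * i + 3) * S.B (i + 1) * S.T (2 * i + 1) (2 * i + 3) * S.B i *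
          S.T (2 * i) (2 * i + 1))) z := by
    intro z z0 z1 z2 z3 z4
    exact (((z0.mul_left (z1.mul_left z0)).mul_left ((z2.mul_left z1).mul_left z0)).mul_left
      (((z3.mul_left z2).mul_left z1).mul_left z0)).mul_left
      ((((z4.mul_left z3).mul_left z2).mul_left z1).mul_left z0)
  constructor
  · refine hcm _ ?_ ?_ ?_ ?_ ?_
    · exact hT j hj _ _ (by omega) (by omega) (by omega)
    · exact (hS.TB _ _ _ (by omega) (by omega) (by omega) (by omega)).symm
    · exact hT j hj _ _ (by omega) (by omega) (by omega)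
    · exact (hS.TB _ _ _ (by omega) (by omega) (by omega) (by omega)).symm
    · exact hT j hj _ _ (by omega) (by omega) (by omega)
  · refine hcm _ ?_ ?_ ?_ ?_ ?_
    · exact hS.TB _ _ _ (by omega) (by omega) hj (by omega)
    · exact hS.BB _ _ (by omega) hj
    · exact hS.TB _ _ _ (by omega) (by omega) hj (by omega)
    · exact hS.BB _ _ hi hj
    · exact hS.TB _ _ _ (by omega) (by omega) hj (by omega)
-- END TW5

/-- The group generated by the pairs `T_(a_i), B_i`. -/
def PH (S : Tw g n G) : Subgroup G :=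
  Subgroup.closure {x | ∃ i, i < g ∧ (x = S.T (2 * i) (2 * i + 1) ∨ x = S.B i)}

/-- The first members, in `PH`. -/
def aP (S : Tw g n G) (i : ℕ) : PH S :=
  if h : i < g then ⟨S.T (2 * i) (2 * i + 1), Subgroup.subset_closure ⟨i, h, Or.inl rfl⟩⟩ else 1

/-- The second members, in `PH`. -/
def bP (S : Tw g n G) (i : ℕ) : PH S :=
  if h : i < g then ⟨S.B i, Subgroup.subset_closure ⟨i, h, Or.inr rfl⟩⟩ else 1

-- MODULE TW6
private theorem TW6_a (S : Tw g n G) {i : ℕ} (h : i < g) :
    ((aP S i : PH S) : G) = S.T (2 * i) (2 * i + 1) := by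
  unfold aP
  rw [dif_pos h]

private theorem TW6_b (S : Tw g n G) {i : ℕ} (h : i < g) : ((bP S i : PH S) : G) = S.B i := by
  unfold bP
  rw [dif_pos h]

/-- PROOF. Subtype.ext and TT, TB, BB, TBe (i, s = 2i). gen: Subgroup.closure of the preimage: by closure_induction on the membership of an element of PH (Subgroup.closure_closure_coe_preimage). -/
theorem pg (S : Tw g n G) (hS : Rels S) : PG g (aP S) (bP S) := by
  refine ⟨fun i j hi hj hij => ?_, fun i j hi hj hij => ?_, fun i j hi hj _ => ?_,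
    fun i hi => ?_, ?_⟩
  · apply Subtype.ext
    change ((aP S i : PH S) : G) * ((aP S j : PH S) : G) =
      ((aP S j : PH S) : G) * ((aP S i : PH S) : G)
    rw [TW6_a S hi, TW6_a S hj]
    rcases Nat.lt_or_gt_of_ne hij with h1 | h1
    · exact (hS.TT _ _ _ _ (by omega) (by omega) (by omega) (by omega) (Or.inl (by omega))).eq
    · exact (hS.TT _ _ _ _ (by omega) (by omega) (by omega) (by omega)
        (Or.inl (by omega))).eq.symm
  · apply Subtype.ext
    change ((aP S i : PH S) : G) * ((bP S j : PH S) : G) =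
      ((bP S j : PH S) : G) * ((aP S i : PH S) : G)
    rw [TW6_a S hi, TW6_b S hj]
    exact (hS.TB _ _ _ (by omega) (by omega) hj (by omega)).eq
  · apply Subtype.ext
    change ((bP S i : PH S) : G) * ((bP S j : PH S) : G) =
      ((bP S j : PH S) : G) * ((bP S i : PH S) : G)
    rw [TW6_b S hi, TW6_b S hj]
    exact (hS.BB _ _ hi hj).eq
  · apply Subtype.ext
    change ((aP S i : PH S) : G) * ((bP S i : PH S) : G) * ((aP S i : PH S) : G) =
      ((bP S i : PH S) : G) * ((aP S i : PH S) : G) * ((bP S i : PH S) : G)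
    rw [TW6_a S hi, TW6_b S hi]
    exact hS.TBe i _ hi (by omega)
  · have h1 : {x : PH S | ∃ i, i < g ∧ (x = aP S i ∨ x = bP S i)} =
        ((↑) : PH S → G) ⁻¹' {x | ∃ i, i < g ∧ (x = S.T (2 * i) (2 * i + 1) ∨ x = S.B i)} := by
      ext x
      constructor
      · rintro ⟨i, hi, h2 | h2⟩
        · exact ⟨i, hi, Or.inl (by rw [h2, TW6_a S hi])⟩
        · exact ⟨i, hi, Or.inr (by rw [h2, TW6_b S hi])⟩
      · rintro ⟨i, hi, h2 | h2⟩
        · exact ⟨i, hi, Or.inl (Subtype.ext (by rw [h2, TW6_a S hi]))⟩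
        · exact ⟨i, hi, Or.inr (Subtype.ext (by rw [h2, TW6_b S hi]))⟩
    rw [h1]
    exact Subgroup.closure_closure_coe_preimage
-- END TW6

-- MODULE TW7
/-- PROOF. δ = ρ D as a linear equivalence (inverse ρ D⁻¹), D from exists_swap i. j = i: D a_i = a_(i+1) D, swap i (i+1) i = i + 1; j = i + 1 similarly; other j: swap fixes j, commute. -/
theorem pg_swap (S : Tw g n G) (hS : Rels S) (ρ : G →* Module.End ℂ V) (i : ℕ) (hi : i + 1 < g) :
    ∃ δ : V ≃ₗ[ℂ] V,
      (∀ j, j < g → ∀ v, δ ((ρ.comp (PH S).subtype) (aP S j) v) =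
        (ρ.comp (PH S).subtype) (aP S (Equiv.swap i (i + 1) j)) (δ v)) ∧
      ∀ j, j < g → ∀ v, δ ((ρ.comp (PH S).subtype) (bP S j) v) =
        (ρ.comp (PH S).subtype) (bP S (Equiv.swap i (i + 1) j)) (δ v) := by
  obtain ⟨D, d1, d2, d3, d4, d5⟩ := exists_swap S hS i hi
  have h1 : ρ D * ρ D⁻¹ = 1 := by rw [← map_mul, mul_inv_cancel, map_one]
  have h2 : ρ D⁻¹ * ρ D = 1 := by rw [← map_mul, inv_mul_cancel, map_one]
  have hkey : ∀ x y : G, D * x = y * D → ∀ v, ρ D (ρ x v) = ρ y (ρ D v) := by
    intro x y hxy v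
    rw [← Module.End.mul_apply, ← Module.End.mul_apply, ← map_mul, ← map_mul, hxy]
  have hlt : ∀ j, j < g → Equiv.swap i (i + 1) j < g := by
    intro j hj
    rw [Equiv.swap_apply_def]
    split_ifs <;> omega
  refine ⟨LinearEquiv.ofLinear (ρ D) (ρ D⁻¹) h1 h2, fun j hj v => ?_, fun j hj v => ?_⟩
  · change ρ D (ρ ((aP S j : PH S) : G) v) =
      ρ ((aP S (Equiv.swap i (i + 1) j) : PH S) : G) (ρ D v)
    rw [TW6_a S hj, TW6_a S (hlt j hj)]
    apply hkey
    by_cases e1 : j = i
    · subst e1
      rw [Equiv.swap_apply_left]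
      exact d1
    · by_cases e2 : j = i + 1
      · subst e2
        rw [Equiv.swap_apply_right]
        exact d2
      · rw [Equiv.swap_apply_of_ne_of_ne e1 e2]
        exact (d5 j hj e1 e2).1.eq
  · change ρ D (ρ ((bP S j : PH S) : G) v) =
      ρ ((bP S (Equiv.swap i (i + 1) j) : PH S) : G) (ρ D v)
    rw [TW6_b S hj, TW6_b S (hlt j hj)]
    apply hkey
    by_cases e1 : j = i
    · subst e1
      rw [Equiv.swap_apply_left]
      exact d3
    · by_cases e2 : j = i + 1
      · subst e2
        rw [Equiv.swap_apply_right]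
        exact d4
      · rw [Equiv.swap_apply_of_ne_of_ne e1 e2]
        exact (d5 j hj e1 e2).2.eq
-- END TW7

-- MODULE TW8
/-- All a_i are unipotent. PROOF. Induction on i: ρ (T_(a_(i+1))) - 1 = ρ D (ρ (T_(a_i)) - 1) ρ D⁻¹, D from exists_swap. -/
theorem pg_nil (S : Tw g n G) (hS : Rels S) (ρ : G →* Module.End ℂ V)
    (h0 : IsNilpotent (ρ (S.T 0 1) - 1)) :
    ∀ i, i < g → IsNilpotent (ρ (S.T (2 * i) (2 * i + 1)) - 1) := by
  intro i
  induction i with
  | zero => intro _; exact h0
  | succ i ih =>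
    intro hi
    obtain ⟨k, hk⟩ := ih (by omega)
    obtain ⟨D, d1, -⟩ := exists_swap S hS i hi
    have h1 : ρ D * ρ D⁻¹ = 1 := by rw [← map_mul, mul_inv_cancel, map_one]
    have h2 : SemiconjBy (ρ D) (ρ (S.T (2 * i) (2 * i + 1)) - 1)
        (ρ (S.T (2 * i + 2) (2 * i + 3)) - 1) := by
      change ρ D * (ρ (S.T (2 * i) (2 * i + 1)) - 1) =
        (ρ (S.T (2 * i + 2) (2 * i + 3)) - 1) * ρ D
      rw [mul_sub, sub_mul, ← map_mul, ← map_mul, d1, mul_one, one_mul]
    have h3 := (h2.pow_right k).eq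
    rw [hk, mul_zero] at h3
    refine ⟨k, ?_⟩
    change (ρ (S.T (2 * i + 2) (2 * i + 3)) - 1) ^ k = 0
    calc (ρ (S.T (2 * i + 2) (2 * i + 3)) - 1) ^ k =
          (ρ (S.T (2 * i + 2) (2 * i + 3)) - 1) ^ k * (ρ D * ρ D⁻¹) := by rw [h1, mul_one]
      _ = (ρ (S.T (2 * i + 2) (2 * i + 3)) - 1) ^ k * ρ D * ρ D⁻¹ := by rw [mul_assoc]
      _ = 0 := by rw [← h3, zero_mul]
-- END TW8

-- MODULE TW9
/-- LEVEL ONE. If dim V < 2g(g-1) and the twist T_(a_0) is unipotent then N_(a_0) N_(a_2) = 0.
PROOF. sup_le_one for P = PH S, ρ' = ρ.comp (PH S).subtype (pg, pg_nil, pg_swap): all supports have at most one element. words_zero with i = 0, j = 2 (aP S 0 = T 0 1, bP S 0 = B 0, aP S 2 = T 4 5, bP S 2 = B 2). exists_blocks with m = 2 (6 ≤ g): f. kills_two with σ = ρ.comp (f 0),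
τ = ρ.comp (f 1), n = finrank V: Kills 2 (fun q => ρ.comp (f q)) (pr_succ, pr_zero). step1k with m = 2: pr 2 (Nq) = Nq 0 * Nq 1 = 0, that is the claim. -/
theorem level_one (S : Tw g n G) (hS : Rels S) (hg : 6 ≤ g) [FiniteDimensional ℂ V]
    (ρ : G →* Module.End ℂ V) (h0 : IsNilpotent (ρ (S.T 0 1) - 1))
    (hV : Module.finrank ℂ V < 2 * g * (g - 1)) :
    (ρ (S.T 0 1) - 1) * (ρ (S.T 4 5) - 1) = 0 := by
  have hn : ∀ i, i < g → IsNilpotent ((ρ.comp (PH S).subtype) (aP S i) - 1) := by
    intro i hi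
    have h1 := pg_nil S hS ρ h0 i hi
    rw [← TW6_a S hi] at h1
    exact h1
  have hs := fun W1 W2 h => sup_le_one (pg S hS) (ρ.comp (PH S).subtype) hn hg hV
    (fun i hi => pg_swap S hS ρ i hi) W1 W2 h
  have hw := words_zero (pg S hS) (ρ.comp (PH S).subtype) hs 0 2 (by omega) (by omega) (by omega)
  obtain ⟨f, hf, hcomm, hcen⟩ := exists_blocks S hS 2 (by omega)
  have hKi : Kills 2 (fun q => ρ.comp (f q)) := by
    rw [TW3_iff]
    refine kills_two V (ρ.comp (f 0)) (ρ.comp (f 1)) (fun x y => ?_) (Module.finrank ℂ V)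
      (fun l l' hl hl' => ?_)
    · exact (hcomm 0 1 (by omega) (by omega) (by omega) x y).map ρ
    · have h1 := hw l l' hl.ge hl'.ge
      have a0 : (ρ.comp (PH S).subtype) (aP S 0) = (ρ.comp (f 0)) (ch 0) := by
        change ρ ((aP S 0 : PH S) : G) = ρ (f 0 (ch 0))
        rw [TW6_a S (by omega), (hf 0 (by omega)).1]
      have b0 : (ρ.comp (PH S).subtype) (bP S 0) = (ρ.comp (f 0)) (ch 1) := by
        change ρ ((bP S 0 : PH S) : G) = ρ (f 0 (ch 1))
        rw [TW6_b S (by omega), (hf 0 (by omega)).2.1]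
      have a2 : (ρ.comp (PH S).subtype) (aP S 2) = (ρ.comp (f 1)) (ch 0) := by
        change ρ ((aP S 2 : PH S) : G) = ρ (f 1 (ch 0))
        rw [TW6_a S (by omega), (hf 1 (by omega)).1]
      have b2 : (ρ.comp (PH S).subtype) (bP S 2) = (ρ.comp (f 1)) (ch 1) := by
        change ρ ((bP S 2 : PH S) : G) = ρ (f 1 (ch 1))
        rw [TW6_b S (by omega), (hf 1 (by omega)).2.1]
      rw [a0, b0, a2, b2] at h1
      exact h1
  have h1 := step1k S hS 2 (by omega) ρ f hf hcomm hcen hKi
  rw [TW3_pr] at h1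
  exact h1
-- END TW9

end sys

end Pool.Agent.QR80
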