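import Pool.Agent.HG13.Final
import Pool.Agent.QR80.Star
import Pool.Agent.QR80.Two
import Pool.Agent.QR80.Ex

set_option linter.all false

namespace Pool.Agent.QR80

open Pool.Agent.HG13

universe u

variable {g n : ℕ} {V : Type u} [AddCommGroup V] [Module ℂ V]

/-- The homomorphism `F → V` with `x_i ↦ X i`, `y_i ↦ Y i`, `z_k ↦ 0`. -/
noncomputable def hz (X Y : ℕ → V) : Fr g n →* Multiplicative V :=
  FreeGroup.lift fun c : Fin (2 * g + n) =>
    Multiplicative.ofAdd (if (c : ℕ) < 2 * g then zz X Y (c : ℕ) else 0)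

/-- The same, with values in `V`. -/
noncomputable def hv (X Y : ℕ → V) (w : Fr g n) : V := Multiplicative.toAdd (hz X Y w)

theorem hv_mul (X Y : ℕ → V) (w w' : Fr g n) : hv X Y (w * w') = hv X Y w + hv X Y w' := by
  unfold hv; rw [map_mul]; rfl

theorem hv_one (X Y : ℕ → V) : hv X Y (1 : Fr g n) = 0 := by
  unfold hv; rw [map_one]; rfl

theorem hv_inv (X Y : ℕ → V) (w : Fr g n) : hv X Y w⁻¹ = -hv X Y w := by
  unfold hv; rw [map_inv]; rfl

theorem hv_gen (X Y : ℕ → V) (c : ℕ) :
    hv X Y (gen c : Fr g n) = if c < 2 * g then zz X Y c else 0 := by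
  by_cases h : c < 2 * g + n
  · rw [gen_lt h]; unfold hv hz; rw [FreeGroup.lift_apply_of]; rfl
  · rw [gen_ge (by omega), hv_one, if_neg (by omega)]

-- MODULE FI1
private theorem FI1_even (X Y : ℕ → V) (i : ℕ) (hi : i < g) :
    hv X Y (alp (2 * i) : Fr g n) = X i := by
  rw [alp_even _ (by omega), hv_gen, if_pos (by omega)]
  unfold zz
  rw [if_pos (by omega)]
  congr 1
  omega

private theorem FI1_odd (X Y : ℕ → V) (i : ℕ) (hi : i < g) :
    hv X Y (alp (2 * i + 1) : Fr g n) = -X i := by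
  have h1 := FI1_even (n := n) X Y i hi
  rw [alp_even _ (by omega)] at h1
  rw [alp_odd i hi, hv_mul, hv_mul, hv_inv, hv_inv, h1]
  abel

private theorem FI1_z (X Y : ℕ → V) (c : ℕ) (hc : 2 * g ≤ c) :
    hv X Y (alp c : Fr g n) = 0 := by
  rw [alp_even _ (by omega), hv_gen, if_neg (by omega)]

/-- The classes of the loops. PROOF. hv_mul, hv_inv, hv_gen, alp_even, alp_odd, zz; Alp_cons, Alp_snoc, Alp_one; the class of Alp (2g) (2g+k) is 0 by induction on k. -/
theorem hv_Alp (hg : 0 < g) (X Y : ℕ → V) :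
    (∀ i, i < g → hv X Y (Alp (2 * i) (2 * i + 1) : Fr g n) = X i) ∧
    (∀ i, i + 1 < g → hv X Y (Alp (2 * i + 1) (2 * i + 3) : Fr g n) = -X i + X (i + 1)) ∧
    ∀ k, k ≤ n → hv X Y (Alp (2 * g - 1) (2 * g + k) : Fr g n) = -X (g - 1) := by
  refine ⟨fun i hi => ?_, fun i hi => ?_, fun k hk => ?_⟩
  · rw [Alp_one, FI1_even X Y i hi]
  · rw [Alp_cons _ _ (by omega), hv_mul, FI1_odd X Y i (by omega)]
    have : (Alp (2 * i + 1 + 1) (2 * i + 3) : Fr g n) = alp (2 * (i + 1)) := Alp_one _
    rw [this, FI1_even X Y (i + 1) hi]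
  · induction k with
    | zero =>
      have : (Alp (2 * g - 1) (2 * g + 0) : Fr g n) = alp (2 * (g - 1) + 1) := by
        have h1 : 2 * g - 1 = 2 * (g - 1) + 1 := by omega
        have h2 : 2 * g + 0 = 2 * (g - 1) + 1 + 1 := by omega
        rw [h1, h2, Alp_one]
      rw [this, FI1_odd X Y (g - 1) (by omega)]
    | succ k ih =>
      rw [← add_assoc, Alp_snoc _ _ (by omega), hv_mul, ih (by omega), FI1_z X Y _ (by omega),
        add_zero]
-- END FI1

-- MODULE FI2
/-- Planar generators. PROOF. (sys g n Γ).T s t = inr ⟨TP s t, _⟩ is only used through XY. The set of w with the claim is a subgroup of the free group (hv_mul, hv_inv, linearity; TP s t is an automorphism), so it is enough to check w = gen c (FreeGroup.induction_on). TP_apply, cj_gen, cj_gen_odd. c ≥ 2g: TP s t (gen c) is a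
conjugate of gen c: both sides are 0. c = 2i < 2g: conjugate of gen c: hv = X i = zz X Y (2i); tX. c = 2i+1 < 2g: TP s t (gen c) = u_(2i) gen c u_(2i+1)⁻¹, u = ind s t (Alp s t). If ¬ Cr s t i: both feet are in [s,t) or none (not_Cr): the class is Y i; tY. If Cr s t i: a_i (s = 2i, t = 2i+1): Y i + X i, aY; e_i: Y i - (-X i + X (i+1)), eY;
e_j with j + 1 = i: Y i + (-X j + X i), eY'; f_k, i = g-1: Y i - (- X (g-1)), fY (hv_Alp). -/
theorem tp_hv (hg : 0 < g) (Γ : Subgroup (MulAut (Fr g n))) (ρ : MG g n Γ →* Module.End ℂ V)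
    (X Y : ℕ → V) (h : XY (sys g n Γ) ρ X Y) (s t : ℕ) (hst : Lk g n s t) (w : Fr g n) :
    ρ ((sys g n Γ).T s t) (hv X Y w) = hv X Y (TP s t w) := by
  obtain ⟨hA1, hA2, hA3⟩ := hv_Alp (n := n) hg X Y
  have hlt := hst.lt hg
  have hgen : ∀ c, c < 2 * g + n → ρ ((sys g n Γ).T s t) (hv X Y (gen c : Fr g n)) =
      hv X Y (TP s t (gen c : Fr g n)) := by
    intro c hc
    rw [TP_apply]
    by_cases ho : c < 2 * g ∧ c % 2 = 1
    · obtain ⟨i, rfl⟩ : ∃ i, c = 2 * i + 1 := ⟨c / 2, by omega⟩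
      have hi : i < g := by omega
      have hYi : hv X Y (gen (2 * i + 1) : Fr g n) = Y i := by
        rw [hv_gen, if_pos (by omega)]
        unfold zz
        rw [if_neg (by omega)]
        congr 1
        omega
      rw [cj_gen_odd _ ho.1 ho.2, hv_mul, hv_mul, hv_inv, hYi]
      have e0 : 2 * i + 1 - 1 = 2 * i := by omega
      rw [e0]
      by_cases hcr : Cr s t i
      · rcases hst with ⟨j, hj, rfl, rfl⟩ | ⟨j, hj, rfl, rfl⟩ | ⟨k, hk, rfl, rfl⟩
        · have hij : j = i := by
            rcases hcr with h1 | h1 <;> omega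
          subst hij
          rw [h.aY j hj]
          have e1 : ind (2 * j) (2 * j + 1) (Alp (2 * j) (2 * j + 1) : Fr g n) (2 * j) =
              Alp (2 * j) (2 * j + 1) := if_pos (by omega)
          have e2 : ind (2 * j) (2 * j + 1) (Alp (2 * j) (2 * j + 1) : Fr g n) (2 * j + 1) =
              1 := if_neg (by omega)
          rw [e1, e2, hA1 j hj, hv_one]
          abel
        · rcases hcr with h1 | h1
          · have hij : j = i := by omega
            subst hij
            rw [h.eY j hj]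
            have e1 : ind (2 * j + 1) (2 * j + 3) (Alp (2 * j + 1) (2 * j + 3) : Fr g n) (2 * j) =
                1 := if_neg (by omega)
            have e2 : ind (2 * j + 1) (2 * j + 3) (Alp (2 * j + 1) (2 * j + 3) : Fr g n)
                (2 * j + 1) = Alp (2 * j + 1) (2 * j + 3) := if_pos (by omega)
            rw [e1, e2, hA2 j hj, hv_one]
            abel
          · have hij : i = j + 1 := by omega
            subst hij
            rw [h.eY' j hj]
            have e1 : ind (2 * j + 1) (2 * j + 3) (Alp (2 * j + 1) (2 * j + 3) : Fr g n)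
                (2 * (j + 1)) = Alp (2 * j + 1) (2 * j + 3) := if_pos (by omega)
            have e2 : ind (2 * j + 1) (2 * j + 3) (Alp (2 * j + 1) (2 * j + 3) : Fr g n)
                (2 * (j + 1) + 1) = 1 := if_neg (by omega)
            rw [e1, e2, hA2 j hj, hv_one]
            abel
        · have hij : i = g - 1 := by
            rcases hcr with h1 | h1 <;> omega
          subst hij
          rw [h.fY k hk]
          have e1 : ind (2 * g - 1) (2 * g + k) (Alp (2 * g - 1) (2 * g + k) : Fr g n)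
              (2 * (g - 1)) = 1 := if_neg (by omega)
          have e2 : ind (2 * g - 1) (2 * g + k) (Alp (2 * g - 1) (2 * g + k) : Fr g n)
              (2 * (g - 1) + 1) = Alp (2 * g - 1) (2 * g + k) := if_pos (by omega)
          rw [e1, e2, hA3 k hk, hv_one]
          abel
      · rw [h.tY s t i hst hi hcr]
        have e1 : ind s t (Alp s t : Fr g n) (2 * i) = ind s t (Alp s t) (2 * i + 1) := by
          have h1 := not_Cr hlt.1 hcr
          unfold ind
          rcases h1 with h1 | h1 | h1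
          · rw [if_neg (by omega), if_neg (by omega)]
          · rw [if_neg (by omega), if_neg (by omega)]
          · rw [if_pos (by omega), if_pos (by omega)]
        rw [e1]
        abel
    · rw [cj_gen _ ho, hv_mul, hv_mul, hv_inv]
      have e1 : ∀ z : V, z + hv X Y (gen c : Fr g n) + -z = hv X Y (gen c : Fr g n) := by
        intro z; abel
      rw [e1]
      by_cases hc2 : c < 2 * g
      · obtain ⟨i, rfl⟩ : ∃ i, c = 2 * i := ⟨c / 2, by omega⟩
        have hXi : hv X Y (gen (2 * i) : Fr g n) = X i := by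
          rw [hv_gen, if_pos (by omega)]
          unfold zz
          rw [if_pos (by omega)]
          congr 1
          omega
        rw [hXi]
        exact h.tX s t i hst (by omega)
      · rw [hv_gen, if_neg hc2, map_zero]
  induction w using FreeGroup.induction_on with
  | C1 => rw [map_one, hv_one, map_zero]
  | of c =>
    have := hgen c c.2
    rwa [gen_lt c.2] at this
  | inv_of c hc => rw [map_inv, hv_inv, hv_inv, map_neg, hc]
  | mul x y hx hy => rw [map_mul, hv_mul, hv_mul, map_add, hx, hy]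
-- END FI2

-- MODULE FI3
/-- The generators B i. PROOF. As FI2: letters: Bt_x: gen (2i) ↦ gen (2i) (gen (2i+1))⁻¹: X i - Y i, bX; Bt_ne: gen c fixed for c ≠ 2i: bX', bY (zz X Y c for c < 2g), 0 for c ≥ 2g. -/
theorem bt_hv (Γ : Subgroup (MulAut (Fr g n))) (ρ : MG g n Γ →* Module.End ℂ V)
    (X Y : ℕ → V) (h : XY (sys g n Γ) ρ X Y) (i : ℕ) (hi : i < g) (w : Fr g n) :
    ρ ((sys g n Γ).B i) (hv X Y w) = hv X Y (Bt i w) := by
  have hzX : ∀ j, j < g → hv X Y (gen (2 * j) : Fr g n) = X j := by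
    intro j hj
    rw [hv_gen, if_pos (by omega)]
    unfold zz
    rw [if_pos (by omega)]
    congr 1
    omega
  have hzY : ∀ j, j < g → hv X Y (gen (2 * j + 1) : Fr g n) = Y j := by
    intro j hj
    rw [hv_gen, if_pos (by omega)]
    unfold zz
    rw [if_neg (by omega)]
    congr 1
    omega
  have hgen : ∀ c, c < 2 * g + n → ρ ((sys g n Γ).B i) (hv X Y (gen c : Fr g n)) =
      hv X Y (Bt i (gen c : Fr g n)) := by
    intro c hc
    by_cases h1 : c = 2 * i
    · subst h1
      rw [Bt_x i hi, hv_mul, hv_inv, hzX i hi, hzY i hi, h.bX i hi]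
      abel
    · rw [Bt_ne i c h1]
      by_cases h2 : c < 2 * g
      · rcases Nat.even_or_odd' c with ⟨j, rfl | rfl⟩
        · rw [hzX j (by omega)]
          exact h.bX' i j hi (by omega) (by omega)
        · rw [hzY j (by omega)]
          exact h.bY i j hi (by omega)
      · rw [hv_gen, if_neg h2, map_zero]
  induction w using FreeGroup.induction_on with
  | C1 => rw [map_one, hv_one, map_zero]
  | of c =>
    have := hgen c c.2
    rwa [gen_lt c.2] at this
  | inv_of c hc => rw [map_inv, hv_inv, hv_inv, map_neg, hc]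
  | mul x y hx hy => rw [map_mul, hv_mul, hv_mul, map_add, hx, hy]
-- END FI3

-- MODULE FI4
/-- All elements. PROOF. Induction over φ ∈ closure (lick g n) = closure (twists g n) = Γ (closure_lick; Subgroup.closure_induction for the predicate (for the element φ of Γ ... for all w)): generators: inr ⟨TP s t, _⟩ = (sys g n Γ).T s t (dif_pos), FI2, FI3; 1; products: ρ (inr (φ ψ)) (hv w) = ρ (inr φ) (hv (ψ w)) = hv (φ (ψ w));
inverses: apply ρ (inr φ⁻¹) to ρ (inr φ) (hv (φ⁻¹ w)) = hv w. -/
theorem all_hv (hg : 0 < g) (Γ : Subgroup (MulAut (Fr g n)))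
    (hΓ : Γ = Subgroup.closure (twists g n)) (ρ : MG g n Γ →* Module.End ℂ V)
    (X Y : ℕ → V) (h : XY (sys g n Γ) ρ X Y) (φ : Γ) (w : Fr g n) :
    ρ (SemidirectProduct.inr φ) (hv X Y w) = hv X Y ((φ : MulAut (Fr g n)) w) := by
  have hcl : Subgroup.closure (lick g n) = Γ := by rw [hΓ, closure_lick hg]
  have key : ∀ x ∈ Subgroup.closure (lick g n), ∀ (hx : x ∈ Γ) (w : Fr g n),
      ρ (SemidirectProduct.inr ⟨x, hx⟩) (hv X Y w) = hv X Y (x w) := by
    intro x hx
    induction hx using Subgroup.closure_induction with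
    | mem x hx =>
      intro hx' w
      rcases hx with ⟨i, hi, rfl⟩ | ⟨s, t, hst, rfl⟩
      · have e : (sys g n Γ).B i = SemidirectProduct.inr ⟨Bt i, hx'⟩ := dif_pos hx'
        rw [← e]
        exact bt_hv Γ ρ X Y h i hi w
      · have e : (sys g n Γ).T s t = SemidirectProduct.inr ⟨TP s t, hx'⟩ := dif_pos hx'
        rw [← e]
        exact tp_hv hg Γ ρ X Y h s t hst w
    | one =>
      intro hx' w
      have e : (⟨1, hx'⟩ : Γ) = 1 := rfl
      rw [e, map_one, map_one]
      rfl
    | mul x y hx hy ihx ihy =>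
      intro hx' w
      have e : (⟨x * y, hx'⟩ : Γ) = ⟨x, hcl ▸ hx⟩ * ⟨y, hcl ▸ hy⟩ := rfl
      rw [e, map_mul, map_mul, Module.End.mul_apply, ihy, ihx]
      rfl
    | inv x hx ihx =>
      intro hx' w
      have hx2 : x ∈ Γ := hcl ▸ hx
      have e : (⟨x⁻¹, hx'⟩ : Γ) = (⟨x, hx2⟩ : Γ)⁻¹ := rfl
      have h1 := ihx hx2 (x⁻¹ w)
      have h2 : x (x⁻¹ w) = w := by
        rw [← MulAut.mul_apply, mul_inv_cancel]
        rfl
      rw [h2] at h1
      rw [← h1, ← Module.End.mul_apply, ← map_mul, e, map_inv, inv_mul_cancel, map_one]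
      rfl
  exact key φ.1 (by rw [hcl]; exact φ.2) φ.2 w
-- END FI4

-- MODULE FI5
/-- Stability under the Lickorish generators is stability under everything, if F acts trivially. PROOF. As FI4: the φ ∈ Γ such that ρ (inr φ) and ρ (inr φ⁻¹) map W into W form a subgroup; for a generator φ: ρ (inr φ) W ⊆ W and injectivity + finite dimension give ρ (inr φ) W = W, so ρ (inr φ⁻¹) W ⊆ W. x = inl x.left * inr x.right
(SemidirectProduct.inl_left_mul_inr_right), ρ (inl _) = 1. -/
theorem stab_all (hg : 0 < g) [FiniteDimensional ℂ V] (Γ : Subgroup (MulAut (Fr g n)))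
    (hΓ : Γ = Subgroup.closure (twists g n)) (ρ : MG g n Γ →* Module.End ℂ V)
    (hF : ∀ w : Fr g n, ρ (SemidirectProduct.inl w) = 1) (W : Submodule ℂ V)
    (h1 : ∀ i, i < g → ∀ w ∈ W, ρ ((sys g n Γ).B i) w ∈ W)
    (h2 : ∀ s t, Lk g n s t → ∀ w ∈ W, ρ ((sys g n Γ).T s t) w ∈ W) :
    ∀ x, ∀ w ∈ W, ρ x w ∈ W := by
  have hcl : Subgroup.closure (lick g n) = Γ := by rw [hΓ, closure_lick hg]
  have hinv : ∀ x : MG g n Γ, (∀ w ∈ W, ρ x w ∈ W) → ∀ w ∈ W, ρ x⁻¹ w ∈ W := by
    intro x hx w hw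
    have hinj : Function.Injective ((ρ x).restrict hx) := by
      intro u v huv
      have h1 : ρ x u = ρ x v := congrArg Subtype.val huv
      apply Subtype.ext
      have h2 := congrArg (ρ x⁻¹) h1
      rwa [← Module.End.mul_apply, ← Module.End.mul_apply, ← map_mul, inv_mul_cancel,
        map_one] at h2
    obtain ⟨u, hu⟩ := (LinearMap.injective_iff_surjective.1 hinj) ⟨w, hw⟩
    have h1 : ρ x u = w := congrArg Subtype.val hu
    rw [← h1, ← Module.End.mul_apply, ← map_mul, inv_mul_cancel, map_one]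
    exact u.2
  have key : ∀ x ∈ Subgroup.closure (lick g n), ∀ (hx : x ∈ Γ), ∀ w ∈ W,
      ρ (SemidirectProduct.inr ⟨x, hx⟩) w ∈ W := by
    intro x hx
    induction hx using Subgroup.closure_induction with
    | mem x hx =>
      intro hx' w hw
      rcases hx with ⟨i, hi, rfl⟩ | ⟨s, t, hst, rfl⟩
      · have e : (sys g n Γ).B i = SemidirectProduct.inr ⟨Bt i, hx'⟩ := dif_pos hx'
        rw [← e]
        exact h1 i hi w hw
      · have e : (sys g n Γ).T s t = SemidirectProduct.inr ⟨TP s t, hx'⟩ := dif_pos hx'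
        rw [← e]
        exact h2 s t hst w hw
    | one =>
      intro hx' w hw
      have e : (⟨1, hx'⟩ : Γ) = 1 := rfl
      rw [e, map_one, map_one]
      exact hw
    | mul x y hx hy ihx ihy =>
      intro hx' w hw
      have e : (⟨x * y, hx'⟩ : Γ) = ⟨x, hcl ▸ hx⟩ * ⟨y, hcl ▸ hy⟩ := rfl
      rw [e, map_mul, map_mul, Module.End.mul_apply]
      exact ihx _ _ (ihy _ w hw)
    | inv x hx ihx =>
      intro hx' w hw
      have hx2 : x ∈ Γ := hcl ▸ hx
      have e : (⟨x⁻¹, hx'⟩ : Γ) = (⟨x, hx2⟩ : Γ)⁻¹ := rfl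
      rw [e, map_inv]
      exact hinv _ (ihx hx2) w hw
  intro x w hw
  have e : x = SemidirectProduct.inl x.left * SemidirectProduct.inr x.right :=
    (SemidirectProduct.inl_left_mul_inr_right x).symm
  rw [e, map_mul, hF, one_mul]
  exact key x.right.1 (by rw [hcl]; exact x.right.2) x.right.2 w hw
-- END FI5

-- MODULE FI6
/-- PROOF. Both sides are homomorphisms from the free group (additive in w); on the letter c: ex = Pi.single c 1 if c < 2g (Σ_d ex_d • zz d = zz c), and 0 if c ≥ 2g. FreeGroup.induction_on. -/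
theorem ex_sum (X Y : ℕ → V) (w : Fr g n) :
    ∑ d : Fin (2 * g), ex w d • zz X Y (d : ℕ) = hv X Y w := by
  have e1 : ∀ w w' : Fr g n, ex (w * w') = ex w + ex w' := by
    intro w w'
    unfold ex
    rw [map_mul]
    rfl
  have e2 : ex (1 : Fr g n) = 0 := by
    unfold ex
    rw [map_one]
    rfl
  have e3 : ∀ w : Fr g n, ex w⁻¹ = -ex w := by
    intro w
    unfold ex
    rw [map_inv]
    rfl
  induction w using FreeGroup.induction_on with
  | C1 => rw [e2, hv_one]; simp
  | of c =>
    have h1 := hv_gen (g := g) (n := n) X Y c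
    rw [gen_lt c.2] at h1
    have h2 : (FreeGroup.of (⟨(c : ℕ), c.2⟩ : Fin (2 * g + n)) : Fr g n) = FreeGroup.of c := rfl
    rw [h2] at h1
    rw [h1]
    have h3 : ∀ d : Fin (2 * g), ex (FreeGroup.of c : Fr g n) d =
        if (d : ℕ) = (c : ℕ) then (1 : ℂ) else 0 := by
      intro d
      unfold ex
      rw [FreeGroup.lift_apply_of]
      rfl
    by_cases hc : (c : ℕ) < 2 * g
    · rw [if_pos hc, Finset.sum_eq_single (⟨(c : ℕ), hc⟩ : Fin (2 * g))]
      · rw [h3, if_pos rfl, one_smul]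
      · intro d _ hd
        rw [h3, if_neg (fun h => hd (Fin.ext h)), zero_smul]
      · intro h
        exact absurd (Finset.mem_univ _) h
    · rw [if_neg hc]
      apply Finset.sum_eq_zero
      intro d _
      rw [h3, if_neg (by have := d.2; omega), zero_smul]
  | inv_of c hc =>
    rw [e3, hv_inv, ← hc, ← Finset.sum_neg_distrib]
    refine Finset.sum_congr rfl fun d _ => ?_
    rw [Pi.neg_apply, neg_smul]
  | mul x y hx hy =>
    rw [e1, hv_mul, ← hx, ← hy, ← Finset.sum_add_distrib]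
    refine Finset.sum_congr rfl fun d _ => ?_
    rw [Pi.add_apply, add_smul]
-- END FI6

-- MODULE FI7
/-- THE QUADRATIC RANGE THEOREM.
PROOF. hΓ' : twists g n ⊆ Γ (subset_closure). high_genus g n m: (1) with t = ⟨TP 0 1, _⟩, φ = 1: ρ ((sys g n Γ).T 0 1) - 1 is nilpotent ((sys g n Γ).T 0 1 = inr ⟨TP 0 1, _⟩, dif_pos). (3): stable subspaces are ⊥ or ⊤ by irreducibility, so they have a stable complement: ρ (inl w) = 1 for all w.
If ρ ((sys g n Γ).T 0 1) = 1: all_trivial (4 ≤ g) and x = inl x.left * inr x.right: the first alternative. Otherwise level_one with S = sys g n Γ, sys_rels; level_one_rep with hirr from stab_all: X, Y. bas = Module.Basis.mk ind (span = ⊤), e = bas.equivFun; e.symm v = Σ_d v d • zz X Y d (Basis.equivFun_symm_apply, Basis.mk_apply), so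
e.symm (ex w) = hv X Y w (ex_sum); all_hv. -/
theorem quadratic_range (g n m : ℕ) (hg : 2 * m + 2 ≤ g) (h6 : 6 ≤ g)
    (Γ : Subgroup (MulAut (Fr g n))) (hΓ : Γ = Subgroup.closure (twists g n))
    {V : Type u} [AddCommGroup V] [Module ℂ V] [FiniteDimensional ℂ V]
    (ρ : MG g n Γ →* Module.End ℂ V) (hirr : Irr ρ)
    (h1 : Module.finrank ℂ V < 4 ^ m) (h2 : Module.finrank ℂ V < 2 * g * (g - 1)) :
    (∀ x, ρ x = 1) ∨
    ((∀ w : Fr g n, ρ (SemidirectProduct.inl w) = 1) ∧
      ∃ e : V ≃ₗ[ℂ] (Fin (2 * g) → ℂ), ∀ (φ : Γ) (w : Fr g n),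
        ρ (SemidirectProduct.inr φ) (e.symm (ex w)) = e.symm (ex ((φ : MulAut (Fr g n)) w))) := by
  have hΓ' : twists g n ⊆ Γ := by
    rw [hΓ]
    exact Subgroup.subset_closure
  have hT01 : (TP 0 1 : MulAut (Fr g n)) ∈ Γ := hΓ' (Or.inr ⟨0, 1, by omega, by omega, rfl⟩)
  obtain ⟨hh1, -, hh3, -⟩ := high_genus g n m hg Γ hΓ' ρ h1
  have hsT : (sys g n Γ).T 0 1 = SemidirectProduct.inr ⟨TP 0 1, hT01⟩ := dif_pos hT01
  have hnil : IsNilpotent (ρ ((sys g n Γ).T 0 1) - 1) := by
    rw [hsT]
    refine hh1 ⟨TP 0 1, hT01⟩ 1 ?_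
    rw [OneMemClass.coe_one, one_mul, inv_one, mul_one]
  have hF : ∀ w : Fr g n, ρ (SemidirectProduct.inl w) = 1 := by
    apply hh3
    intro W hW
    rcases hirr.2 W hW with rfl | rfl
    · exact ⟨⊤, fun _ _ _ => trivial, isCompl_bot_top⟩
    · exact ⟨⊥, fun x w hw => by
        rw [Submodule.mem_bot] at hw ⊢
        rw [hw, map_zero], isCompl_top_bot⟩
  by_cases hone : ρ ((sys g n Γ).T 0 1) = 1
  · left
    obtain ⟨h3, h4⟩ := all_trivial g n (by omega) Γ hΓ' ρ hone
    intro x
    have e : x = SemidirectProduct.inl x.left * SemidirectProduct.inr x.right :=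
      (SemidirectProduct.inl_left_mul_inr_right x).symm
    have h5 : (x.right : MulAut (Fr g n)) ∈ Subgroup.closure (twists g n) :=
      (SetLike.ext_iff.1 hΓ _).1 x.right.2
    rw [e, map_mul, h3, h4 _ h5, one_mul]
  · right
    refine ⟨hF, ?_⟩
    have hS := sys_rels Γ hΓ'
    have h02 := level_one (sys g n Γ) hS h6 ρ hnil h2
    obtain ⟨X, Y, hXY, hli, hsp⟩ := level_one_rep (sys g n Γ) hS (by omega) ρ h02 (by
      intro W hB hT
      exact hirr.2 W (stab_all (by omega) Γ hΓ ρ hF W hB hT)) hone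
    refine ⟨(Module.Basis.mk hli hsp.ge).equivFun, fun φ w => ?_⟩
    have hsymm : ∀ w : Fr g n, (Module.Basis.mk hli hsp.ge).equivFun.symm (ex w) =
        hv X Y w := by
      intro w
      rw [Module.Basis.equivFun_symm_apply, ← ex_sum]
      refine Finset.sum_congr rfl fun d _ => ?_
      rw [Module.Basis.mk_apply]
    rw [hsymm, hsymm]
    exact all_hv (by omega) Γ hΓ ρ X Y hXY φ w
-- END FI7

end Pool.Agent.QR80
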