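import Pool.Agent.QR80.Hm
import Pool.Agent.HG13.Stmt

set_option linter.all false

namespace Pool.Agent.QR80

open Pool.Agent.HG13

universe u

variable {g n : ℕ}

/-- `V` is the direct sum of `a` trivial representations and `b` copies of the homology of the
closed surface. -/
def Dec (Γ : Subgroup (MulAut (Fr g n))) {V : Type u} [AddCommGroup V] [Module ℂ V]
    (ρ : MG g n Γ →* Module.End ℂ V) : Prop :=
  ∃ (a b : ℕ) (e : V ≃ₗ[ℂ] (Fin a → ℂ) × (Fin b → Fin (2 * g) → ℂ)),
    ∀ (φ : Γ) (x : Fin a → ℂ) (w : Fin b → Fr g n),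
      ρ (SemidirectProduct.inr φ) (e.symm (x, fun j => ex (w j))) =
        e.symm (x, fun j => ex ((φ : MulAut (Fr g n)) (w j)))

theorem resR_apply {H : Type*} [Group H] {V : Type u} [AddCommGroup V] [Module ℂ V]
    (σ : H →* Module.End ℂ V) (W : Submodule ℂ V)
    (hW : ∀ x, ∀ w ∈ W, σ x w ∈ W) (x : H) (w : W) : ((resR σ W hW x w : W) : V) = σ x w := rfl

/-- A stable subspace of a semisimple representation is semisimple. -/
theorem semis_res {H : Type*} [Group H] {V : Type u} [AddCommGroup V] [Module ℂ V]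
    (σ : H →* Module.End ℂ V)
    (hs : ∀ W : Submodule ℂ V, (∀ x, ∀ w ∈ W, σ x w ∈ W) →
      ∃ W' : Submodule ℂ V, (∀ x, ∀ w ∈ W', σ x w ∈ W') ∧ IsCompl W W')
    (U : Submodule ℂ V) (hU : ∀ x, ∀ w ∈ U, σ x w ∈ U)
    (W : Submodule ℂ U) (hW : ∀ x, ∀ w ∈ W, resR σ U hU x w ∈ W) :
    ∃ W' : Submodule ℂ U, (∀ x, ∀ w ∈ W', resR σ U hU x w ∈ W') ∧ IsCompl W W' := by
  obtain ⟨C, hC, hWC⟩ := hs (W.map U.subtype) (by
    rintro x _ ⟨w, hw, rfl⟩
    exact ⟨resR σ U hU x w, hW x w hw, rfl⟩)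
  refine ⟨C.comap U.subtype, fun x w hw => ?_, ?_⟩
  · exact hC x w hw
  · rw [isCompl_iff, Submodule.disjoint_def, codisjoint_iff_le_sup]
    constructor
    · intro w h1 h2
      have := Submodule.disjoint_def.1 hWC.disjoint (w : V) ⟨w, h1, rfl⟩ h2
      exact Subtype.ext this
    · rintro w -
      have h3 : (w : V) ∈ W.map U.subtype ⊔ C := by
        rw [hWC.sup_eq_top]; trivial
      obtain ⟨a, ⟨a', ha, rfl⟩, c, hc, hac⟩ := Submodule.mem_sup.1 h3
      have hcU : c ∈ U := by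
        have : c = (w : V) - (a' : V) := by
          rw [← hac]; simp
        rw [this]
        exact U.sub_mem w.2 a'.2
      refine Submodule.mem_sup.2 ⟨a', ha, ⟨c, hcU⟩, hc, ?_⟩
      exact Subtype.ext hac

theorem dec_all (m : ℕ) (hg : 2 * m + 2 ≤ g) (h6 : 6 ≤ g)
    (Γ : Subgroup (MulAut (Fr g n))) (hΓ : Γ = Subgroup.closure (twists g n)) (k : ℕ) :
    ∀ {V : Type u} [AddCommGroup V] [Module ℂ V] [FiniteDimensional ℂ V]
    (ρ : MG g n Γ →* Module.End ℂ V), Module.finrank ℂ V = k →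
    (∀ W : Submodule ℂ V, (∀ x, ∀ w ∈ W, ρ x w ∈ W) →
      ∃ W' : Submodule ℂ V, (∀ x, ∀ w ∈ W', ρ x w ∈ W') ∧ IsCompl W W') →
    Module.finrank ℂ V < 4 ^ m → Module.finrank ℂ V < 2 * g * (g - 1) → Dec Γ ρ := by
  induction k using Nat.strong_induction_on with
  | _ k ih =>
  intro V _ _ _ ρ hk hs h1 h2
  rcases subsingleton_or_nontrivial V with hV | hV
  · refine ⟨0, 0, ⟨0, 0, fun v => Subsingleton.elim _ _, fun y => Subsingleton.elim _ _⟩,
      fun φ x w => Subsingleton.elim _ _⟩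
  obtain ⟨W, hW, hirr⟩ := exists_irr ρ
  obtain ⟨W', hW', hc⟩ := hs W hW
  have hWn : Nontrivial W := hirr.1
  have hdim : Module.finrank ℂ W + Module.finrank ℂ W' = Module.finrank ℂ V :=
    Submodule.finrank_add_eq_of_isCompl hc
  have hWpos : 0 < Module.finrank ℂ W := Module.finrank_pos
  have hle : Module.finrank ℂ W' ≤ Module.finrank ℂ V := by omega
  have hle' : Module.finrank ℂ W ≤ Module.finrank ℂ V := by omega
  obtain ⟨a, b, e2, he2⟩ := ih (Module.finrank ℂ W') (by omega) (resR ρ W' hW') rfl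
    (semis_res ρ hs W' hW') (by omega) (by omega)
  have key : ∀ (φ : Γ) (u : W) (v : W'),
      ρ (SemidirectProduct.inr φ) (Submodule.prodEquivOfIsCompl W W' hc (u, v)) =
        Submodule.prodEquivOfIsCompl W W' hc
          (resR ρ W hW (SemidirectProduct.inr φ) u, resR ρ W' hW' (SemidirectProduct.inr φ) v) := by
    intro φ u v
    simp only [Submodule.coe_prodEquivOfIsCompl', map_add]
    rfl
  rcases quadratic_range g n m hg h6 Γ hΓ (resR ρ W hW) hirr (by omega) (by omega) with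
    htr | ⟨-, e1, he1⟩
  · -- a trivial line
    have h1W : Module.finrank ℂ W = 1 := by
      obtain ⟨w, hw⟩ := exists_ne (0 : W)
      rcases hirr.2 (ℂ ∙ w) (by
        intro x v hv
        rw [htr x]; exact hv) with h | h
      · exact absurd (Submodule.span_singleton_eq_bot.1 h) hw
      · exact finrank_eq_one_iff'.2 ⟨w, hw, fun v => by
          have : v ∈ (ℂ ∙ w) := by rw [h]; trivial
          obtain ⟨c, hc⟩ := Submodule.mem_span_singleton.1 this
          exact ⟨c, hc⟩⟩
    let e1 : W ≃ₗ[ℂ] ℂ := LinearEquiv.ofFinrankEq W ℂ (by rw [h1W, Module.finrank_self])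
    let E : ((Fin (a + 1) → ℂ) × (Fin b → Fin (2 * g) → ℂ)) ≃ₗ[ℂ] V :=
      (LinearEquiv.prodCongr (Fin.consLinearEquiv ℂ (fun _ : Fin (a + 1) => ℂ)).symm
        (LinearEquiv.refl ℂ _)) ≪≫ₗ (LinearEquiv.prodAssoc ℂ _ _ _) ≪≫ₗ
        (LinearEquiv.prodCongr e1.symm e2.symm) ≪≫ₗ (Submodule.prodEquivOfIsCompl W W' hc)
    have hE : ∀ x y, E (x, y) = Submodule.prodEquivOfIsCompl W W' hc
        (e1.symm (x 0), e2.symm (fun i => x i.succ, y)) := fun x y => rfl
    refine ⟨a + 1, b, E.symm, fun φ x w => ?_⟩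
    rw [LinearEquiv.symm_symm, hE, hE, key, htr]
    rw [he2 φ (fun i => x i.succ) w]
    rfl
  · let E : ((Fin a → ℂ) × (Fin (b + 1) → Fin (2 * g) → ℂ)) ≃ₗ[ℂ] V :=
      (LinearEquiv.prodCongr (LinearEquiv.refl ℂ _)
        (Fin.consLinearEquiv ℂ (fun _ : Fin (b + 1) => (Fin (2 * g) → ℂ))).symm) ≪≫ₗ
        (LinearEquiv.prodComm ℂ _ _) ≪≫ₗ (LinearEquiv.prodAssoc ℂ _ _ _) ≪≫ₗ
        (LinearEquiv.prodCongr (LinearEquiv.refl ℂ _) (LinearEquiv.prodComm ℂ _ _)) ≪≫ₗ
        (LinearEquiv.prodCongr e1.symm e2.symm) ≪≫ₗ (Submodule.prodEquivOfIsCompl W W' hc)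
    have hE : ∀ x y, E (x, y) = Submodule.prodEquivOfIsCompl W W' hc
        (e1.symm (y 0), e2.symm (x, fun i => y i.succ)) := fun x y => rfl
    refine ⟨a, b + 1, E.symm, fun φ x w => ?_⟩
    rw [LinearEquiv.symm_symm, hE, hE, key]
    rw [he2 φ x (fun j => w j.succ), he1 φ (w 0)]

theorem ex_gen {c : ℕ} (hc : c < 2 * g) (d : Fin (2 * g)) :
    ex (gen c : Fr g n) d = if (d : ℕ) = c then 1 else 0 := by
  have h : (gen c : Fr g n) = FreeGroup.of ⟨c, by omega⟩ := gen_lt (by omega)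
  rw [h, ex, FreeGroup.lift_apply_of]
  rfl

theorem ex_one : ex (1 : Fr g n) = 0 := by
  rw [ex, map_one]
  rfl

/-- The representation `ρ`, restricted to `Γ`, is the direct sum of `a` trivial representations and
`b` copies of the first homology of the closed surface: there is a basis consisting of vectors
`u_i` (`i < a`) and `v_(j,c)` (`j < b`, `c < 2 g`) such that every `φ` in `Γ` fixes the `u_i` and
maps `v_(j,c)` to the sum over `d < 2 g` of `m_d • v_(j,d)`, where `m_d` is the exponent sum of the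
letter number `d` in the image under `φ` of the letter number `c`. -/
def IsSum {Γ : Subgroup (MulAut (Fr g n))} {V : Type*} [AddCommGroup V] [Module ℂ V]
    (ρ : Representation ℂ (ModG Γ) V) (a b : ℕ) : Prop :=
  ∃ B : Module.Basis (Fin a ⊕ Fin b × Fin (2 * g)) ℂ V, ∀ φ : Γ,
    (∀ i, ρ (incl Γ φ) (B (Sum.inl i)) = B (Sum.inl i)) ∧
    ∀ (j : Fin b) (c : Fin (2 * g)), ρ (incl Γ φ) (B (Sum.inr (j, c))) =
      ∑ d : Fin (2 * g), ex ((φ : MulAut (Fr g n)) (gen c)) d • B (Sum.inr (j, d))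

theorem dec_sum {Γ : Subgroup (MulAut (Fr g n))} {V : Type u} [AddCommGroup V] [Module ℂ V]
    (ρ : MG g n Γ →* Module.End ℂ V) (h : Dec Γ ρ) :
    ∃ a b : ℕ, IsSum (Γ := Γ) (V := V) ρ a b := by
  obtain ⟨a, b, e, he⟩ := h
  let E : V ≃ₗ[ℂ] (Fin a ⊕ Fin b × Fin (2 * g) → ℂ) :=
    e ≪≫ₗ (LinearEquiv.prodCongr (LinearEquiv.refl ℂ _) (LinearEquiv.curry ℂ ℂ _ _).symm) ≪≫ₗ
      (LinearEquiv.sumArrowLequivProdArrow _ _ ℂ ℂ).symm
  have hE : ∀ z, E.symm z = e.symm (fun i => z (Sum.inl i), fun j c => z (Sum.inr (j, c))) :=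
    fun z => rfl
  have hB : ∀ i, Module.Basis.ofEquivFun E i = E.symm (Pi.single i 1) := by
    intro i
    rw [Module.Basis.coe_ofEquivFun]
  have key : ∀ (j : Fin b) (y : Fin (2 * g) → ℂ),
      e.symm ((0 : Fin a → ℂ), fun j' => if j' = j then y else 0) =
      ∑ d : Fin (2 * g), y d • Module.Basis.ofEquivFun E (Sum.inr (j, d)) := by
    intro j y
    have : ∀ d, y d • Module.Basis.ofEquivFun E (Sum.inr (j, d)) =
        E.symm (y d • Pi.single (Sum.inr (j, d)) 1) := by
      intro d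
      rw [hB, map_smul]
    simp only [this]
    rw [← map_sum, hE]
    congr 1
    refine Prod.ext ?_ ?_
    · funext i
      simp
    · funext j' c
      simp only [Finset.sum_apply, Pi.smul_apply, smul_eq_mul]
      by_cases hj : j' = j
      · subst hj
        rw [if_pos rfl, Finset.sum_eq_single c]
        · simp
        · intro d _ hd
          rw [Pi.single_eq_of_ne, mul_zero]
          simpa using hd.symm
        · simp
      · rw [if_neg hj]
        rw [Finset.sum_eq_zero]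
        · rfl
        · intro d _
          rw [Pi.single_eq_of_ne, mul_zero]
          simp [hj]
  refine ⟨a, b, Module.Basis.ofEquivFun E, fun φ => ⟨fun i => ?_, fun j c => ?_⟩⟩
  · have h1 := he φ (Pi.single i 1) (fun _ => 1)
    have h2 : Module.Basis.ofEquivFun E (Sum.inl i) =
        e.symm (Pi.single i 1, fun _ => ex (1 : Fr g n)) := by
      rw [hB, hE]
      congr 1
      refine Prod.ext ?_ ?_
      · funext i'
        by_cases hi : i' = i
        · subst hi; simp
        · simp [Pi.single_apply, hi]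
      · funext j c
        simp [ex_one]
    simp only [map_one] at h1
    rw [h2]
    exact h1
  · have h1 := he φ 0 (fun j' => if j' = j then gen c else 1)
    have h2 : (fun j' : Fin b => ex (if j' = j then (gen c : Fr g n) else 1)) =
        fun j' => if j' = j then ex (gen c : Fr g n) else 0 := by
      funext j'
      by_cases hj : j' = j
      · simp [hj]
      · simp [hj, ex_one]
    have h3 : (fun j' : Fin b => ex ((φ : MulAut (Fr g n))
        (if j' = j then (gen c : Fr g n) else 1))) =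
        fun j' => if j' = j then ex ((φ : MulAut (Fr g n)) (gen c)) else 0 := by
      funext j'
      by_cases hj : j' = j
      · simp [hj]
      · simp [hj, ex_one]
    rw [h2, h3, key, key] at h1
    have h4 : ∑ d : Fin (2 * g), ex (gen (c : ℕ) : Fr g n) d •
        Module.Basis.ofEquivFun E (Sum.inr (j, d)) =
        Module.Basis.ofEquivFun E (Sum.inr (j, c)) := by
      rw [Finset.sum_eq_single c]
      · rw [ex_gen c.2, if_pos rfl, one_smul]
      · intro d _ hd
        rw [ex_gen c.2, if_neg (fun h => hd (Fin.ext h)), zero_smul]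
      · simp
    rw [h4] at h1
    exact h1

/-- The quadratic range theorem for semisimple representations. -/
theorem semis_quadratic (g n m : ℕ) (hg : 2 * m + 2 ≤ g) (h6 : 6 ≤ g)
    (Γ : Subgroup (MulAut (Fr g n))) (hΓ : Γ = Subgroup.closure (twists g n))
    {V : Type u} [AddCommGroup V] [Module ℂ V] [FiniteDimensional ℂ V]
    (ρ : Representation ℂ (ModG Γ) V) (hs : Semis ρ)
    (h1 : Module.finrank ℂ V < 4 ^ m) (h2 : Module.finrank ℂ V < 2 * g * (g - 1)) :
    ∃ a b : ℕ, IsSum ρ a b :=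
  dec_sum ρ (dec_all m hg h6 Γ hΓ _ (V := V) ρ rfl hs h1 h2)

end Pool.Agent.QR80
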